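import Pool.Agent.Lib.MP_640417_ag.Dfr.Baire
import Mathlib.MeasureTheory.Group.Measure

/-!
# MP_640417_ag, Dfr, module AeFree: almost all elements have no relations between determinants
-/

set_option autoImplicit false

namespace Pool.Agent.Lib.MP_640417_ag.Dfr

open Module TensorProduct MeasureTheory Pool.Agent.Lib.MP_640417_ag
  Pool.Agent.Lib.MP_640417_ag.Frob
  Pool.Agent.Lib.MP_640417_ag.Four Pool.Agent.Lib.MP_640417_ag.Ty
  Pool.Agent.Lib.MP_640417_ag.Lef

/-- A closed subgroup of a compact group which is not open has measure zero. -/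
theorem measure_closed {Γ : Type} [Group Γ] [TopologicalSpace Γ] [IsTopologicalGroup Γ]
    [CompactSpace Γ] [MeasurableSpace Γ] [BorelSpace Γ] (ν : Measure Γ) [ν.IsHaarMeasure]
    (H : Subgroup Γ) (hc : IsClosed (H : Set Γ)) (ho : ¬ IsOpen (H : Set Γ)) :
    ν (H : Set Γ) = 0 := by
  by_contra h0
  have hinf : Infinite (Γ ⧸ H) := by
    by_contra h1
    rw [not_infinite_iff_finite] at h1
    have : H.FiniteIndex := Subgroup.finiteIndex_of_finite_quotient
    exact ho (H.isOpen_of_isClosed_of_finiteIndex hc)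
  let f : ℕ ↪ Γ ⧸ H := Infinite.natEmbedding _
  let g : ℕ → Γ := fun n => (f n).out
  let A : ℕ → Set Γ := fun n => (fun x => (g n)⁻¹ * x) ⁻¹' (H : Set Γ)
  have hA : ∀ n, MeasurableSet (A n) := fun n =>
    (hc.preimage (continuous_const_mul (g n)⁻¹)).measurableSet
  have hd : Pairwise (Function.onFun Disjoint A) := by
    intro m n hmn
    rw [Function.onFun, Set.disjoint_left]
    intro x hx hy
    apply hmn
    apply f.injective
    have h1 : (QuotientGroup.mk (g m) : Γ ⧸ H) = QuotientGroup.mk x := QuotientGroup.eq.mpr hx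
    have h2 : (QuotientGroup.mk (g n) : Γ ⧸ H) = QuotientGroup.mk x := QuotientGroup.eq.mpr hy
    have h3 : ∀ n, (QuotientGroup.mk (g n) : Γ ⧸ H) = f n := fun n => Quotient.out_eq _
    rw [← h3 m, ← h3 n, h1, h2]
  have hm : ∀ n, ν (A n) = ν (H : Set Γ) := fun n => measure_preimage_mul ν (g n)⁻¹ _
  have h1 : ν (⋃ n, A n) = ⊤ := by
    rw [measure_iUnion hd hA]
    simp only [hm]
    exact ENNReal.tsum_const_eq_top_of_ne_zero h0
  exact (isCompact_univ.measure_lt_top (μ := ν)).ne
    (top_le_iff.mp (h1 ▸ measure_mono (Set.subset_univ _)))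

/-- **Almost all elements have no relations between determinants**, if there is no Weil relation. -/
theorem ae_detFree {F : Type} [NontriviallyNormedField F] [CharZero F] {V : Type}
    [AddCommGroup V] [Module F V] [FiniteDimensional F V] {Γ : Type} [Group Γ]
    [TopologicalSpace Γ] [IsTopologicalGroup Γ] [CompactSpace Γ] [MeasurableSpace Γ]
    [BorelSpace Γ] (ν : Measure Γ) [ν.IsHaarMeasure] (ρ : H1Rep Γ F V)
    (hfull : ∀ c, CommF ρ c → ∀ γ, c * ρ.T γ = ρ.T γ * c) {N : ℕ} {st : Fin N → Fin N}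
    {ε : Fin N → Module.End (AlgebraicClosure F) (AlgebraicClosure F ⊗[F] V)}
    (hS : Sys (ρ.form.baseChange (AlgebraicClosure F)) (comK ρ) N st ε)
    (hW : ¬ WeilRel ρ) : ∀ᵐ γ ∂ν, DetFree ρ γ := by
  classical
  -- the determinants
  have hTm : ∀ γ δ, (ρ.T (γ * δ)).baseChange (AlgebraicClosure F) =
      (ρ.T γ).baseChange (AlgebraicClosure F) * (ρ.T δ).baseChange (AlgebraicClosure F) := by
    intro γ δ
    rw [map_mul, LinearMap.baseChange_mul]
  have hT1 : (ρ.T 1).baseChange (AlgebraicClosure F) = 1 := by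
    rw [map_one]
    exact LinearMap.baseChange_id
  have hdm : ∀ p ∈ comK ρ, p * p = p → ∀ γ δ : Γ,
      LinearMap.det (p * (ρ.T (γ * δ)).baseChange (AlgebraicClosure F) + (1 - p)) =
      LinearMap.det (p * (ρ.T γ).baseChange (AlgebraicClosure F) + (1 - p)) *
      LinearMap.det (p * (ρ.T δ).baseChange (AlgebraicClosure F) + (1 - p)) := by
    intro p hp hpp γ δ
    rw [hTm, bai_mul hpp (comK_full ρ hfull hp γ)]
  have hd1 : ∀ p : Module.End (AlgebraicClosure F) (AlgebraicClosure F ⊗[F] V),
      LinearMap.det (p * (ρ.T 1).baseChange (AlgebraicClosure F) + (1 - p)) = 1 := by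
    intro p
    rw [hT1]
    exact bai_one p
  have hd0 : ∀ p ∈ comK ρ, p * p = p → ∀ γ : Γ,
      LinearMap.det (p * (ρ.T γ).baseChange (AlgebraicClosure F) + (1 - p)) ≠ 0 := by
    intro p hp hpp γ h
    have h1 := hdm p hp hpp γ γ⁻¹
    rw [mul_inv_cancel, hd1, h, zero_mul] at h1
    exact one_ne_zero h1
  let Pf : ∀ k : ℕ, (Fin k → Finset (Fin N)) → Fin k →
    Module.End (AlgebraicClosure F) (AlgebraicClosure F ⊗[F] V) :=
    fun k S j => ∑ i ∈ S j, ε i
  let good : (Σ k : ℕ, (Fin k → Finset (Fin N)) × (Fin k → ℤ)) → Prop := fun q =>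
    CenRel (ρ.form.baseChange (AlgebraicClosure F)) (comK ρ) (Pf q.1 q.2.1) q.2.2 ∧
      ∑ j, (q.2.2 j : AlgebraicClosure F) • Pf q.1 q.2.1 j ≠ 0
  have hD : ∀ q, ∀ᵐ γ ∂ν, good q → detProd (Pf q.1 q.2.1) q.2.2
      ((ρ.T γ).baseChange (AlgebraicClosure F)) ≠ 1 := by
    intro q
    by_cases hq : good q
    · let R : Γ →* AlgebraicClosure F :=
        { toFun := fun γ => detProd (Pf q.1 q.2.1) q.2.2
            ((ρ.T γ).baseChange (AlgebraicClosure F))
          map_one' := by
            rw [detProd]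
            refine Finset.prod_eq_one fun j _ => ?_
            rw [hd1, one_zpow]
          map_mul' := by
            intro γ δ
            rw [detProd, detProd, detProd, ← Finset.prod_mul_distrib]
            refine Finset.prod_congr rfl fun j _ => ?_
            rw [hdm _ (hq.1.mem j) (hq.1.idem j), mul_zpow] }
      have hcl : IsClosed (R.ker : Set Γ) := by
        rw [← isOpen_compl_iff]
        exact bai_open ρ _ _ fun γ j => hd0 _ (hq.1.mem j) (hq.1.idem j) γ
      have hno : ¬ IsOpen (R.ker : Set Γ) := fun hopen =>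
        hW ⟨q.1, Pf q.1 q.2.1, q.2.2, hq.1, hq.2, ⟨R.ker, hopen⟩, fun γ hγ =>
          MonoidHom.mem_ker.mp hγ⟩
      have h1 := measure_closed ν R.ker hcl hno
      rw [ae_iff]
      refine measure_mono_null ?_ h1
      intro γ hγ
      by_contra h2
      exact hγ fun _ h3 => h2 (MonoidHom.mem_ker.mpr h3)
    · exact Filter.Eventually.of_forall fun γ h => absurd h hq
  filter_upwards [ae_all_iff.mpr hD] with γ hγ
  intro k p s hcr hdet
  by_contra hsum
  -- the idempotents are sums of the `ε`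
  have hp : ∀ j, ∃ S : Finset (Fin N), p j = ∑ i ∈ S, ε i := by
    intro j
    have h1 : ∀ i, ε i * p j = p j * ε i := fun i => hcr.cen j _ (hS.mem i)
    have h2 : ∀ i, p j * ε i = 0 ∨ p j * ε i = ε i := by
      intro i
      obtain ⟨t, ht⟩ := hS.one i _ (hcr.mem j)
      have h3 : p j * ε i = t • ε i := by
        rw [← ht, h1 i, mul_assoc, hS.idem]
      have h5 : p j * (p j * ε i) = p j * ε i := by rw [← mul_assoc, hcr.idem]
      rw [h3, mul_smul_comm, h3, smul_smul] at h5
      rcases bai_t (hS.ne i) h5 with h | h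
      · left
        rw [h3, h, zero_smul]
      · right
        rw [h3, h, one_smul]
    refine ⟨Finset.univ.filter fun i => p j * ε i = ε i, ?_⟩
    rw [Finset.sum_filter]
    calc p j = p j * ∑ i, ε i := by rw [hS.sum, mul_one]
      _ = ∑ i, p j * ε i := Finset.mul_sum _ _ _
      _ = _ := by
        refine Finset.sum_congr rfl fun i _ => ?_
        by_cases h : p j * ε i = ε i
        · rw [if_pos h, h]
        · rw [if_neg h]
          exact (h2 i).resolve_right h
  choose S hSp using hp
  have hpS : p = Pf k S := funext fun j => hSp j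
  have h1 := hγ ⟨k, S, s⟩
  have h2 : good ⟨k, S, s⟩ := by
    refine ⟨?_, ?_⟩
    · change CenRel _ _ (Pf k S) s
      rw [← hpS]
      exact hcr
    · change ∑ j, (s j : AlgebraicClosure F) • Pf k S j ≠ 0
      rw [← hpS]
      exact hsum
  have h3 : detProd (Pf k S) s ((ρ.T γ).baseChange (AlgebraicClosure F)) ≠ 1 := h1 h2
  rw [← hpS] at h3
  exact h3 hdet

end Pool.Agent.Lib.MP_640417_ag.Dfr
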