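import Pool.Agent.Lib.MP_640417_ag.Dfr.Stmt
import Pool.Agent.Lib.MP_640417_ag.Dfr.AeFree
import Pool.Agent.Lib.MP_640417_ag.Gen4.Ae

/-!
# MP_640417_ag: the local-global principle with the zero-one law
-/

set_option autoImplicit false

namespace Pool.Agent.Lib.MP_640417_ag.Dfr

open Module TensorProduct MeasureTheory Pool.Agent.Lib.MP_640417_ag
  Pool.Agent.Lib.MP_640417_ag.Frob
  Pool.Agent.Lib.MP_640417_ag.Four Pool.Agent.Lib.MP_640417_ag.Ty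
  Pool.Agent.Lib.MP_640417_ag.Lef Pool.Agent.Lib.MP_640417_ag.Ctl
  Pool.Agent.Lib.MP_640417_ag.Glob Pool.Agent.Lib.MP_640417_ag.Gn
  Pool.Agent.Lib.MP_640417_ag.Gen4

variable (l : ℕ) [Fact l.Prime] {Γ : Type} [Group Γ]
    [TopologicalSpace Γ] [IsTopologicalGroup Γ] [CompactSpace Γ] {V : Type} [AddCommGroup V]
    [Module ℚ_[l] V] [FiniteDimensional ℚ_[l] V] (ρ : H1Rep Γ ℚ_[l] V)

/-- Almost all elements of an open subgroup have no relations between determinants. -/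
theorem ae_free (hsemi : Semisimple ρ) (h3 : NoTypeIII ρ) (hW : ¬ WeilRel ρ)
    [MeasurableSpace Γ] [BorelSpace Γ] (ν : Measure Γ) [ν.IsHaarMeasure] :
    ∃ U : OpenSubgroup Γ, ∀ᵐ γ ∂ν, γ ∈ U → DetFree ρ γ := by
  obtain ⟨U, hU⟩ := exists_U0 ρ
  have := topGroup_U U
  have := compact_U U
  have hoe : Topology.IsOpenEmbedding (Subtype.val : U → Γ) := U.isOpen.isOpenEmbedding_subtypeVal
  have hν' : (ν.comap (Subtype.val : U → Γ)).IsHaarMeasure :=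
    Measure.IsHaarMeasure.comap (f := U.toSubgroup.subtype) (mH := inferInstance) ν hoe
  have hfull : ∀ c, CommF (res ρ U) c → ∀ γ, c * (res ρ U).T γ = (res ρ U).T γ * c :=
    fun c hc γ' => (hU γ'.1).mp γ'.2 c ((commF_res ρ U c).mp hc)
  obtain ⟨N, st, r, ε, u, v, hS, h⟩ := exists_data (res ρ U) (semi_res ρ U hsemi)
    (noTypeIII_res ρ U h3) hfull
  have h1 := ae_detFree (ν.comap (Subtype.val : U → Γ)) (res ρ U) hfull hS
    (fun h => hW ((weilRel_res ρ U).mp h))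
  refine ⟨U, ?_⟩
  rw [ae_iff] at h1 ⊢
  rw [hoe.measurableEmbedding.comap_apply] at h1
  refine measure_mono_null ?_ h1
  intro γ hγ
  by_contra h2
  refine hγ fun hγU => ?_
  by_contra h4
  exact h2 ⟨⟨γ, hγU⟩, fun h5 => h4 ((detFree_res ρ U ⟨γ, hγU⟩).mp h5), rfl⟩

/-- **Almost all elements near the identity are good and have no relations.** -/
theorem ae_good_free (hsemi : Semisimple ρ) (h3 : NoTypeIII ρ) (h4 : DivCond ρ 4 2)
    (hW : ¬ WeilRel ρ) [MeasurableSpace Γ] [BorelSpace Γ] (ν : Measure Γ) [ν.IsHaarMeasure] :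
    ∃ U : OpenSubgroup Γ, ∀ᵐ γ ∂ν, γ ∈ U → Good ρ γ ∧ DetFree ρ γ := by
  obtain ⟨U, O, -, -, hν, hg⟩ := ae_good l ρ hsemi (exists_inv ρ hsemi h3)
    (lef_of_div l ρ h4) ν
  obtain ⟨U', hU'⟩ := ae_free l ρ hsemi h3 hW ν
  refine ⟨U ⊓ U', ?_⟩
  have h1 : ∀ᵐ γ ∂ν, γ ∈ U → γ ∈ O := by
    rw [ae_iff]
    refine measure_mono_null ?_ hν
    intro γ hγ
    by_contra h2
    exact hγ fun h5 => by
      by_contra h6
      exact h2 ⟨h5, h6⟩
  filter_upwards [h1, hU'] with γ h5 h6 h7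
  exact ⟨hg γ (h5 h7.1), h6 h7.2⟩

/-- **The local-global principle** for abelian varieties without factors of type III. -/
theorem local_global_ae (hsemi : Semisimple ρ) (h3 : NoTypeIII ρ)
    [MeasurableSpace Γ] [BorelSpace Γ] (ν : Measure Γ) [ν.IsHaarMeasure] :
    List.TFAE [NoExotic ρ, DivGen ρ 4 2 ∧ ¬ WeilRel ρ,
      (∀ D : Set Γ, Dense D → ∃ γ ∈ D, Good ρ γ) ∧ ¬ WeilRel ρ,
      ∃ U : OpenSubgroup Γ, ∀ᵐ γ ∂ν, γ ∈ U → Good ρ γ ∧ DetFree ρ γ,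
      ∃ γ, Good ρ γ ∧ DetFree ρ γ, ∃ γ, Detects ρ γ ∧ DetFree ρ γ] := by
  have h0 := local_global' l ρ hsemi h3
  tfae_have 1 → 2 := fun h => (h0.out 0 1 rfl rfl).mp h
  tfae_have 2 → 3 := fun h => (h0.out 1 2 rfl rfl).mp h
  tfae_have 3 → 5 := fun h => (h0.out 2 3 rfl rfl).mp h
  tfae_have 5 → 6 := fun h => (h0.out 3 4 rfl rfl).mp h
  tfae_have 6 → 1 := fun h => (h0.out 4 0 rfl rfl).mp h
  tfae_have 2 → 4 := fun h => ae_good_free l ρ hsemi h3 ((divGen_iff ρ 4 2).mp h.1) h.2 ν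
  tfae_have 4 → 5 := by
    rintro ⟨U, hU⟩
    by_contra hcon
    rw [ae_iff] at hU
    refine (U.isOpen.measure_pos ν ⟨1, U.one_mem⟩).ne' (measure_mono_null ?_ hU)
    intro γ hγ h1
    exact hcon ⟨γ, h1 hγ⟩
  tfae_finish

end Pool.Agent.Lib.MP_640417_ag.Dfr
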