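import Pool.Agent.Lib.MP_640417_ag.Dfr.FullK
import Pool.Agent.Lib.MP_640417_ag.Ty.OpenK

/-!
# MP_640417_ag, Dfr, module Baire (250 lines): elements without relations

`K = AlgebraicClosure F`, `C = comK ρ`, `TK γ = (ρ.T γ).baseChange K`. Elements of `C` commute with all `TK γ` (`comK_full` in
`Dfr/FullK.lean`).
1. The idempotents `p ∈ C` which commute with all of `C` form a finite set: `p * ε j = ε j * p * ε j = t j • ε j` (`hS.one`), `t j` is `0` or `1`
   (`t j ^ 2 = t j`, `ε j ≠ 0`), `p = ∑ p * ε j = ∑ t j • ε j`. So the set of the triples `(k, p, s)`, `p : Fin k → {central idempotents}`,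
   `s : Fin k → ℤ`, is countable.
2. For a `CenRel` `(p, s)` let `R = {γ | detProd p s (TK γ) = 1}`. `R` is closed: `det (p j * TK γ + (1 - p j))` is a polynomial (coefficients in
   `K`) in the matrix entries of `ρ.T γ` in a basis `b` of `V` over `F`, nonzero (it is the determinant of an invertible
   endomorphism: `p j` commutes with `TK γ` by `hfull`, so its inverse is `p j * TK γ⁻¹ + (1 - p j)`). Multiply the equation with the
   powers for negative `s j`: `R` is the zero set of a polynomial; `open_ne` (`Ty/OpenK.lean`) and the continuity of the entries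
   (`ρ.continuous_coeff`). (See `closed_W` in `Ty/MainW.lean` for the same technique.)
3. If `∑ s j • p j ≠ 0`, `R` has empty interior: for `γ, δ` `detProd p s (TK (γ δ)) = detProd p s (TK γ) * detProd p s (TK δ)` (`p j` commutes
   with `TK γ`: `(p A + (1 - p)) (p B + (1 - p)) = p A B + (1 - p)`). So `R` is a subgroup of `Γ`; if it contains a nonempty open set
   it is open (`Subgroup.isOpen_of_mem_nhds`), contradiction to `¬ WeilRel ρ`.
4. `Γ` is a compact topological group, so a Baire space. The intersection of the countably many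
   open dense sets `Rᶜ` is dense (`dense_iInter_of_isOpen` / `dense_sInter_of_isOpen`), so it meets `O`.
-/

set_option autoImplicit false

namespace Pool.Agent.Lib.MP_640417_ag.Dfr

open Module TensorProduct Pool.Agent.Lib.MP_640417_ag Pool.Agent.Lib.MP_640417_ag.Frob
  Pool.Agent.Lib.MP_640417_ag.Four Pool.Agent.Lib.MP_640417_ag.Ty
  Pool.Agent.Lib.MP_640417_ag.Lef

theorem bai_mul {K V : Type} [Field K] [AddCommGroup V] [Module K V]
    {p g h : Module.End K V} (hp : p * p = p) (hg : p * g = g * p) :
    LinearMap.det (p * (g * h) + (1 - p)) =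
      LinearMap.det (p * g + (1 - p)) * LinearMap.det (p * h + (1 - p)) := by
  rw [← map_mul]
  congr 1
  have h1 : p * g * (p * h) = p * (g * h) := by
    calc p * g * (p * h) = (g * p) * (p * h) := by rw [hg]
      _ = g * (p * p) * h := by simp only [mul_assoc]
      _ = p * (g * h) := by rw [hp, ← hg, mul_assoc]
  have h2 : p * g * (1 - p) = 0 := by
    rw [hg, mul_assoc, mul_sub, mul_one, hp, sub_self, mul_zero]
  have h3 : (1 - p) * (p * h) = 0 := by
    rw [← mul_assoc, sub_mul, one_mul, hp, sub_self, zero_mul]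
  have h4 : (1 - p) * (1 - p) = 1 - p := by
    rw [mul_sub, mul_one, sub_mul, one_mul, hp, sub_self, sub_zero]
  rw [add_mul, mul_add, mul_add, h1, h2, h3, h4, add_zero, zero_add]

theorem bai_one {K V : Type} [Field K] [AddCommGroup V] [Module K V]
    (p : Module.End K V) : LinearMap.det (p * 1 + (1 - p)) = 1 := by
  rw [mul_one, add_sub_cancel, map_one]

theorem bai_mat {K V : Type} [Field K] [AddCommGroup V] [Module K V] {I : Type}
    [Fintype I] [DecidableEq I] (b : Basis I K V) (p A : Module.End K V) :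
    LinearMap.toMatrix b b (p * A + (1 - p)) =
      LinearMap.toMatrix b b p * LinearMap.toMatrix b b A + (1 - LinearMap.toMatrix b b p) := by
  rw [map_add, map_sub, LinearMap.toMatrix_mul, LinearMap.toMatrix_one]

theorem bai_t {K V : Type} [Field K] [AddCommGroup V] [Module K V] {t : K}
    {x : Module.End K V}
    (hx : x ≠ 0) (h : (t * t) • x = t • x) : t = 0 ∨ t = 1 := by
  have h4 : (t * t - t) • x = 0 := by rw [sub_smul, h, sub_self]
  have h6 : t * (t - 1) = 0 := by
    rcases smul_eq_zero.mp h4 with h | h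
    · rw [mul_sub, mul_one]
      exact h
    · exact absurd h hx
  rcases mul_eq_zero.mp h6 with h | h
  · exact Or.inl h
  · exact Or.inr (sub_eq_zero.mp h)

section poly

variable {F : Type} [NontriviallyNormedField F] {K : Type} [Field K] [Algebra F K] {V : Type}
  [AddCommGroup V] [Module F V]

theorem bai_poly {I : Type} [Fintype I] [DecidableEq I] (b : Basis I F V)
    (p : Module.End K (K ⊗[F] V)) :
    ∃ P : MvPolynomial (I × I) K, ∀ A : Module.End F V,
      LinearMap.det (p * A.baseChange K + (1 - p)) =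
        MvPolynomial.eval (fun i : I × I => algebraMap F K (LinearMap.toMatrix b b A i.1 i.2))
          P := by
  set bK := Algebra.TensorProduct.basis K b with hbK
  set Pm := LinearMap.toMatrix bK bK p with hPm
  refine ⟨(Pm.map (MvPolynomial.C (σ := I × I)) * Matrix.of (fun i j => MvPolynomial.X (i, j)) +
    (1 - Pm.map (MvPolynomial.C (σ := I × I)))).det, fun A => ?_⟩
  rw [RingHom.map_det, ← LinearMap.det_toMatrix bK]
  congr 1
  rw [bai_mat, ← hPm, hbK, LinearMap.toMatrix_baseChange, map_add, map_sub, map_mul, map_one]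
  have h1 : (RingHom.mapMatrix (MvPolynomial.eval (fun i : I × I =>
      algebraMap F K (LinearMap.toMatrix b b A i.1 i.2))))
      (Pm.map (MvPolynomial.C (σ := I × I))) = Pm := by
    ext i j
    simp
  have h2 : (RingHom.mapMatrix (MvPolynomial.eval (fun i : I × I =>
      algebraMap F K (LinearMap.toMatrix b b A i.1 i.2))))
      (Matrix.of (fun i j => (MvPolynomial.X (i, j) : MvPolynomial (I × I) K))) =
      (LinearMap.toMatrix b b A).map (algebraMap F K) := by
    ext i j
    simp
  rw [h1, h2]

theorem bai_open [FiniteDimensional F V] {Γ : Type} [Group Γ] [TopologicalSpace Γ]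
    (ρ : H1Rep Γ F V) {k : ℕ} (p : Fin k → Module.End K (K ⊗[F] V)) (s : Fin k → ℤ)
    (h0 : ∀ γ j, LinearMap.det (p j * (ρ.T γ).baseChange K + (1 - p j)) ≠ 0) :
    IsOpen {γ | detProd p s ((ρ.T γ).baseChange K) ≠ 1} := by
  classical
  let b := Module.finBasis F V
  choose P hP using fun j => bai_poly (K := K) b (p j)
  have h1 : {γ | detProd p s ((ρ.T γ).baseChange K) ≠ 1} =
      (fun γ : Γ => fun i : Fin (finrank F V) × Fin (finrank F V) =>
        LinearMap.toMatrix b b (ρ.T γ) i.1 i.2) ⁻¹'
      {y : Fin (finrank F V) × Fin (finrank F V) → F |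
        MvPolynomial.eval (fun i => algebraMap F K (y i))
          (∏ j, P j ^ (s j).toNat - ∏ j, P j ^ (-s j).toNat) ≠ 0} := by
    ext γ
    rw [Set.mem_preimage, Set.mem_ofPred_eq, Set.mem_ofPred_eq, map_sub, map_prod, map_prod]
    simp only [map_pow, ← hP]
    rw [sub_ne_zero, not_iff_not]
    have h2 : detProd p s ((ρ.T γ).baseChange K) =
        (∏ j, LinearMap.det (p j * (ρ.T γ).baseChange K + (1 - p j)) ^ (s j).toNat) /
          ∏ j, LinearMap.det (p j * (ρ.T γ).baseChange K + (1 - p j)) ^ (-s j).toNat := by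
      rw [detProd, ← Finset.prod_div_distrib]
      refine Finset.prod_congr rfl fun j _ => ?_
      rw [← zpow_natCast, ← zpow_natCast, ← zpow_sub₀ (h0 γ j), Int.toNat_sub_toNat_neg]
    rw [h2, div_eq_one_iff_eq]
    exact Finset.prod_ne_zero_iff.mpr fun j _ => pow_ne_zero _ (h0 γ j)
  rw [h1]
  refine (open_ne _).preimage (continuous_pi fun i => ?_)
  have h2 : (fun γ : Γ => LinearMap.toMatrix b b (ρ.T γ) i.1 i.2) =
      fun γ : Γ => b.coord i.1 (ρ.T γ (b i.2)) := by
    funext γ
    rw [LinearMap.toMatrix_apply]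
    rfl
  rw [h2]
  exact ρ.continuous_coeff _ _

end poly

theorem exists_detFree {F : Type} [NontriviallyNormedField F] [CharZero F] {V : Type}
    [AddCommGroup V] [Module F V] [FiniteDimensional F V] {Γ : Type} [Group Γ]
    [TopologicalSpace Γ] [IsTopologicalGroup Γ] [CompactSpace Γ] (ρ : H1Rep Γ F V)
    (hfull : ∀ c, CommF ρ c → ∀ γ, c * ρ.T γ = ρ.T γ * c) {N : ℕ} {st : Fin N → Fin N}
    {ε : Fin N → Module.End (AlgebraicClosure F) (AlgebraicClosure F ⊗[F] V)}
    (hS : Sys (ρ.form.baseChange (AlgebraicClosure F)) (comK ρ) N st ε)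
    (hW : ¬ WeilRel ρ) (O : Set Γ) (hO : IsOpen O) (hne : O.Nonempty) :
    ∃ γ ∈ O, DetFree ρ γ := by
  classical
  -- the determinants
  have hTm : ∀ γ δ, (ρ.T (γ * δ)).baseChange (AlgebraicClosure F) =
      (ρ.T γ).baseChange (AlgebraicClosure F) * (ρ.T δ).baseChange (AlgebraicClosure F) := by
    intro γ δ
    rw [map_mul, LinearMap.baseChange_mul]
  have hT1 : (ρ.T 1).baseChange (AlgebraicClosure F) = 1 := by
    rw [map_one]
    exact LinearMap.baseChange_id
  have hdm : ∀ p ∈ comK ρ, p * p = p → ∀ γ δ : Γ,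
      LinearMap.det (p * (ρ.T (γ * δ)).baseChange (AlgebraicClosure F) + (1 - p)) =
      LinearMap.det (p * (ρ.T γ).baseChange (AlgebraicClosure F) + (1 - p)) *
      LinearMap.det (p * (ρ.T δ).baseChange (AlgebraicClosure F) + (1 - p)) := by
    intro p hp hpp γ δ
    rw [hTm, bai_mul hpp (comK_full ρ hfull hp γ)]
  have hd1 : ∀ p : Module.End (AlgebraicClosure F) (AlgebraicClosure F ⊗[F] V),
      LinearMap.det (p * (ρ.T 1).baseChange (AlgebraicClosure F) + (1 - p)) = 1 := by
    intro p
    rw [hT1]
    exact bai_one p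
  have hd0 : ∀ p ∈ comK ρ, p * p = p → ∀ γ : Γ,
      LinearMap.det (p * (ρ.T γ).baseChange (AlgebraicClosure F) + (1 - p)) ≠ 0 := by
    intro p hp hpp γ h
    have h1 := hdm p hp hpp γ γ⁻¹
    rw [mul_inv_cancel, hd1, h, zero_mul] at h1
    exact one_ne_zero h1
  -- the open dense sets
  let Pf : ∀ k : ℕ, (Fin k → Finset (Fin N)) → Fin k →
    Module.End (AlgebraicClosure F) (AlgebraicClosure F ⊗[F] V) :=
    fun k S j => ∑ i ∈ S j, ε i
  let good : (Σ k : ℕ, (Fin k → Finset (Fin N)) × (Fin k → ℤ)) → Prop := fun q =>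
    CenRel (ρ.form.baseChange (AlgebraicClosure F)) (comK ρ) (Pf q.1 q.2.1) q.2.2 ∧
      ∑ j, (q.2.2 j : AlgebraicClosure F) • Pf q.1 q.2.1 j ≠ 0
  let D : (Σ k : ℕ, (Fin k → Finset (Fin N)) × (Fin k → ℤ)) → Set Γ := fun q =>
    {γ | good q → detProd (Pf q.1 q.2.1) q.2.2
      ((ρ.T γ).baseChange (AlgebraicClosure F)) ≠ 1}
  have hDo : ∀ q, IsOpen (D q) := by
    intro q
    by_cases hq : good q
    · have h1 : D q = {γ | detProd (Pf q.1 q.2.1) q.2.2
          ((ρ.T γ).baseChange (AlgebraicClosure F)) ≠ 1} := by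
        ext γ
        exact ⟨fun h => h hq, fun h _ => h⟩
      rw [h1]
      exact bai_open ρ _ _ fun γ j => hd0 _ (hq.1.mem j) (hq.1.idem j) γ
    · have h1 : D q = Set.univ := by
        ext γ
        exact ⟨fun _ => trivial, fun _ h => absurd h hq⟩
      rw [h1]
      exact isOpen_univ
  have hDd : ∀ q, Dense (D q) := by
    intro q
    by_cases hq : good q
    · have h1 : D q = {γ | detProd (Pf q.1 q.2.1) q.2.2
          ((ρ.T γ).baseChange (AlgebraicClosure F)) ≠ 1} := by
        ext γ
        exact ⟨fun h => h hq, fun h _ => h⟩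
      rw [h1, dense_iff_inter_open]
      intro U hU ⟨γ₀, hγ₀⟩
      by_contra hcon
      -- the subgroup
      let R : Γ →* AlgebraicClosure F :=
        { toFun := fun γ => detProd (Pf q.1 q.2.1) q.2.2
            ((ρ.T γ).baseChange (AlgebraicClosure F))
          map_one' := by
            rw [detProd]
            refine Finset.prod_eq_one fun j _ => ?_
            rw [hd1, one_zpow]
          map_mul' := by
            intro γ δ
            rw [detProd, detProd, detProd, ← Finset.prod_mul_distrib]
            refine Finset.prod_congr rfl fun j _ => ?_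
            rw [hdm _ (hq.1.mem j) (hq.1.idem j), mul_zpow] }
      have hUR : U ⊆ (R.ker : Set Γ) := by
        intro γ hγ
        by_contra h
        exact hcon ⟨γ, hγ, fun h2 => h (MonoidHom.mem_ker.mpr h2)⟩
      have hopen : IsOpen (R.ker : Set Γ) :=
        Subgroup.isOpen_of_mem_nhds _ (Filter.mem_of_superset (hU.mem_nhds hγ₀) hUR)
      exact hW ⟨q.1, Pf q.1 q.2.1, q.2.2, hq.1, hq.2, ⟨R.ker, hopen⟩, fun γ hγ =>
        MonoidHom.mem_ker.mp hγ⟩
    · have h1 : D q = Set.univ := by
        ext γ
        exact ⟨fun _ => trivial, fun _ h => absurd h hq⟩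
      rw [h1]
      exact dense_univ
  obtain ⟨γ, hγO, hγD⟩ := (dense_iInter_of_isOpen hDo hDd).inter_open_nonempty O hO hne
  refine ⟨γ, hγO, ?_⟩
  intro k p s hcr hdet
  by_contra hsum
  -- the idempotents are sums of the `ε`
  have hp : ∀ j, ∃ S : Finset (Fin N), p j = ∑ i ∈ S, ε i := by
    intro j
    have h1 : ∀ i, ε i * p j = p j * ε i := fun i => hcr.cen j _ (hS.mem i)
    have h2 : ∀ i, p j * ε i = 0 ∨ p j * ε i = ε i := by
      intro i
      obtain ⟨t, ht⟩ := hS.one i _ (hcr.mem j)
      have h3 : p j * ε i = t • ε i := by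
        rw [← ht, h1 i, mul_assoc, hS.idem]
      have h5 : p j * (p j * ε i) = p j * ε i := by rw [← mul_assoc, hcr.idem]
      rw [h3, mul_smul_comm, h3, smul_smul] at h5
      rcases bai_t (hS.ne i) h5 with h | h
      · left
        rw [h3, h, zero_smul]
      · right
        rw [h3, h, one_smul]
    refine ⟨Finset.univ.filter fun i => p j * ε i = ε i, ?_⟩
    rw [Finset.sum_filter]
    calc p j = p j * ∑ i, ε i := by rw [hS.sum, mul_one]
      _ = ∑ i, p j * ε i := Finset.mul_sum _ _ _
      _ = _ := by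
        refine Finset.sum_congr rfl fun i _ => ?_
        by_cases h : p j * ε i = ε i
        · rw [if_pos h, h]
        · rw [if_neg h]
          exact (h2 i).resolve_right h
  choose S hSp using hp
  have hpS : p = Pf k S := funext fun j => hSp j
  have h1 := Set.mem_iInter.mp hγD ⟨k, S, s⟩
  have h2 : good ⟨k, S, s⟩ := by
    refine ⟨?_, ?_⟩
    · change CenRel _ _ (Pf k S) s
      rw [← hpS]
      exact hcr
    · change ∑ j, (s j : AlgebraicClosure F) • Pf k S j ≠ 0
      rw [← hpS]
      exact hsum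
  have h3 : detProd (Pf k S) s ((ρ.T γ).baseChange (AlgebraicClosure F)) ≠ 1 := h1 h2
  rw [← hpS] at h3
  exact h3 hdet

end Pool.Agent.Lib.MP_640417_ag.Dfr
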