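import Pool.Agent.Lib.MP_640417_ag.Four.Descent
import Pool.Agent.Lib.MP_640417_ag.Four.Span
import Pool.Agent.Lib.MP_640417_ag.Four.Der

/-!
# MP_640417_ag, Dfr, module Base (150 lines): Tate classes over an extension field

`tate_span`: in `Four/Descent.lean` (private lemmas, copy what is needed) there are the algebra homomorphism
`al = Descent_al : ExteriorAlgebra F' (Fin n → F' ⊗ V) → F' ⊗ ExteriorAlgebra F (Fin n → V)` with `al (be x) = 1 ⊗ x`, and, for a Tate class `z`
over `F'` and `φ : F' →ₗ[F] F`, the Tate class `Descent_pr φ (al z)` over `F` (`Descent_tate'`). Let `b` be a basis of `F'` over `F`. By `sum_pr`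
(`Four/Span.lean`, for `E = ExteriorAlgebra F (Fin n → V)` instead of `V`; `pr` is the same as `Descent_pr`)
`al z = ∑_t b t ⊗ x_t` (finite) with Tate classes `x_t`. `al` is injective: its left inverse is the algebra homomorphism
`F' ⊗ ExteriorAlgebra F (Fin n → V) → ExteriorAlgebra F' (Fin n → F' ⊗ V)`, `c ⊗ x ↦ c • be x` (`Algebra.TensorProduct.lift`); check on the
generators `ι w` (`ExteriorAlgebra.hom_ext`). So `z = ∑_t b t • be x_t`.
-/

set_option autoImplicit false

namespace Pool.Agent.Lib.MP_640417_ag.Dfr

open Module TensorProduct Pool.Agent.Lib.MP_640417_ag Pool.Agent.Lib.MP_640417_ag.Frob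
  Pool.Agent.Lib.MP_640417_ag.Four

section aux

variable {F F' : Type} [Field F] [Field F'] [Algebra F F'] {V : Type} [AddCommGroup V]
  [Module F V]

/-- `1 ⊗ ι` on the base change. -/
private noncomputable def Descent_io (W : Type) [AddCommGroup W] [Module F W] :
    F' ⊗[F] W →ₗ[F'] F' ⊗[F] ExteriorAlgebra F W :=
  (ExteriorAlgebra.ι F : W →ₗ[F] ExteriorAlgebra F W).baseChange F'

private lemma Descent_anti (W : Type) [AddCommGroup W] [Module F W] (s t : F' ⊗[F] W) :
    Descent_io (F' := F') W s * Descent_io (F' := F') W t
      + Descent_io (F' := F') W t * Descent_io (F' := F') W s = 0 := by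
  induction s using TensorProduct.induction_on with
  | zero => simp
  | add x y hx hy =>
    rw [map_add, add_mul, mul_add]
    calc _ = (Descent_io (F' := F') W x * Descent_io (F' := F') W t
          + Descent_io (F' := F') W t * Descent_io (F' := F') W x)
        + (Descent_io (F' := F') W y * Descent_io (F' := F') W t
          + Descent_io (F' := F') W t * Descent_io (F' := F') W y) := by abel
      _ = 0 := by rw [hx, hy, add_zero]
  | tmul a v =>
    induction t using TensorProduct.induction_on with
    | zero => simp
    | add x y hx hy =>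
      rw [map_add, add_mul, mul_add]
      calc _ = (Descent_io (F' := F') W (a ⊗ₜ[F] v) * Descent_io (F' := F') W x
            + Descent_io (F' := F') W x * Descent_io (F' := F') W (a ⊗ₜ[F] v))
          + (Descent_io (F' := F') W (a ⊗ₜ[F] v) * Descent_io (F' := F') W y
            + Descent_io (F' := F') W y * Descent_io (F' := F') W (a ⊗ₜ[F] v)) := by abel
        _ = 0 := by rw [hx, hy, add_zero]
    | tmul b w =>
      simp only [Descent_io, LinearMap.baseChange_tmul, Algebra.TensorProduct.tmul_mul_tmul]
      rw [mul_comm b a, ← TensorProduct.tmul_add, ExteriorAlgebra.ι_add_mul_swap,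
        TensorProduct.tmul_zero]

private lemma Descent_sq (W : Type) [AddCommGroup W] [Module F W] (t : F' ⊗[F] W) :
    Descent_io (F' := F') W t * Descent_io (F' := F') W t = 0 := by
  induction t using TensorProduct.induction_on with
  | zero => simp
  | add x y hx hy =>
    rw [map_add, add_mul, mul_add, mul_add, hx, hy, zero_add, add_zero, Descent_anti]
  | tmul a v =>
    simp only [Descent_io, LinearMap.baseChange_tmul, Algebra.TensorProduct.tmul_mul_tmul]
    rw [ExteriorAlgebra.ι_sq_zero, TensorProduct.tmul_zero]

/-- The coordinates of the base change. -/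
private noncomputable def Descent_co (n : ℕ) :
    (Fin n → F' ⊗[F] V) →ₗ[F'] F' ⊗[F] (Fin n → V) :=
  ∑ a : Fin n, ((LinearMap.single F (fun _ : Fin n => V) a).baseChange F') ∘ₗ
    (LinearMap.proj a : (Fin n → F' ⊗[F] V) →ₗ[F'] F' ⊗[F] V)

private lemma Descent_co_apply (n : ℕ) (w : Fin n → F' ⊗[F] V) :
    Descent_co n w
      = ∑ a : Fin n, (LinearMap.single F (fun _ : Fin n => V) a).baseChange F' (w a) := by
  simp [Descent_co]

/-- The comparison of the exterior algebras. -/
private noncomputable def Descent_al (n : ℕ) :
    ExteriorAlgebra F' (Fin n → F' ⊗[F] V) →ₐ[F'] F' ⊗[F] ExteriorAlgebra F (Fin n → V) :=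
  ExteriorAlgebra.lift F' ⟨Descent_io (Fin n → V) ∘ₗ Descent_co n, fun w => by
    simp only [LinearMap.comp_apply]
    exact Descent_sq _ _⟩

private lemma Descent_al_ι (n : ℕ) (w : Fin n → F' ⊗[F] V) :
    Descent_al (F := F) (V := V) n (ExteriorAlgebra.ι F' w)
      = Descent_io (Fin n → V) (Descent_co n w) := by
  simp [Descent_al]

private lemma Descent_al_map (n : ℕ) (T : V →ₗ[F] V)
    (z : ExteriorAlgebra F' (Fin n → F' ⊗[F] V)) :
    Descent_al n (ExteriorAlgebra.map ((T.baseChange F').compLeft (Fin n)) z)
      = Algebra.TensorProduct.map (AlgHom.id F' F')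
        (ExteriorAlgebra.map (T.compLeft (Fin n))) (Descent_al n z) := by
  have h : (Descent_al (F := F) (V := V) n).comp
      (ExteriorAlgebra.map ((T.baseChange F').compLeft (Fin n)))
      = (Algebra.TensorProduct.map (AlgHom.id F' F')
        (ExteriorAlgebra.map (T.compLeft (Fin n)))).comp (Descent_al n) := by
    apply ExteriorAlgebra.hom_ext
    refine LinearMap.ext fun w => ?_
    simp only [AlgHom.toLinearMap_apply, LinearMap.comp_apply, AlgHom.comp_apply,
      ExteriorAlgebra.map_apply_ι, Descent_al_ι, Descent_co_apply, map_sum]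
    refine Finset.sum_congr rfl fun a _ => ?_
    simp only [LinearMap.compLeft_apply, Function.comp_apply]
    generalize w a = t
    induction t using TensorProduct.induction_on with
    | zero => simp
    | add x y hx hy => simp only [map_add, hx, hy]
    | tmul c v =>
      simp only [Descent_io, LinearMap.baseChange_tmul, Algebra.TensorProduct.map_tmul,
        AlgHom.id_apply, ExteriorAlgebra.map_apply_ι]
      have e : (T.compLeft (Fin n)) (LinearMap.single F (fun _ : Fin n => V) a v)
          = LinearMap.single F (fun _ : Fin n => V) a (T v) := by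
        funext b
        simp only [LinearMap.compLeft_apply, Function.comp_apply, LinearMap.coe_single]
        by_cases hb : b = a
        · subst hb; simp
        · simp [Pi.single_eq_of_ne hb]
      rw [e]
  exact DFunLike.congr_fun h z

private lemma Descent_p0 (R M : Type) [CommRing R] [AddCommGroup M] [Module R M] :
    (⋀[R]^0 M) = 1 := pow_zero _

private lemma Descent_ps (R M : Type) [CommRing R] [AddCommGroup M] [Module R M] (i : ℕ) :
    (⋀[R]^(i.succ) M) = LinearMap.range (ExteriorAlgebra.ι R : M →ₗ[R] _) * (⋀[R]^i M) :=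
  pow_succ' _ _

private lemma Descent_pr_map {E : Type} [Ring E] [Algebra F E] (f : E →ₐ[F] E)
    (φ : F' →ₗ[F] F) (t : F' ⊗[F] E) :
    pr E φ (Algebra.TensorProduct.map (AlgHom.id F' F') f t) = f (pr E φ t) := by
  induction t using TensorProduct.induction_on with
  | zero => simp
  | add x y hx hy => rw [map_add, map_add, hx, hy, map_add, map_add]
  | tmul a v =>
    rw [Algebra.TensorProduct.map_tmul, pr_tmul, pr_tmul, map_smul]
    rfl

/-- The image of the exterior power. -/
private lemma Descent_al_pow (n m : ℕ) {z : ExteriorAlgebra F' (Fin n → F' ⊗[F] V)}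
    (hz : z ∈ ⋀[F']^m (Fin n → F' ⊗[F] V)) :
    Descent_al n z ∈ (⋀[F]^m (Fin n → V)).baseChange F' := by
  induction hz using Submodule.pow_induction_on_left' with
  | algebraMap r =>
    rw [AlgHom.commutes, Algebra.TensorProduct.algebraMap_apply, Algebra.algebraMap_self_apply,
      Descent_p0]
    exact Submodule.tmul_mem_baseChange_of_mem _ (Submodule.one_le.1 le_rfl)
  | add x y i hx hy h₁ h₂ =>
    rw [map_add]
    exact Submodule.add_mem _ h₁ h₂
  | mem_mul v hv i x hx h =>
    obtain ⟨w, rfl⟩ := hv
    rw [map_mul, Descent_al_ι]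
    generalize Descent_co n w = s
    generalize Descent_al n x = t at h
    have hs : Descent_io (F' := F') (Fin n → V) s
        ∈ (LinearMap.range (ExteriorAlgebra.ι F : (Fin n → V) →ₗ[F] _)).baseChange F' := by
      induction s using TensorProduct.induction_on with
      | zero => simp
      | add x y hx hy => rw [map_add]; exact Submodule.add_mem _ hx hy
      | tmul c v =>
        rw [Descent_io, LinearMap.baseChange_tmul]
        exact Submodule.tmul_mem_baseChange_of_mem _ (LinearMap.mem_range_self _ _)
    generalize Descent_io (F' := F') (Fin n → V) s = u at hs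
    rw [Submodule.baseChange_eq_span] at hs
    induction hs using Submodule.span_induction with
    | zero => simp
    | add x y _ _ hx hy => rw [add_mul]; exact Submodule.add_mem _ hx hy
    | smul a x _ hx => rw [smul_mul_assoc]; exact Submodule.smul_mem _ _ hx
    | mem u hu =>
      obtain ⟨e, he, rfl⟩ := hu
      rw [Submodule.baseChange_eq_span] at h
      induction h using Submodule.span_induction with
      | zero => simp
      | add x y _ _ hx hy => rw [mul_add]; exact Submodule.add_mem _ hx hy
      | smul a x _ hx => rw [mul_smul_comm]; exact Submodule.smul_mem _ _ hx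
      | mem t ht =>
        obtain ⟨f, hf, rfl⟩ := ht
        simp only [TensorProduct.mk_apply, Algebra.TensorProduct.tmul_mul_tmul, mul_one]
        refine Submodule.tmul_mem_baseChange_of_mem _ ?_
        rw [Descent_ps]
        exact Submodule.mul_mem_mul he hf

/-- The comparison in the other direction. -/
private noncomputable def Base_la (n : ℕ) :
    F' ⊗[F] ExteriorAlgebra F (Fin n → V) →ₐ[F'] ExteriorAlgebra F' (Fin n → F' ⊗[F] V) :=
  Algebra.TensorProduct.lift (Algebra.ofId F' _) (be F' n) fun a x => Algebra.commutes a _

private lemma Base_la_tmul (n : ℕ) (a : F') (x : ExteriorAlgebra F (Fin n → V)) :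
    Base_la n (a ⊗ₜ[F] x) = a • be F' n x := by
  rw [Base_la, Algebra.TensorProduct.lift_tmul, Algebra.ofId_apply, ← Algebra.smul_def]

private lemma Base_la_al (n : ℕ) (z : ExteriorAlgebra F' (Fin n → F' ⊗[F] V)) :
    Base_la n (Descent_al n z) = z := by
  have h : (Base_la (F := F) (V := V) n).comp (Descent_al n) = AlgHom.id F' _ := by
    apply ExteriorAlgebra.hom_ext
    refine LinearMap.ext fun w => ?_
    simp only [AlgHom.toLinearMap_apply, LinearMap.comp_apply, AlgHom.comp_apply,
      Descent_al_ι, Descent_co_apply, map_sum, AlgHom.id_apply]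
    have key : ∀ (a : Fin n) (t : F' ⊗[F] V), Base_la n (Descent_io (Fin n → V)
        ((LinearMap.single F (fun _ : Fin n => V) a).baseChange F' t)) =
        ExteriorAlgebra.ι F' (Pi.single a t) := by
      intro a t
      induction t using TensorProduct.induction_on with
      | zero => simp
      | add x y hx hy => simp only [map_add, hx, hy, Pi.single_add]
      | tmul c v =>
        rw [LinearMap.baseChange_tmul, Descent_io, LinearMap.baseChange_tmul, Base_la_tmul, be_ι,
          ← map_smul]
        congr 1
        funext b
        rw [Pi.smul_apply, LinearMap.coe_single]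
        by_cases hb : b = a
        · subst hb
          rw [Pi.single_eq_same, Pi.single_eq_same, TensorProduct.smul_tmul', smul_eq_mul, mul_one]
        · rw [Pi.single_eq_of_ne hb, Pi.single_eq_of_ne hb, TensorProduct.tmul_zero, smul_zero]
    rw [Finset.sum_congr rfl fun a _ => key a (w a), ← map_sum]
    congr 1
    exact Finset.univ_sum_single w
  exact DFunLike.congr_fun h z

end aux

section tate

variable {Γ : Type} [Group Γ] [TopologicalSpace Γ] {F F' : Type} [Field F] [Field F']
  [Algebra F F'] {V : Type} [AddCommGroup V] [Module F V]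

private lemma Descent_tate' (T : Γ → V →ₗ[F] V) (χ : Γ →* Fˣ) (n i : ℕ)
    {z : ExteriorAlgebra F' (Fin n → F' ⊗[F] V)}
    (hz : TateClass (fun γ => ((T γ).baseChange F').compLeft (Fin n))
        ((Units.map (algebraMap F F' : F →* F')).comp χ) i z) (φ : F' →ₗ[F] F) :
    TateClass (fun γ => (T γ).compLeft (Fin n)) χ i (pr _ φ (Descent_al n z)) := by
  obtain ⟨h, U, hU⟩ := hz
  refine ⟨?_, U, fun γ hγ => ?_⟩
  · have h1 := Descent_al_pow n _ h
    generalize Descent_al n z = t at h1
    rw [Submodule.baseChange_eq_span] at h1
    have h2 : ∀ a : F', pr _ φ (a • t) ∈ ⋀[F]^(2 * i) (Fin n → V) := by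
      induction h1 using Submodule.span_induction with
      | zero => simp
      | add x y _ _ hx hy =>
        intro a
        rw [smul_add, map_add]
        exact Submodule.add_mem _ (hx a) (hy a)
      | smul b x _ hx => intro a; rw [smul_smul]; exact hx _
      | mem u hu =>
        intro a
        obtain ⟨e, he, rfl⟩ := hu
        rw [TensorProduct.mk_apply, TensorProduct.smul_tmul', pr_tmul]
        exact Submodule.smul_mem _ _ he
    simpa using h2 1
  · have := congrArg (fun y => pr _ φ (Descent_al n y)) (hU γ hγ)
    simp only [MonoidHom.comp_apply, Units.coe_map, ← map_pow, MonoidHom.coe_coe,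
      map_smul, Descent_al_map] at this
    rw [algebraMap_smul, map_smul, Descent_pr_map] at this
    exact this

end tate

theorem tate_span {Γ : Type} [Group Γ] [TopologicalSpace Γ] {F F' : Type} [Field F] [Field F']
    [Algebra F F'] {V : Type} [AddCommGroup V] [Module F V] [FiniteDimensional F V]
    (T : Γ → V →ₗ[F] V) (χ : Γ →* Fˣ) (n i : ℕ)
    (z : ExteriorAlgebra F' (Fin n → F' ⊗[F] V))
    (hz : TateClass (fun γ => ((T γ).baseChange F').compLeft (Fin n))
        ((Units.map (algebraMap F F' : F →* F')).comp χ) i z) :
    z ∈ Submodule.span F' {y | ∃ x, TateClass (fun γ => (T γ).compLeft (Fin n)) χ i x ∧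
      y = be F' n x} := by
  classical
  let b := Module.Free.chooseBasis F F'
  obtain ⟨τ, -, hτ⟩ := sum_pr (V := ExteriorAlgebra F (Fin n → V)) b (Descent_al n z)
  have h1 := hτ τ le_rfl
  have h2 := congrArg (Base_la n) h1
  rw [Base_la_al, map_sum] at h2
  rw [h2]
  refine Submodule.sum_mem _ fun t _ => ?_
  rw [Base_la_tmul]
  exact Submodule.smul_mem _ _ (Submodule.subset_span ⟨_, Descent_tate' T χ n i hz (b.coord t), rfl⟩)

end Pool.Agent.Lib.MP_640417_ag.Dfr
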