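import Pool.Agent.Lib.MP_640417_ag.Dfr.Defs
import Pool.Agent.Lib.MP_640417_ag.Lef.Ext
import Pool.Agent.Lib.MP_640417_ag.Four.Joint
import Pool.Agent.Lib.MP_640417_ag.Four.Darboux

/-!
# MP_640417_ag, Dfr, module Basis (300 lines): an adapted symplectic eigenbasis

`f = ∑ j ∈ univ.filter (r j = j), ε j`, `W = LinearMap.range f`, with the restricted form (alternating, nondegenerate; `f` is
self-adjoint because `r (st j) = st (r j)`): as in the plan of `Lef/FftK.lean`.
`S` = the finite set of the eigenvalues of `g` (`g` is bijective, because it preserves the form up to `μ ≠ 0`), stable under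
`z ↦ μ / z`; `π z` = the projection to the eigenspace of `z` along the other eigenspaces (`g` is semisimple: `V` is the direct sum of
the eigenspaces; e.g. the Lagrange polynomial evaluated at `g`, as in `Ty/EigK.lean`; or with an eigenbasis `exists_eigen_of_semisimple`).
The `π z` commute with `C` (polynomials in `g`), and the adjoint of `π z` is `π (μ / z)` (eigenspaces for `z`, `z'` are orthogonal
unless `z z' = μ`). Apply `exists_symBasis pDarboux` to `W` with `B = Fin N × S`, `st' (b, z) = (st b, μ / z)`, `p (b, z)` = the restriction of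
`ε b * π z` to `W` if `r b = b`, and `0` otherwise (sum `1` on `W`). This gives a basis of `W`; `w a` = its vectors, `blk a`, `lam a` the
two components of the block.
The vectors `u j (w a)`, `r j = blk a`, form a basis of `V`. Independent: apply `v i` to a relation (`v_u`; `v i * u i = ε (r i)`,
`ε (r i) (w a) = w a` if `blk a = r i`). Spanning: `x = ∑ j, ε j x = ∑ j, u j (v j x)`, `v j x ∈ W` is a combination of the `w a`, and
`v j x = ε (r j) (v j x)` is a combination of those with `blk a = r j` (`ε (r j) (w a) = 0` for `blk a ≠ r j`, by `orth` and `pe`).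
-/

set_option autoImplicit false

namespace Pool.Agent.Lib.MP_640417_ag.Dfr

open Module Pool.Agent.Lib.MP_640417_ag.Four Pool.Agent.Lib.MP_640417_ag.Lef

variable {K V : Type} [Field K] [CharZero K] [IsAlgClosed K] [AddCommGroup V] [Module K V]
  [FiniteDimensional K V] {form : LinearMap.BilinForm K V}
  {C : Subalgebra K (Module.End K V)} {N : ℕ} {st : Fin N → Fin N} {ε : Fin N → Module.End K V}
  {r : Fin N → Fin N} {u v : Fin N → Module.End K V}

/-- the projections to the eigenspaces -/
private theorem exists_proj_eig (halt : ∀ x, form x x = 0)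
    (hnd : ∀ x, (∀ y, form x y = 0) → x = 0) (g : Module.End K V)
    (hg : g.IsSemisimple) (μ : K) (hμ : μ ≠ 0) (heq : ∀ x y, form (g x) (g y) = μ * form x y) :
    ∃ (S : Finset K) (π : K → Module.End K V), (∀ z ∈ S, z ≠ 0 ∧ μ / z ∈ S) ∧
      ∑ z ∈ S, π z = 1 ∧ (∀ z, π z * π z = π z) ∧ (∀ z z', z ≠ z' → π z * π z' = 0) ∧
      (∀ z, g * π z = z • π z) ∧ (∀ c : Module.End K V, c * g = g * c → ∀ z, c * π z = π z * c) ∧
      ∀ z ∈ S, ∀ x y, form (π z x) y = form x (π (μ / z) y) := by
  classical
  obtain ⟨I, hI, hI', e, lam, he⟩ := exists_eigen_of_semisimple g hg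
  let π : K → Module.End K V := fun z => e.constr K (fun i => if lam i = z then e i else 0)
  have hπ : ∀ z i, π z (e i) = if lam i = z then e i else 0 := fun z i =>
    e.constr_basis K _ i
  have hlam : ∀ i j, form (e i) (e j) ≠ 0 → lam i * lam j = μ := by
    intro i j hij
    have h1 := heq (e i) (e j)
    rw [he, he] at h1
    simp only [map_smul, LinearMap.smul_apply, smul_eq_mul] at h1
    exact mul_right_cancel₀ hij (by linear_combination h1)
  have hpart : ∀ i, ∃ j, form (e i) (e j) ≠ 0 := by
    intro i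
    by_contra hcon
    push Not at hcon
    apply e.ne_zero i
    apply hnd
    intro y
    rw [← e.sum_repr y, map_sum]
    refine Finset.sum_eq_zero fun j _ => ?_
    rw [map_smul, hcon j, smul_zero]
  have hlam0 : ∀ i, lam i ≠ 0 := by
    intro i h0
    obtain ⟨j, hj⟩ := hpart i
    have h1 := hlam i j hj
    rw [h0, zero_mul] at h1
    exact hμ h1.symm
  have hvec : ∀ (z z' : K) (v : V), g v = z' • v → π z v = if z' = z then v else 0 := by
    intro z z' v hv
    have h1 : ∀ i, e.repr v i * (lam i - z') = 0 := by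
      intro i
      have h2 : g v = ∑ i, (e.repr v i * lam i) • e i := by
        conv_lhs => rw [← e.sum_repr v, map_sum]
        refine Finset.sum_congr rfl fun i _ => ?_
        rw [map_smul, he, smul_smul]
      have h3 : e.repr (g v) i = e.repr v i * lam i := by
        rw [h2]
        exact congrFun (e.repr_sum_self (fun i => e.repr v i * lam i)) i
      rw [hv, map_smul, Finsupp.smul_apply, smul_eq_mul] at h3
      linear_combination -h3
    have h5 : π z v = ∑ i, e.repr v i • (if lam i = z then e i else 0) := by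
      conv_lhs => rw [← e.sum_repr v, map_sum]
      refine Finset.sum_congr rfl fun i _ => ?_
      rw [map_smul, hπ]
    rw [h5]
    by_cases hz : z' = z
    · rw [if_pos hz]
      conv_rhs => rw [← e.sum_repr v]
      refine Finset.sum_congr rfl fun i _ => ?_
      by_cases hi : lam i = z
      · rw [if_pos hi]
      · rw [if_neg hi]
        have h6 : e.repr v i = 0 := by
          rcases mul_eq_zero.mp (h1 i) with h | h
          · exact h
          · exact absurd (by rw [← hz]; exact sub_eq_zero.mp h) hi
        rw [h6, zero_smul, zero_smul]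
    · rw [if_neg hz]
      refine Finset.sum_eq_zero fun i _ => ?_
      by_cases hi : lam i = z
      · have h6 : e.repr v i = 0 := by
          rcases mul_eq_zero.mp (h1 i) with h | h
          · exact h
          · exact absurd ((sub_eq_zero.mp h).symm.trans hi) hz
        rw [h6, zero_smul]
      · rw [if_neg hi, smul_zero]
  refine ⟨Finset.univ.image lam, π, ?_, ?_, ?_, ?_, ?_, ?_, ?_⟩
  · intro z hz
    obtain ⟨i, -, rfl⟩ := Finset.mem_image.mp hz
    refine ⟨hlam0 i, ?_⟩
    obtain ⟨j, hj⟩ := hpart i
    rw [← hlam i j hj, mul_comm, mul_div_assoc, div_self (hlam0 i), mul_one]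
    exact Finset.mem_image_of_mem _ (Finset.mem_univ _)
  · apply e.ext
    intro i
    rw [LinearMap.sum_apply, Module.End.one_apply]
    simp only [hπ]
    rw [Finset.sum_ite_eq, if_pos (Finset.mem_image_of_mem _ (Finset.mem_univ _))]
  · intro z
    apply e.ext
    intro i
    rw [Module.End.mul_apply, hπ]
    by_cases hi : lam i = z
    · rw [if_pos hi, hπ, if_pos hi]
    · rw [if_neg hi, map_zero]
  · intro z z' hzz
    apply e.ext
    intro i
    rw [Module.End.mul_apply, hπ, LinearMap.zero_apply]
    by_cases hi : lam i = z'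
    · rw [if_pos hi, hπ, if_neg (fun h => hzz (h.symm.trans hi))]
    · rw [if_neg hi, map_zero]
  · intro z
    apply e.ext
    intro i
    rw [Module.End.mul_apply, LinearMap.smul_apply, hπ]
    by_cases hi : lam i = z
    · rw [if_pos hi, he, hi]
    · rw [if_neg hi, map_zero, smul_zero]
  · intro c hc z
    apply e.ext
    intro i
    rw [Module.End.mul_apply, Module.End.mul_apply, hπ]
    have h1 : g (c (e i)) = lam i • c (e i) := by
      rw [← Module.End.mul_apply, ← hc, Module.End.mul_apply, he, map_smul]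
    rw [hvec z (lam i) _ h1]
    by_cases hi : lam i = z
    · rw [if_pos hi, if_pos hi]
    · rw [if_neg hi, if_neg hi, map_zero]
  · intro z hz x y
    obtain ⟨i₀, -, hi₀⟩ := Finset.mem_image.mp hz
    have hz0 : z ≠ 0 := by
      rw [← hi₀]
      exact hlam0 i₀
    have h1 : form ∘ₗ π z = LinearMap.compl₂ form (π (μ / z)) := by
      apply e.ext
      intro i
      apply e.ext
      intro j
      rw [LinearMap.comp_apply, LinearMap.compl₂_apply, hπ, hπ]
      by_cases hij : form (e i) (e j) = 0
      · have h2 : form (if lam i = z then e i else 0) (e j) = 0 := by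
          by_cases hi : lam i = z
          · rw [if_pos hi, hij]
          · rw [if_neg hi, map_zero, LinearMap.zero_apply]
        have h3 : form (e i) (if lam j = μ / z then e j else 0) = 0 := by
          by_cases hj : lam j = μ / z
          · rw [if_pos hj, hij]
          · rw [if_neg hj, map_zero]
        rw [h2, h3]
      · have h2 := hlam i j hij
        by_cases hi : lam i = z
        · have hj : lam j = μ / z := by
            rw [eq_div_iff hz0, ← hi, mul_comm]
            exact h2
          rw [if_pos hi, if_pos hj]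
        · have hj : lam j ≠ μ / z := by
            intro hj
            apply hi
            rw [hj, mul_div_assoc', div_eq_iff hz0, mul_comm μ] at h2
            exact mul_right_cancel₀ hμ h2
          rw [if_neg hi, if_neg hj, map_zero, map_zero, LinearMap.zero_apply]
    exact LinearMap.congr_fun (LinearMap.congr_fun h1 x) y

theorem exists_eb (halt : ∀ x, form x x = 0) (hnd : ∀ x, (∀ y, form x y = 0) → x = 0)
    (hS : Sys form C N st ε) (h : UV form C N st ε r u v) (g : Module.End K V)
    (hg : g.IsSemisimple) (μ : K) (hμ : μ ≠ 0) (heq : ∀ x y, form (g x) (g y) = μ * form x y)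
    (hC : ∀ c ∈ C, c * g = g * c) :
    ∃ (m : ℕ) (w : Fin m ⊕ Fin m → V) (om : Fin m ⊕ Fin m → K) (blk : Fin m ⊕ Fin m → Fin N)
      (lam : Fin m ⊕ Fin m → K)
      (e : Basis {q : Fin N × (Fin m ⊕ Fin m) // r q.1 = blk q.2} K V),
      EB form st ε r u g μ w om blk lam e := by
  classical
  have anti : ∀ x y, form y x = - form x y := fun x y => Darboux_anti halt x y
  obtain ⟨S, π, hS1, hsum, hid, horth, hgπ, hcom, hadj⟩ :=
    exists_proj_eig halt hnd g hg μ hμ heq
  have hεg : ∀ j, ε j * g = g * ε j := fun j => hC _ (hS.mem j)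
  have hεπ : ∀ j z, ε j * π z = π z * ε j := fun j z => hcom _ (hεg j) z
  -- the blocks
  let B := Fin N × {z : K // z ∈ S}
  let p : B → Module.End K V := fun b => ε b.1 * π b.2.1
  let st' : B → B := fun b => (st b.1, ⟨μ / b.2.1, (hS1 _ b.2.2).2⟩)
  have hst' : ∀ b, st' (st' b) = b := by
    rintro ⟨j, z, hz⟩
    refine Prod.ext (hS.inv j) (Subtype.ext ?_)
    change μ / (μ / z) = z
    rw [div_div_eq_mul_div, mul_comm, mul_div_assoc, div_self hμ, mul_one]
  have hp1 : ∑ b, p b = 1 := by
    rw [Fintype.sum_prod_type]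
    have h1 : ∀ j, ∑ z : {z : K // z ∈ S}, p (j, z) = ε j := by
      intro j
      change ∑ z : {z : K // z ∈ S}, ε j * π z.1 = ε j
      rw [← Finset.mul_sum, Finset.sum_coe_sort S π, hsum, mul_one]
    rw [Finset.sum_congr rfl fun j _ => h1 j, hS.sum]
  have hpp : ∀ b, p b * p b = p b := by
    intro b
    change ε b.1 * π b.2.1 * (ε b.1 * π b.2.1) = ε b.1 * π b.2.1
    rw [mul_assoc, ← mul_assoc (π b.2.1), ← hεπ, mul_assoc (ε b.1) (π b.2.1) (π b.2.1), hid,
      ← mul_assoc, hS.idem]
  have hpo : ∀ b b', b ≠ b' → p b * p b' = 0 := by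
    intro b b' hbb
    change ε b.1 * π b.2.1 * (ε b'.1 * π b'.2.1) = 0
    rw [mul_assoc, ← mul_assoc (π b.2.1), ← hεπ, mul_assoc (ε b'.1), ← mul_assoc (ε b.1)]
    by_cases h1 : b.1 = b'.1
    · have h2 : b.2.1 ≠ b'.2.1 := fun h2 => hbb (Prod.ext h1 (Subtype.ext h2))
      rw [horth _ _ h2, mul_zero]
    · rw [hS.orth _ _ h1, zero_mul]
  have hpa : ∀ b x y, form (p b x) y = form x (p (st' b) y) := by
    intro b x y
    change form (ε b.1 (π b.2.1 x)) y = form x (ε (st b.1) (π (μ / b.2.1) y))
    rw [hS.adj, hadj _ b.2.2, ← Module.End.mul_apply, ← hεπ, Module.End.mul_apply]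
  -- the subspace
  let f : Module.End K V := ∑ j ∈ Finset.univ.filter (fun j => r j = j), ε j
  have hfε : ∀ j, f * ε j = if r j = j then ε j else 0 := by
    intro j
    change (∑ k ∈ Finset.univ.filter (fun k => r k = k), ε k) * ε j = _
    rw [Finset.sum_mul]
    by_cases h1 : r j = j
    · rw [if_pos h1, Finset.sum_eq_single j]
      · exact hS.idem j
      · intro k _ hk
        exact hS.orth k j hk
      · intro hj
        exact absurd (by rw [Finset.mem_filter]; exact ⟨Finset.mem_univ _, h1⟩) hj
    · rw [if_neg h1]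
      refine Finset.sum_eq_zero fun k hk => ?_
      refine hS.orth k j fun hkj => h1 ?_
      rw [← hkj]
      exact (Finset.mem_filter.mp hk).2
  have hff : f * f = f := by
    conv_lhs =>
      rw [show f * f = ∑ j ∈ Finset.univ.filter (fun j => r j = j), f * ε j from
        Finset.mul_sum _ _ _]
    refine Finset.sum_congr rfl fun j hj => ?_
    rw [hfε, if_pos (Finset.mem_filter.mp hj).2]
  have hfadj : ∀ x y, form (f x) y = form x (f y) := by
    intro x y
    change form ((∑ j ∈ Finset.univ.filter (fun j => r j = j), ε j) x) y =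
      form x ((∑ j ∈ Finset.univ.filter (fun j => r j = j), ε j) y)
    rw [LinearMap.sum_apply, LinearMap.sum_apply, map_sum, LinearMap.sum_apply, map_sum]
    refine Finset.sum_bij' (fun j _ => st j) (fun j _ => st j) ?_ ?_ ?_ ?_ ?_
    · intro j hj
      rw [Finset.mem_filter] at hj ⊢
      exact ⟨Finset.mem_univ _, by rw [h.rst, hj.2]⟩
    · intro j hj
      rw [Finset.mem_filter] at hj ⊢
      exact ⟨Finset.mem_univ _, by rw [h.rst, hj.2]⟩
    · intro j _
      exact hS.inv j
    · intro j _
      exact hS.inv j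
    · intro j _
      exact hS.adj j x y
  have hfp : ∀ b, f * p b = p b * f := by
    intro b
    change (∑ k ∈ Finset.univ.filter (fun k => r k = k), ε k) * (ε b.1 * π b.2.1) =
      (ε b.1 * π b.2.1) * ∑ k ∈ Finset.univ.filter (fun k => r k = k), ε k
    rw [Finset.sum_mul, Finset.mul_sum]
    refine Finset.sum_congr rfl fun k _ => ?_
    rw [mul_assoc (ε b.1), ← hεπ, ← mul_assoc, ← mul_assoc]
    congr 1
    by_cases hk : k = b.1
    · rw [hk]
    · rw [hS.orth _ _ hk, hS.orth _ _ (Ne.symm hk)]
  have hWf : ∀ x, x ∈ LinearMap.range f ↔ f x = x := by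
    intro x
    constructor
    · rintro ⟨y, rfl⟩
      rw [← Module.End.mul_apply, hff]
    · exact fun hx => ⟨x, hx⟩
  obtain ⟨m, e, e', bl, he, he', hpe, hpe', hee', hee, he'e', hspan⟩ :=
    Darboux_claim form halt B st' p hst' hp1 hpp hpo hpa _ (LinearMap.range f) rfl (by
      intro b x hx
      rw [hWf] at hx ⊢
      rw [← Module.End.mul_apply, hfp, Module.End.mul_apply, hx]) (by
      intro x hx hx0
      refine hnd x fun y => ?_
      rw [hWf] at hx
      rw [← hx, hfadj]
      exact hx0 _ ⟨y, rfl⟩)
  have hswap : ∀ i j, form (e' i) (e j) = if i = j then -1 else 0 := by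
    intro i j
    rw [anti (e j) (e' i), hee' j i]
    by_cases hij : i = j
    · rw [if_pos hij, if_pos hij.symm]
    · rw [if_neg hij, if_neg (Ne.symm hij), neg_zero]
  have hne : ∀ i, e i ≠ 0 := by
    intro i h0
    have h1 := hee' i i
    rw [if_pos rfl, h0, map_zero, LinearMap.zero_apply] at h1
    exact zero_ne_one h1
  have hne' : ∀ i, e' i ≠ 0 := by
    intro i h0
    have h1 := hee' i i
    rw [if_pos rfl, h0, map_zero] at h1
    exact zero_ne_one h1
  have hblk : ∀ (b : B) (x : V), p b x = x → ε b.1 x = x ∧ g x = b.2.1 • x := by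
    intro b x hx
    change ε b.1 (π b.2.1 x) = x at hx
    have h1 : ε b.1 x = x := by
      conv_lhs => rw [← hx]
      rw [← Module.End.mul_apply, hS.idem, hx]
    have h2 : π b.2.1 x = x := by
      rw [← Module.End.mul_apply, hεπ, Module.End.mul_apply, h1] at hx
      exact hx
    refine ⟨h1, ?_⟩
    conv_lhs => rw [← h2]
    rw [← Module.End.mul_apply, hgπ, LinearMap.smul_apply, h2]
  have hrep : ∀ (b : B) (x : V), x ∈ LinearMap.range f → x ≠ 0 → p b x = x → r b.1 = b.1 := by
    intro b x hx hx0 hpx
    by_contra hr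
    apply hx0
    rw [hWf] at hx
    rw [← hx, ← (hblk b x hpx).1, ← Module.End.mul_apply, hfε, if_neg hr, LinearMap.zero_apply]
  let w : Fin m ⊕ Fin m → V := Sum.elim e e'
  let om : Fin m ⊕ Fin m → K := Sum.elim (fun _ => 1) (fun _ => -1)
  let B' : Fin m ⊕ Fin m → B := Sum.elim bl (fun i => st' (bl i))
  have hw1 : ∀ a, w a ∈ LinearMap.range f := by
    rintro (i | i)
    · exact he i
    · exact he' i
  have hw2 : ∀ a, p (B' a) (w a) = w a := by
    rintro (i | i)
    · exact hpe i
    · exact hpe' i
  have hw3 : ∀ a, w a ≠ 0 := by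
    rintro (i | i)
    · exact hne i
    · exact hne' i
  have hB' : ∀ a, B' a.swap = st' (B' a) := by
    rintro (i | i)
    · rfl
    · exact (hst' (bl i)).symm
  have hom : ∀ a, om a ≠ 0 := by
    rintro (i | i)
    · exact one_ne_zero
    · exact neg_ne_zero.mpr one_ne_zero
  have hf1 : ∀ a, form (w a) (w a.swap) = om a := by
    rintro (i | i)
    · exact (hee' i i).trans (if_pos rfl)
    · exact (hswap i i).trans (if_pos rfl)
  have hf0 : ∀ a b, b ≠ a.swap → form (w a) (w b) = 0 := by
    rintro (i | i) (j | j) hab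
    · exact hee i j
    · exact (hee' i j).trans (if_neg (fun hij => hab (by rw [hij]; rfl)))
    · exact (hswap i j).trans (if_neg (fun hij => hab (by rw [hij]; rfl)))
    · exact he'e' i j
  have hrB : ∀ a, r (B' a).1 = (B' a).1 := fun a => hrep _ _ (hw1 a) (hw3 a) (hw2 a)
  have hεw : ∀ a, ε (B' a).1 (w a) = w a := fun a => (hblk _ _ (hw2 a)).1
  have hεw0 : ∀ a j, j ≠ (B' a).1 → ε j (w a) = 0 := by
    intro a j hj
    rw [← hεw a, ← Module.End.mul_apply, hS.orth _ _ hj, LinearMap.zero_apply]
  have hspanw : LinearMap.range f ≤ Submodule.span K (Set.range w) := by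
    refine hspan.trans (Submodule.span_mono ?_)
    rintro _ (⟨i, rfl⟩ | ⟨i, rfl⟩)
    · exact ⟨Sum.inl i, rfl⟩
    · exact ⟨Sum.inr i, rfl⟩
  -- the basis of `V`
  let Q := {q : Fin N × (Fin m ⊕ Fin m) // r q.1 = (B' q.2).1}
  let X : Q → V := fun q => u q.1.1 (w q.1.2)
  have hdual : ∀ q q' : Q, form (v q.1.1 (X q')) (w q.1.2.swap) =
      if q' = q then om q.1.2 else 0 := by
    intro q q'
    change form (v q.1.1 (u q'.1.1 (w q'.1.2))) (w q.1.2.swap) = _
    by_cases h1 : q.1.1 = q'.1.1
    · have h2 : v q.1.1 (u q'.1.1 (w q'.1.2)) = w q'.1.2 := by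
        rw [h1, ← Module.End.mul_apply, h.vu, q'.2, hεw]
      rw [h2]
      by_cases h3 : q'.1.2 = q.1.2
      · rw [if_pos (Subtype.ext (Prod.ext h1.symm h3)), h3, hf1]
      · rw [if_neg (fun h4 => h3 (by rw [h4])), hf0]
        intro h4
        apply h3
        rw [← Sum.swap_swap q.1.2, h4, Sum.swap_swap]
    · rw [if_neg (fun h4 => h1 (by rw [h4])), ← Module.End.mul_apply, v_u hS h h1,
        LinearMap.zero_apply, map_zero, LinearMap.zero_apply]
  have hli : LinearIndependent K X := by
    rw [Fintype.linearIndependent_iff]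
    intro c hc q
    have h1 : form (v q.1.1 (∑ q', c q' • X q')) (w q.1.2.swap) =
        form (v q.1.1 0) (w q.1.2.swap) := by rw [hc]
    rw [map_sum, map_sum, LinearMap.sum_apply, map_zero, map_zero, LinearMap.zero_apply,
      Finset.sum_eq_single q] at h1
    · rw [map_smul, map_smul, LinearMap.smul_apply, hdual, if_pos rfl, smul_eq_mul] at h1
      exact (mul_eq_zero.mp h1).resolve_right (hom _)
    · intro q' _ hq
      rw [map_smul, map_smul, LinearMap.smul_apply, hdual, if_neg hq, smul_zero]
    · intro hq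
      exact absurd (Finset.mem_univ _) hq
  have hsp1 : ∀ j, ∀ y ∈ Submodule.span K (Set.range w), u j (ε (r j) y) ∈
      Submodule.span K (Set.range X) := by
    intro j y hy
    induction hy using Submodule.span_induction with
    | mem y hy =>
      obtain ⟨a, rfl⟩ := hy
      by_cases h1 : r j = (B' a).1
      · rw [h1, hεw]
        exact Submodule.subset_span ⟨⟨(j, a), h1⟩, rfl⟩
      · rw [hεw0 a _ h1, map_zero]
        exact Submodule.zero_mem _
    | zero =>
      rw [map_zero, map_zero]
      exact Submodule.zero_mem _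
    | add y y' _ _ h1 h2 =>
      rw [map_add, map_add]
      exact Submodule.add_mem _ h1 h2
    | smul c y _ h1 =>
      rw [map_smul, map_smul]
      exact Submodule.smul_mem _ _ h1
  have hsp : ⊤ ≤ Submodule.span K (Set.range X) := by
    intro x _
    have h1 : x = ∑ j, u j (ε (r j) (v j x)) := by
      have h2 := LinearMap.congr_fun hS.sum x
      rw [LinearMap.sum_apply, Module.End.one_apply] at h2
      conv_lhs => rw [← h2]
      refine Finset.sum_congr rfl fun j _ => ?_
      rw [← Module.End.mul_apply (ε (r j)), h.ev, ← Module.End.mul_apply, h.uv]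
    rw [h1]
    refine Submodule.sum_mem _ fun j _ => hsp1 j _ (hspanw ?_)
    rw [hWf]
    rw [← h.ev, ← Module.End.mul_apply, ← mul_assoc, hfε, if_pos (h.rr j)]
  refine ⟨m, w, om, fun a => (B' a).1, fun a => (B' a).2.1, Basis.mk hli hsp, ?_⟩
  refine ⟨hom, ?_, hf1, hf0, hrB, hεw, ?_, fun a => (hblk _ _ (hw2 a)).2, ?_, ?_⟩
  · rintro (i | i)
    · rfl
    · exact (neg_neg (1 : K)).symm
  · intro a
    rw [hB']
  · intro a
    rw [hB']
    exact mul_div_cancel₀ _ (hS1 _ (B' a).2.2).1
  · intro q
    exact Basis.mk_apply hli hsp q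

end Pool.Agent.Lib.MP_640417_ag.Dfr
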