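import Pool.Agent.Lib.MP_640417_ag.Four.Descent

/-!
# MP_640417_ag, Dfr, module BeInj: the base change of the exterior algebra is injective
-/

set_option autoImplicit false

namespace Pool.Agent.Lib.MP_640417_ag.Dfr

open Module TensorProduct Pool.Agent.Lib.MP_640417_ag.Four

section aux

variable {F F' : Type} [Field F] [Field F'] [Algebra F F'] {V : Type} [AddCommGroup V]
  [Module F V]

/-- `1 ⊗ ι` on the base change. -/
private noncomputable def BeInj_io (W : Type) [AddCommGroup W] [Module F W] :
    F' ⊗[F] W →ₗ[F'] F' ⊗[F] ExteriorAlgebra F W :=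
  (ExteriorAlgebra.ι F : W →ₗ[F] ExteriorAlgebra F W).baseChange F'

private lemma BeInj_anti (W : Type) [AddCommGroup W] [Module F W] (s t : F' ⊗[F] W) :
    BeInj_io (F' := F') W s * BeInj_io (F' := F') W t
      + BeInj_io (F' := F') W t * BeInj_io (F' := F') W s = 0 := by
  induction s using TensorProduct.induction_on with
  | zero => simp
  | add x y hx hy =>
    rw [map_add, add_mul, mul_add]
    calc _ = (BeInj_io (F' := F') W x * BeInj_io (F' := F') W t
          + BeInj_io (F' := F') W t * BeInj_io (F' := F') W x)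
        + (BeInj_io (F' := F') W y * BeInj_io (F' := F') W t
          + BeInj_io (F' := F') W t * BeInj_io (F' := F') W y) := by abel
      _ = 0 := by rw [hx, hy, add_zero]
  | tmul a v =>
    induction t using TensorProduct.induction_on with
    | zero => simp
    | add x y hx hy =>
      rw [map_add, add_mul, mul_add]
      calc _ = (BeInj_io (F' := F') W (a ⊗ₜ[F] v) * BeInj_io (F' := F') W x
            + BeInj_io (F' := F') W x * BeInj_io (F' := F') W (a ⊗ₜ[F] v))
          + (BeInj_io (F' := F') W (a ⊗ₜ[F] v) * BeInj_io (F' := F') W y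
            + BeInj_io (F' := F') W y * BeInj_io (F' := F') W (a ⊗ₜ[F] v)) := by abel
        _ = 0 := by rw [hx, hy, add_zero]
    | tmul b w =>
      simp only [BeInj_io, LinearMap.baseChange_tmul, Algebra.TensorProduct.tmul_mul_tmul]
      rw [mul_comm b a, ← TensorProduct.tmul_add, ExteriorAlgebra.ι_add_mul_swap,
        TensorProduct.tmul_zero]

private lemma BeInj_sq (W : Type) [AddCommGroup W] [Module F W] (t : F' ⊗[F] W) :
    BeInj_io (F' := F') W t * BeInj_io (F' := F') W t = 0 := by
  induction t using TensorProduct.induction_on with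
  | zero => simp
  | add x y hx hy =>
    rw [map_add, add_mul, mul_add, mul_add, hx, hy, zero_add, add_zero, BeInj_anti]
  | tmul a v =>
    simp only [BeInj_io, LinearMap.baseChange_tmul, Algebra.TensorProduct.tmul_mul_tmul]
    rw [ExteriorAlgebra.ι_sq_zero, TensorProduct.tmul_zero]

/-- The coordinates of the base change. -/
private noncomputable def BeInj_co (n : ℕ) :
    (Fin n → F' ⊗[F] V) →ₗ[F'] F' ⊗[F] (Fin n → V) :=
  ∑ a : Fin n, ((LinearMap.single F (fun _ : Fin n => V) a).baseChange F') ∘ₗ
    (LinearMap.proj a : (Fin n → F' ⊗[F] V) →ₗ[F'] F' ⊗[F] V)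

private lemma BeInj_co_apply (n : ℕ) (w : Fin n → F' ⊗[F] V) :
    BeInj_co n w
      = ∑ a : Fin n, (LinearMap.single F (fun _ : Fin n => V) a).baseChange F' (w a) := by
  simp [BeInj_co]

/-- The comparison of the exterior algebras. -/
private noncomputable def BeInj_al (n : ℕ) :
    ExteriorAlgebra F' (Fin n → F' ⊗[F] V) →ₐ[F'] F' ⊗[F] ExteriorAlgebra F (Fin n → V) :=
  ExteriorAlgebra.lift F' ⟨BeInj_io (Fin n → V) ∘ₗ BeInj_co n, fun w => by
    simp only [LinearMap.comp_apply]
    exact BeInj_sq _ _⟩

private lemma BeInj_al_ι (n : ℕ) (w : Fin n → F' ⊗[F] V) :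
    BeInj_al (F := F) (V := V) n (ExteriorAlgebra.ι F' w)
      = BeInj_io (Fin n → V) (BeInj_co n w) := by
  simp [BeInj_al]

private lemma BeInj_al_be (n : ℕ) (x : ExteriorAlgebra F (Fin n → V)) :
    BeInj_al n (be F' n x) = (1 : F') ⊗ₜ[F] x := by
  have h : ((BeInj_al (F := F) (V := V) n).restrictScalars F).comp (be F' n)
      = Algebra.TensorProduct.includeRight := by
    apply ExteriorAlgebra.hom_ext
    ext w
    simp only [AlgHom.toLinearMap_apply, LinearMap.comp_apply, AlgHom.comp_apply,
      AlgHom.restrictScalars_apply, be_ι, BeInj_al_ι, BeInj_co_apply,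
      Algebra.TensorProduct.includeRight_apply]
    simp only [LinearMap.baseChange_tmul, ← TensorProduct.tmul_sum]
    rw [BeInj_io, LinearMap.baseChange_tmul]
    congr 2
    exact Finset.univ_sum_single _
  exact DFunLike.congr_fun h x

theorem be_inj (n : ℕ) (x : ExteriorAlgebra F (Fin n → V)) (hx : be F' n x = 0) : x = 0 := by
  have h1 := BeInj_al_be (F' := F') n x
  rw [hx, map_zero] at h1
  obtain ⟨φ, hφ⟩ : ∃ φ : F' →ₗ[F] F, φ 1 = 1 := by
    obtain ⟨φ, hφ⟩ := LinearMap.exists_leftInverse_of_injective (Algebra.linearMap F F')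
      (LinearMap.ker_eq_bot.2 (algebraMap F F').injective)
    refine ⟨φ, ?_⟩
    have := DFunLike.congr_fun hφ 1
    simpa using this
  have h2 := congrArg ((TensorProduct.lid F (ExteriorAlgebra F (Fin n → V))).toLinearMap ∘ₗ
    (LinearMap.rTensor (ExteriorAlgebra F (Fin n → V)) φ)) h1
  rw [map_zero, LinearMap.comp_apply, LinearMap.rTensor_tmul, LinearEquiv.coe_coe,
    TensorProduct.lid_tmul, hφ, one_smul] at h2
  exact h2.symm

end aux

end Pool.Agent.Lib.MP_640417_ag.Dfr
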