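import Pool.Agent.Lib.MP_640417_ag.Dfr.Defs
import Pool.Agent.Lib.MP_640417_ag.Lef.Ext
import Pool.Agent.Lib.MP_640417_ag.Four.Joint

/-!
# MP_640417_ag, Dfr, module Cent (200 lines): the center of the commutant

`eC b = ∑ j ∈ univ.filter (r j = b), ε j` (zero if `b` is no representative).
* `eC_cen`: `c = ∑ i j, ε i c ε j`, and `ε i c ε j = t • u i v j` is `0` if `r i ≠ r j` (`u i v j = u i ε (r i) ε (r j) v j`); so both
  `c * eC b` and `eC b * c` are the sum of the `ε i c ε j` with `r i = r j = b`.
* `eC_idem`, `eC_orth`: `orth`, `idem`. `eC_mem`: `mem`. `eC_adj`: the adjoint of `ε j` is `ε (st j)`, `r (st j) = st (r j)`, so the adjoint of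
  `eC b` is `eC (st b)`.
* `eC_apply`: `ε i (e q) = ε i (u j (w a)) = ` (`q = (j, a)`, `ε j u j = u j`) `e q` if `i = j` and `0` otherwise, and `r j = blk a`.
* `cen_coef`: let `z ∈ C` be central. `z ε j = ε j z ε j = t j • ε j` (`one`). `z u j = u j z` gives `t j • u j = t (r j) • u j`, so `t j = t (r j)`
  (`u j ≠ 0`). So `z (e q) = z (ε j (e q)) = t j • e q = t (blk a) • e q`. If `z` is skew: `form (z ε j x) y = t j form (ε j x) y`,
  and it is `- form (ε j x) (z y) = - form x (ε (st j) z y) = - t (st j) form x (ε (st j) y) = - t (st j) form (ε j x) y`, and `form (ε j x) y ≠ 0` for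
  some `x y` (`ne`, nondegenerate). So `t (st j) = - t j`.
* `det_eC`: `det_block` (`Four/Joint.lean`) with the basis `e`, the blocks `q ↦ blk q.1.2` and `p = eC`: `LinearMap.det (eC b * g + (1 - eC b))` is
  the product of the eigenvalues `lam q.1.2` of `g` over the `q` with `blk q.1.2 = b` (`g (e q) = g (u j (w a)) = u j (g (w a))`). The `q = (j, a)`
  with `blk a = b` are the pairs with `r j = b` and `blk a = b` (`Finset.prod` over a product set, `#{j | r j = b}` times).
-/

set_option autoImplicit false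

namespace Pool.Agent.Lib.MP_640417_ag.Dfr

open Module Pool.Agent.Lib.MP_640417_ag.Four Pool.Agent.Lib.MP_640417_ag.Lef

variable {K V : Type} [Field K] [CharZero K] [AddCommGroup V] [Module K V]
  {form : LinearMap.BilinForm K V}
  {C : Subalgebra K (Module.End K V)} {N : ℕ} {st : Fin N → Fin N} {ε : Fin N → Module.End K V}
  {r : Fin N → Fin N} {u v : Fin N → Module.End K V} {g : Module.End K V} {μ : K} {m : ℕ}
  {w : Fin m ⊕ Fin m → V} {om : Fin m ⊕ Fin m → K} {blk : Fin m ⊕ Fin m → Fin N}
  {lam : Fin m ⊕ Fin m → K} {e : Basis {q : Fin N × (Fin m ⊕ Fin m) // r q.1 = blk q.2} K V}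

/-- the central idempotent of the class of `b` -/
def eC (ε : Fin N → Module.End K V) (r : Fin N → Fin N) (b : Fin N) : Module.End K V :=
  ∑ j ∈ Finset.univ.filter (fun j => r j = b), ε j

theorem eC_mem (hS : Sys form C N st ε) (b : Fin N) : eC ε r b ∈ C :=
  Subalgebra.sum_mem C fun j _ => hS.mem j

private theorem eps_zero (hS : Sys form C N st ε) (h : UV form C N st ε r u v) {i j : Fin N}
    (hij : r i ≠ r j) {c : Module.End K V} (hc : c ∈ C) : ε i * c * ε j = 0 := by
  obtain ⟨t, ht⟩ := h.one i j c hc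
  rw [ht, ← h.ue i, ← h.ev j, mul_assoc, ← mul_assoc (ε (r i)), hS.orth _ _ hij, zero_mul,
    mul_zero, smul_zero]

theorem eC_cen (hS : Sys form C N st ε) (h : UV form C N st ε r u v) (b : Fin N)
    {c : Module.End K V} (hc : c ∈ C) : c * eC ε r b = eC ε r b * c := by
  have h1 : c * eC ε r b = ∑ i ∈ Finset.univ.filter (fun j => r j = b),
      ∑ j ∈ Finset.univ.filter (fun j => r j = b), ε i * c * ε j := by
    calc c * eC ε r b = (∑ i, ε i) * (c * eC ε r b) := by rw [hS.sum, one_mul]
      _ = ∑ i, ∑ j ∈ Finset.univ.filter (fun j => r j = b), ε i * c * ε j := by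
        rw [Finset.sum_mul]
        refine Finset.sum_congr rfl fun i _ => ?_
        rw [eC, ← mul_assoc, Finset.mul_sum]
      _ = _ := by
        refine (Finset.sum_subset (Finset.filter_subset _ _) fun i _ hi => ?_).symm
        refine Finset.sum_eq_zero fun j hj => eps_zero hS h ?_ hc
        rw [Finset.mem_filter] at hi hj
        intro h3
        exact hi ⟨Finset.mem_univ _, by rw [h3, hj.2]⟩
  have h2 : eC ε r b * c = ∑ i ∈ Finset.univ.filter (fun j => r j = b),
      ∑ j ∈ Finset.univ.filter (fun j => r j = b), ε i * c * ε j := by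
    calc eC ε r b * c = eC ε r b * c * (∑ i, ε i) := by rw [hS.sum, mul_one]
      _ = ∑ i ∈ Finset.univ.filter (fun j => r j = b), ∑ j, ε i * c * ε j := by
        rw [eC, Finset.sum_mul, Finset.sum_mul]
        refine Finset.sum_congr rfl fun i _ => ?_
        rw [Finset.mul_sum]
      _ = _ := by
        refine Finset.sum_congr rfl fun i hi => ?_
        refine (Finset.sum_subset (Finset.filter_subset _ _) fun j _ hj => ?_).symm
        refine eps_zero hS h ?_ hc
        rw [Finset.mem_filter] at hi hj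
        intro h3
        exact hj ⟨Finset.mem_univ _, by rw [← h3, hi.2]⟩
  rw [h1, h2]

theorem eC_idem (hS : Sys form C N st ε) (b : Fin N) : eC ε r b * eC ε r b = eC ε r b := by
  rw [eC, Finset.sum_mul]
  refine Finset.sum_congr rfl fun i hi => ?_
  rw [Finset.mul_sum, Finset.sum_eq_single_of_mem i hi, hS.idem]
  intro j _ hj
  exact hS.orth i j (Ne.symm hj)

theorem eC_orth (hS : Sys form C N st ε) {a b : Fin N} (hab : a ≠ b) :
    eC ε r a * eC ε r b = 0 := by
  rw [eC, eC, Finset.sum_mul]
  refine Finset.sum_eq_zero fun i hi => ?_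
  rw [Finset.mul_sum]
  refine Finset.sum_eq_zero fun j hj => hS.orth i j ?_
  rw [Finset.mem_filter] at hi hj
  intro h
  exact hab (by rw [← hi.2, ← hj.2, h])

theorem eC_adj (hS : Sys form C N st ε) (h : UV form C N st ε r u v) (b : Fin N) (x y : V) :
    form (eC ε r b x) y = form x (eC ε r (st b) y) := by
  rw [eC, eC, LinearMap.sum_apply, LinearMap.sum_apply, map_sum, map_sum, LinearMap.sum_apply]
  refine Finset.sum_bij' (fun j _ => st j) (fun j _ => st j) ?_ ?_ ?_ ?_ ?_
  · intro j hj
    rw [Finset.mem_filter] at hj ⊢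
    exact ⟨Finset.mem_univ _, by rw [h.rst, hj.2]⟩
  · intro j hj
    rw [Finset.mem_filter] at hj ⊢
    exact ⟨Finset.mem_univ _, by rw [h.rst, hj.2, hS.inv]⟩
  · intro j _
    exact hS.inv j
  · intro j _
    exact hS.inv j
  · intro j _
    exact hS.adj j x y

theorem eC_apply (hS : Sys form C N st ε) (h : UV form C N st ε r u v)
    (he : EB form st ε r u g μ w om blk lam e) (b : Fin N)
    (q : {q : Fin N × (Fin m ⊕ Fin m) // r q.1 = blk q.2}) :
    eC ε r b (e q) = if blk q.1.2 = b then e q else 0 := by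
  have h1 : ∀ i, ε i (e q) = if i = q.1.1 then e q else 0 := by
    intro i
    rw [he.basis q, ← Module.End.mul_apply]
    by_cases hi : i = q.1.1
    · rw [if_pos hi, hi, h.eu]
    · rw [if_neg hi, ← h.eu q.1.1, ← mul_assoc, hS.orth _ _ hi, zero_mul, LinearMap.zero_apply]
  rw [eC, LinearMap.sum_apply]
  simp_rw [h1]
  rw [Finset.sum_ite_eq']
  by_cases hb : blk q.1.2 = b
  · have h2 : q.1.1 ∈ Finset.univ.filter (fun j => r j = b) :=
      Finset.mem_filter.mpr ⟨Finset.mem_univ _, q.2.trans hb⟩
    rw [if_pos hb, if_pos h2]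
  · rw [if_neg hb, if_neg]
    intro h2
    exact hb (q.2.symm.trans (Finset.mem_filter.mp h2).2)

theorem cen_coef (halt : ∀ x, form x x = 0) (hnd : ∀ x, (∀ y, form x y = 0) → x = 0)
    (hS : Sys form C N st ε) (h : UV form C N st ε r u v)
    (he : EB form st ε r u g μ w om blk lam e) {z : Module.End K V} (hz : z ∈ C)
    (hzc : ∀ c ∈ C, c * z = z * c) (hzs : Skew form z) :
    ∃ t : Fin N → K, (∀ j, t (st j) = - t j) ∧ ∀ q, z (e q) = t (blk q.1.2) • e q := by
  choose t ht using fun j => hS.one j z hz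
  have h1 : ∀ j, z * ε j = t j • ε j := by
    intro j
    rw [← ht j, hzc _ (hS.mem j), mul_assoc, hS.idem]
  have hzu : ∀ j, z * u j = t j • u j := by
    intro j
    rw [← h.eu j, ← mul_assoc, h1, smul_mul_assoc]
  have hur : ∀ j, t j = t (r j) := by
    intro j
    have h2 : t j • u j = t (r j) • u j := by
      rw [← hzu, ← hzc _ (h.uC j)]
      conv_lhs => rw [← h.ue j, mul_assoc, hzc _ (hS.mem (r j)), h1, mul_smul_comm, h.ue j]
    have h3 : u j ≠ 0 := by
      intro h0
      apply hS.ne j
      rw [← h.uv j, h0, zero_mul]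
    have h4 : (t j - t (r j)) • u j = 0 := by rw [sub_smul, h2, sub_self]
    exact sub_eq_zero.mp ((smul_eq_zero.mp h4).resolve_right h3)
  refine ⟨t, ?_, ?_⟩
  · intro j
    obtain ⟨x, hx⟩ : ∃ x, ε j x ≠ 0 := by
      by_contra hcon
      push Not at hcon
      exact hS.ne j (LinearMap.ext hcon)
    obtain ⟨y, hy⟩ : ∃ y, form (ε j x) y ≠ 0 := by
      by_contra hcon
      push Not at hcon
      exact hx (hnd _ hcon)
    have e1 : form (z (ε j x)) y = t j * form (ε j x) y := by
      rw [← Module.End.mul_apply, h1, LinearMap.smul_apply, map_smul, LinearMap.smul_apply,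
        smul_eq_mul]
    have e2 : form (ε j x) (z y) = t (st j) * form (ε j x) y := by
      rw [hS.adj, ← Module.End.mul_apply, hzc _ (hS.mem (st j)), h1, LinearMap.smul_apply,
        map_smul, smul_eq_mul, ← hS.adj]
    have e3 := hzs (ε j x) y
    rw [e1, e2, ← add_mul] at e3
    have e4 := (mul_eq_zero.mp e3).resolve_right hy
    rw [add_comm] at e4
    exact eq_neg_of_add_eq_zero_left e4
  · intro q
    rw [he.basis q, ← Module.End.mul_apply, hzu, hur, q.2, LinearMap.smul_apply]

theorem det_eC (hS : Sys form C N st ε) (h : UV form C N st ε r u v)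
    (he : EB form st ε r u g μ w om blk lam e) (hC : ∀ c ∈ C, c * g = g * c) (b : Fin N) :
    LinearMap.det (eC ε r b * g + (1 - eC ε r b)) =
      (∏ a ∈ Finset.univ.filter (fun a => blk a = b), lam a) ^
        (Finset.univ.filter (fun j => r j = b)).card := by
  have h1 := det_block e (fun q => blk q.1.2) (eC ε r) (fun a b hab => eC_orth hS hab)
    (fun q => by rw [eC_apply hS h he, if_pos rfl]) g (fun q => lam q.1.2) (fun q => by
      rw [he.basis q, ← Module.End.mul_apply, ← hC _ (h.uC _), Module.End.mul_apply, he.eig,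
        map_smul]) b
  rw [h1]
  calc ∏ q ∈ Finset.univ.filter
        (fun q : {q : Fin N × (Fin m ⊕ Fin m) // r q.1 = blk q.2} => blk q.1.2 = b), lam q.1.2 =
      ∏ x ∈ (Finset.univ.filter (fun j => r j = b)) ×ˢ
        (Finset.univ.filter (fun a => blk a = b)), lam x.2 := by
        refine Finset.prod_bij (fun q _ => q.1) ?_ ?_ ?_ ?_
        · intro q hq
          rw [Finset.mem_filter] at hq
          rw [Finset.mem_product, Finset.mem_filter, Finset.mem_filter]
          exact ⟨⟨Finset.mem_univ _, q.2.trans hq.2⟩, ⟨Finset.mem_univ _, hq.2⟩⟩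
        · intro q _ q' _ hqq
          exact Subtype.ext hqq
        · intro x hx
          rw [Finset.mem_product, Finset.mem_filter, Finset.mem_filter] at hx
          exact ⟨⟨x, hx.1.2.trans hx.2.2.symm⟩, Finset.mem_filter.mpr ⟨Finset.mem_univ _, hx.2.2⟩,
            rfl⟩
        · intro q _
          rfl
    _ = _ := by
        rw [Finset.prod_product]
        exact Finset.prod_const (s := Finset.univ.filter (fun j => r j = b))
          (∏ a ∈ Finset.univ.filter (fun a => blk a = b), lam a)

end Pool.Agent.Lib.MP_640417_ag.Dfr
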