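import Pool.Agent.Lib.MP_640417_ag.Dfr.Defs
import Pool.Agent.Lib.MP_640417_ag.Lef.Ext

/-!
# MP_640417_ag, Dfr, module Comm (200 lines): commutators

Write `a' = a.swap`. `ss form x y z = form z x • y + form z y • x` up to the order of the arguments (see `ss_apply`, `comm_ss`, `ss_skew` in
`Four/Struct.lean`: `M * ss x y - ss x y * M = ss (M x) y + ss x (M y)` for skew `M`).
* `ss_eps`: if `blk a = blk b`, `X = ss form (w a) (w b')` commutes with all `ε (r j)`: `ε k (w a) = w a` if `k = blk a` and `0` otherwise (`pe`,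
  `orth`), `form (ε k z) y = form z (ε (st k) y)`, `blk b' = st (blk b)`.
* `Hd_comm`: for `b ≠ a'`: `[ss (w a) (w b'), ss (w b) (w a')] = om b • ss (w a) (w a') - om a • ss (w b) (w b') = (om a * om b) • (Hd a - Hd b)`.
  For `b = a'`: `Hd a' = - Hd a`, and `[ss (w a) (w a), ss (w a') (w a')] = 2 ss (M (w a')) (w a') = - 4 om a • ss (w a) (w a')`
  (`M = ss (w a) (w a)`, `M (w a') = 2 form (w a') (w a) • w a = - 2 om a • w a`), so it is `- 4 (om a)^2 • Hd a = -2 (om a)^2 • (Hd a - Hd a')`.
  Here `blk a' = blk a`, so `ss (w a) (w a) = ss (w a) (w (a'))')` commutes with the `ε (r j)` by the first statement.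
* `Hd_apply`: `Hd a (w a) = w a`, `Hd a (w a') = - w a'`, `Hd a (w b) = 0` for the other `b`.
* `ext_mul`: `v j * u k = 0` for `j ≠ k` (`v_u`), `v j * u j = ε (r j)`, `Y` commutes with `ε (r j)`, `ε (r j) * v j = v j`.
* `ext_Hd`: `ext (Hd a) (u j (w b)) = u j (Hd a (w b))` (`ext_u`; `Hd a` commutes with the `ε (r j)` by `ss_eps`), `basis`.
* `der_Hd`: `X Y` from `Hd_comm`, `ext_skew`, `ext_comm`, `ext_mul`, additivity of `ext`.
-/

set_option autoImplicit false

namespace Pool.Agent.Lib.MP_640417_ag.Dfr

open Module Pool.Agent.Lib.MP_640417_ag.Four Pool.Agent.Lib.MP_640417_ag.Lef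

variable {K V : Type} [Field K] [CharZero K] [AddCommGroup V] [Module K V]
  {form : LinearMap.BilinForm K V}
  {C : Subalgebra K (Module.End K V)} {N : ℕ} {st : Fin N → Fin N} {ε : Fin N → Module.End K V}
  {r : Fin N → Fin N} {u v : Fin N → Module.End K V} {g : Module.End K V} {μ : K} {m : ℕ}
  {w : Fin m ⊕ Fin m → V} {om : Fin m ⊕ Fin m → K} {blk : Fin m ⊕ Fin m → Fin N}
  {lam : Fin m ⊕ Fin m → K} {e : Basis {q : Fin N × (Fin m ⊕ Fin m) // r q.1 = blk q.2} K V}

omit [CharZero K] in
theorem eps_w (hS : Sys form C N st ε) (he : EB form st ε r u g μ w om blk lam e)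
    (a : Fin m ⊕ Fin m) (k : Fin N) : ε k (w a) = if k = blk a then w a else 0 := by
  split_ifs with hk
  · rw [hk, he.pe]
  · have h1 : (ε k * ε (blk a)) (w a) = 0 := by rw [hS.orth k (blk a) hk, LinearMap.zero_apply]
    rw [Module.End.mul_apply, he.pe] at h1
    exact h1

omit [CharZero K] in
theorem ss_eps (_halt : ∀ x, form x x = 0) (hS : Sys form C N st ε)
    (he : EB form st ε r u g μ w om blk lam e) (a b : Fin m ⊕ Fin m) (hab : blk a = blk b)
    (j : Fin N) : ss form (w a) (w b.swap) * ε j = ε j * ss form (w a) (w b.swap) := by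
  ext z
  rw [Module.End.mul_apply, Module.End.mul_apply, ss_apply, ss_apply, map_add, map_smul, map_smul,
    hS.adj, hS.adj, eps_w hS he, eps_w hS he, eps_w hS he, eps_w hS he, he.blks, ← hab]
  have h1 : (st j = blk a) ↔ (j = st (blk a)) := by
    constructor
    · intro h
      rw [← h, hS.inv]
    · intro h
      rw [h, hS.inv]
  have h2 : (st j = st (blk a)) ↔ (j = blk a) := by
    constructor
    · intro h
      have h3 := congrArg st h
      rwa [hS.inv, hS.inv] at h3
    · intro h
      rw [h]
  have h3 : form z (if st j = blk a then w a else 0) • w b.swap =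
      form z (w a) • (if j = st (blk a) then w b.swap else 0) := by
    by_cases h : j = st (blk a)
    · rw [if_pos h, if_pos (h1.mpr h)]
    · rw [if_neg h, if_neg (fun h' => h (h1.mp h')), map_zero, zero_smul, smul_zero]
  have h4 : form z (if st j = st (blk a) then w b.swap else 0) • w a =
      form z (w b.swap) • (if j = blk a then w a else 0) := by
    by_cases h : j = blk a
    · rw [if_pos h, if_pos (h2.mpr h)]
    · rw [if_neg h, if_neg (fun h' => h (h2.mp h')), map_zero, zero_smul, smul_zero]
  rw [h3, h4]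

omit [CharZero K] in
theorem Hd_apply (_halt : ∀ x, form x x = 0) (he : EB form st ε r u g μ w om blk lam e)
    (a b : Fin m ⊕ Fin m) :
    Hd form w om a (w b) = ((if b = a then 1 else 0) - (if b = a.swap then 1 else 0) : K) • w b := by
  have hsw : a ≠ a.swap := by
    rcases a with a | a <;> simp
  unfold Hd
  rw [LinearMap.smul_apply, ss_apply]
  by_cases h1 : b = a
  · subst h1
    rw [if_pos rfl, if_neg hsw, he.form_zero b b hsw, he.form_pair, zero_smul, zero_add, smul_smul,
      inv_mul_cancel₀ (he.omne b), sub_zero]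
  · by_cases h2 : b = a.swap
    · subst h2
      have h3 := he.form_pair a.swap
      rw [Sum.swap_swap] at h3
      rw [if_neg h1, if_pos rfl, h3, he.oms,
        he.form_zero a.swap a.swap (by rw [Sum.swap_swap]; exact h1), zero_smul, add_zero, smul_smul,
        mul_neg, inv_mul_cancel₀ (he.omne a), zero_sub]
    · have h3 : a ≠ b.swap := by
        intro h
        apply h2
        rw [h, Sum.swap_swap]
      have h4 : a.swap ≠ b.swap := by
        intro h
        apply h1
        have h5 := congrArg Sum.swap h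
        rw [Sum.swap_swap, Sum.swap_swap] at h5
        exact h5.symm
      rw [if_neg h1, if_neg h2, he.form_zero b a h3, he.form_zero b a.swap h4, zero_smul, zero_smul,
        add_zero, smul_zero, sub_zero, zero_smul]

omit [CharZero K] in
theorem ss_Hd (he : EB form st ε r u g μ w om blk lam e) (a : Fin m ⊕ Fin m) :
    ss form (w a) (w a.swap) = om a • Hd form w om a := by
  unfold Hd
  rw [smul_smul, mul_inv_cancel₀ (he.omne a), one_smul]

omit [CharZero K] in
theorem Hd_swap (he : EB form st ε r u g μ w om blk lam e) (a : Fin m ⊕ Fin m) :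
    Hd form w om a.swap = - Hd form w om a := by
  unfold Hd
  rw [he.oms, Sum.swap_swap, ss_comm, inv_neg, neg_smul]

omit [CharZero K] in
theorem skew_smul (c : K) {M : Module.End K V} (hM : Skew form M) : Skew form (c • M) := by
  intro x y
  have h := hM x y
  rw [LinearMap.smul_apply, LinearMap.smul_apply, map_smul, map_smul, LinearMap.smul_apply,
    smul_eq_mul, smul_eq_mul, ← mul_add, h, mul_zero]

theorem Hd_comm (halt : ∀ x, form x x = 0) (hS : Sys form C N st ε)
    (he : EB form st ε r u g μ w om blk lam e) (a b : Fin m ⊕ Fin m) (hab : blk a = blk b) :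
    ∃ X Y : Module.End K V, Skew form X ∧ Skew form Y ∧ (∀ j, X * ε (r j) = ε (r j) * X) ∧
      (∀ j, Y * ε (r j) = ε (r j) * Y) ∧ Hd form w om a - Hd form w om b = X * Y - Y * X := by
  have hsw : ∀ c : Fin m ⊕ Fin m, c ≠ c.swap := by
    intro c
    rcases c with c | c <;> simp
  have hpair' : ∀ c, form (w c.swap) (w c) = - om c := by
    intro c
    have h3 := he.form_pair c.swap
    rw [Sum.swap_swap, he.oms] at h3
    exact h3
  by_cases hb : b = a.swap
  · subst hb
    refine ⟨(-2 * om a ^ 2)⁻¹ • ss form (w a) (w a), ss form (w a.swap) (w a.swap),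
      skew_smul _ (ss_skew halt _ _), ss_skew halt _ _, ?_, ?_, ?_⟩
    · intro j
      have h1 := ss_eps halt hS he a a.swap hab (r j)
      rw [Sum.swap_swap] at h1
      rw [smul_mul_assoc, mul_smul_comm, h1]
    · intro j
      exact ss_eps halt hS he a.swap a hab.symm (r j)
    · have h1 := comm_ss (ss_skew halt (w a) (w a)) (w a.swap) (w a.swap)
      have h2 : ss form (w a) (w a) (w a.swap) = (-2 * om a) • w a := by
        rw [ss_apply, hpair', ← two_smul K, smul_smul]
        congr 1
        ring
      rw [h2, ss_smul, ss_smul', ss_comm form (w a.swap) (w a), ss_Hd he, ← two_smul K, smul_smul,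
        smul_smul] at h1
      rw [smul_mul_assoc, mul_smul_comm, ← smul_sub, h1, Hd_swap he, sub_neg_eq_add, ← two_smul K,
        smul_smul]
      congr 1
      have h0 := he.omne a
      field_simp
  · have ha : a ≠ b.swap := by
      intro h
      apply hb
      rw [h, Sum.swap_swap]
    refine ⟨(om a * om b)⁻¹ • ss form (w a) (w b.swap), ss form (w b) (w a.swap),
      skew_smul _ (ss_skew halt _ _), ss_skew halt _ _, ?_, ?_, ?_⟩
    · intro j
      rw [smul_mul_assoc, mul_smul_comm, ss_eps halt hS he a b hab (r j)]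
    · intro j
      exact ss_eps halt hS he b a hab.symm (r j)
    · have h1 := comm_ss (ss_skew halt (w a) (w b.swap)) (w b) (w a.swap)
      have h2 : ss form (w a) (w b.swap) (w b) = om b • w a := by
        rw [ss_apply, he.form_zero b a ha, he.form_pair, zero_smul, zero_add]
      have h3 : ss form (w a) (w b.swap) (w a.swap) = (- om a) • w b.swap := by
        rw [ss_apply, hpair', he.form_zero a.swap b.swap (by rw [Sum.swap_swap]; exact ha.symm),
          zero_smul, add_zero]
      rw [h2, h3, ss_smul', ss_smul, ss_Hd he, ss_Hd he, smul_smul, smul_smul] at h1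
      rw [smul_mul_assoc, mul_smul_comm, ← smul_sub, h1, smul_add, smul_smul, smul_smul]
      have h4 : (om a * om b)⁻¹ * (om b * om a) = 1 := by
        rw [mul_comm (om b), inv_mul_cancel₀ (mul_ne_zero (he.omne a) (he.omne b))]
      have h5 : (om a * om b)⁻¹ * (-om a * om b) = -1 := by
        rw [neg_mul, mul_neg, inv_mul_cancel₀ (mul_ne_zero (he.omne a) (he.omne b))]
      rw [h4, h5, one_smul, neg_one_smul, sub_eq_add_neg]

omit [CharZero K] in
theorem ext_mul (hS : Sys form C N st ε) (h : UV form C N st ε r u v) (X Y : Module.End K V)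
    (hY : ∀ j, Y * ε (r j) = ε (r j) * Y) : ext u v X * ext u v Y = ext u v (X * Y) := by
  have h1 : ∀ j, v j * ext u v Y = Y * v j := v_ext hS h hY
  rw [show ext u v X = ∑ j, u j * X * v j from rfl, Finset.sum_mul]
  unfold ext at h1 ⊢
  refine Finset.sum_congr rfl fun j _ => ?_
  rw [mul_assoc, h1, mul_assoc, mul_assoc, mul_assoc]

omit [CharZero K] in
theorem ext_sub (X Y : Module.End K V) : ext u v (X - Y) = ext u v X - ext u v Y := by
  unfold ext
  rw [← Finset.sum_sub_distrib]
  exact Finset.sum_congr rfl fun j _ => by rw [mul_sub, sub_mul]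

omit [CharZero K] in
theorem Hd_eps (halt : ∀ x, form x x = 0) (hS : Sys form C N st ε) (he : EB form st ε r u g μ w om blk lam e)
    (a : Fin m ⊕ Fin m) (j : Fin N) : Hd form w om a * ε j = ε j * Hd form w om a := by
  unfold Hd
  rw [smul_mul_assoc, mul_smul_comm, ss_eps halt hS he a a rfl j]

omit [CharZero K] in
theorem ext_Hd (halt : ∀ x, form x x = 0) (hS : Sys form C N st ε)
    (h : UV form C N st ε r u v) (he : EB form st ε r u g μ w om blk lam e) (a : Fin m ⊕ Fin m)
    (q : {q : Fin N × (Fin m ⊕ Fin m) // r q.1 = blk q.2}) :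
    ext u v (Hd form w om a) (e q) =
      ((if q.1.2 = a then 1 else 0) - (if q.1.2 = a.swap then 1 else 0) : K) • e q := by
  have h1 := ext_u hS h (Y := Hd form w om a) (fun j => Hd_eps halt hS he a (r j)) q.1.1
  have h2 := congrArg (fun M : Module.End K V => M (w q.1.2)) h1
  simp only [Module.End.mul_apply] at h2
  rw [he.basis, h2, Hd_apply halt he, map_smul]

theorem der_Hd (halt : ∀ x, form x x = 0) (hS : Sys form C N st ε)
    (h : UV form C N st ε r u v) (he : EB form st ε r u g μ w om blk lam e)
    (a b : Fin m ⊕ Fin m) (hab : blk a = blk b) :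
    ∃ X Y : Module.End K V, Skew form X ∧ Skew form Y ∧ (∀ c ∈ C, X * c = c * X) ∧
      (∀ c ∈ C, Y * c = c * Y) ∧
      ext u v (Hd form w om a) - ext u v (Hd form w om b) = X * Y - Y * X := by
  obtain ⟨X, Y, hX, hY, hXe, hYe, hXY⟩ := Hd_comm halt hS he a b hab
  refine ⟨ext u v X, ext u v Y, ext_skew hS h hX, ext_skew hS h hY,
    fun c hc => ext_comm hS h hXe hc, fun c hc => ext_comm hS h hYe hc, ?_⟩
  rw [← ext_sub, hXY, ext_sub, ext_mul hS h X Y hYe, ext_mul hS h Y X hXe]

end Pool.Agent.Lib.MP_640417_ag.Dfr
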