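import Pool.Agent.Lib.MP_640417_ag.Dfr.Diag
import Pool.Agent.Lib.MP_640417_ag.Dfr.Basis
import Pool.Agent.Lib.MP_640417_ag.Dfr.Comm
import Pool.Agent.Lib.MP_640417_ag.Dfr.Cent
import Pool.Agent.Lib.MP_640417_ag.Four.Strong
import Pool.Agent.Lib.MP_640417_ag.Four.Iso

/-!
# MP_640417_ag, Dfr, module Core: the center kills all Tate classes

An eigenbasis `e` of `T φ` adapted to `C`, an additive function `θ` on `Kˣ` which detects the
multiplicative relations between the eigenvalues and the multiplier, and the diagonal derivations with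
the values `θ (lam a) - θ μ / 2` and `ext (Hd a) - ext (Hd b)`, `blk a = blk b`, kill the class. A
weight `m` killed by all these gives a relation between the determinants on the components; it is trivial
by hypothesis, and so `m` is killed by the center.
-/

set_option autoImplicit false

namespace Pool.Agent.Lib.MP_640417_ag.Dfr

open Module Pool.Agent.Lib.MP_640417_ag Pool.Agent.Lib.MP_640417_ag.Frob
  Pool.Agent.Lib.MP_640417_ag.Four Pool.Agent.Lib.MP_640417_ag.Lef

variable {K V : Type} [Field K] [CharZero K] [IsAlgClosed K] [AddCommGroup V] [Module K V]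
  [FiniteDimensional K V] {form : LinearMap.BilinForm K V}
  {C : Subalgebra K (Module.End K V)} {N : ℕ} {st : Fin N → Fin N} {ε : Fin N → Module.End K V}
  {r : Fin N → Fin N} {u v : Fin N → Module.End K V}

private theorem core_kappa {N m : ℕ} {st : Fin N → Fin N} (hst : ∀ j, st (st j) = j)
    {blk : Fin m ⊕ Fin m → Fin N} (hblk : ∀ a, blk a.swap = st (blk a))
    (M : Fin m ⊕ Fin m → ℤ) (hM : ∀ a b, blk a = blk b → M a - M a.swap = M b - M b.swap) :
    ∃ κ : Fin N → ℤ, (∀ a, κ (blk a) = M a - M a.swap) ∧ ∀ b, κ (st b) = - κ b := by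
  classical
  let κ : Fin N → ℤ := fun b => if h : ∃ a, blk a = b then M h.choose - M h.choose.swap else 0
  have h1 : ∀ a, κ (blk a) = M a - M a.swap := by
    intro a
    have h : ∃ a', blk a' = blk a := ⟨a, rfl⟩
    simp only [κ, dif_pos h]
    exact hM _ _ h.choose_spec
  refine ⟨κ, h1, fun b => ?_⟩
  by_cases h : ∃ a, blk a = b
  · obtain ⟨a, rfl⟩ := h
    rw [← hblk, h1, h1, Sum.swap_swap]
    ring
  · have h2 : ¬ ∃ a, blk a = st b := by
      rintro ⟨a, ha⟩
      exact h ⟨a.swap, by rw [hblk, ha, hst]⟩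
    simp only [κ, dif_neg h, dif_neg h2, neg_zero]

private theorem core_rel (hS : Sys form C N st ε) (h : UV form C N st ε r u v)
    {g : Module.End K V} {μ : K} {m : ℕ} {w : Fin m ⊕ Fin m → V} {om : Fin m ⊕ Fin m → K}
    {blk : Fin m ⊕ Fin m → Fin N} {lam : Fin m ⊕ Fin m → K}
    {e : Basis {q : Fin N × (Fin m ⊕ Fin m) // r q.1 = blk q.2} K V}
    (he : EB form st ε r u g μ w om blk lam e) (hC : ∀ c ∈ C, c * g = g * c)
    (hfree : DetFreeC form C g) (κ : Fin N → ℤ) (hκ : ∀ b, κ (st b) = - κ b)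
    (N₀ : ℕ) (hN₀ : 0 < N₀) (hrel : (∏ a, lam a ^ κ (blk a)) ^ N₀ = 1) :
    ∀ a, κ (blk a) = 0 := by
  classical
  set c : Fin N → ℕ := fun b => (Finset.univ.filter (fun j => r j = b)).card with hc
  have hcst : ∀ b, c (st b) = c b := by
    intro b
    refine Finset.card_nbij' st st ?_ ?_ ?_ ?_
    · intro j hj
      have h1 : r j = st b := (Finset.mem_filter.1 hj).2
      refine Finset.mem_filter.2 ⟨Finset.mem_univ _, ?_⟩
      rw [h.rst, h1, hS.inv]
    · intro j hj
      have h1 : r j = b := (Finset.mem_filter.1 hj).2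
      refine Finset.mem_filter.2 ⟨Finset.mem_univ _, ?_⟩
      rw [h.rst, h1]
    · intro j _
      exact hS.inv j
    · intro j _
      exact hS.inv j
  have hcblk : ∀ a, c (blk a) ≠ 0 := by
    intro a
    refine Finset.card_ne_zero_of_mem (a := blk a) (Finset.mem_filter.2 ⟨Finset.mem_univ _, ?_⟩)
    exact he.rep a
  set P : ℕ := ∏ b ∈ Finset.univ.filter (fun b => c b ≠ 0), c b with hP
  have hP0 : P ≠ 0 := Finset.prod_ne_zero_iff.2 fun b hb => (Finset.mem_filter.1 hb).2
  have hcP : ∀ b, c b ≠ 0 → c b * (P / c b) = P := fun b hb =>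
    Nat.mul_div_cancel' (Finset.dvd_prod_of_mem c (Finset.mem_filter.2 ⟨Finset.mem_univ _, hb⟩))
  set s : Fin N → ℤ := fun b => N₀ * κ b * ((P / c b : ℕ) : ℤ) with hs
  have hsst : ∀ b, s (st b) = - s b := by
    intro b
    simp only [hs, hκ, hcst]
    ring
  have hskew : Skew form (∑ j, (s j : K) • eC ε r j) := by
    intro x y
    have h1 : form ((∑ j, (s j : K) • eC ε r j) x) y =
        ∑ j, (s j : K) * form x (eC ε r (st j) y) := by
      rw [LinearMap.sum_apply, map_sum, LinearMap.sum_apply]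
      refine Finset.sum_congr rfl fun j _ => ?_
      rw [LinearMap.smul_apply, map_smul, LinearMap.smul_apply, smul_eq_mul, eC_adj hS h]
    have h2 : form x ((∑ j, (s j : K) • eC ε r j) y) = ∑ j, (s j : K) * form x (eC ε r j y) := by
      rw [LinearMap.sum_apply, map_sum]
      refine Finset.sum_congr rfl fun j _ => ?_
      rw [LinearMap.smul_apply, map_smul, smul_eq_mul]
    have h3 : ∑ j, (s j : K) * form x (eC ε r j y) =
        ∑ j, (s (st j) : K) * form x (eC ε r (st j) y) :=
      (Equiv.sum_comp (Function.Involutive.toPerm st hS.inv)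
        (fun j => (s j : K) * form x (eC ε r j y))).symm
    rw [h1, h2, h3, ← Finset.sum_add_distrib]
    refine Finset.sum_eq_zero fun j _ => ?_
    rw [hsst, Int.cast_neg]
    ring
  have hcen : CenRel form C (fun b => eC ε r b) s :=
    { mem := eC_mem hS
      cen := fun j c hc => eC_cen hS h j hc
      idem := eC_idem hS
      orth := fun i j hij => eC_orth hS hij
      skew := hskew }
  have hdet : detProd (fun b => eC ε r b) s g = 1 := by
    unfold detProd
    have h3 : ∀ b, LinearMap.det (eC ε r b * g + (1 - eC ε r b)) ^ s b =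
        (∏ a ∈ Finset.univ.filter (fun a => blk a = b), lam a ^ κ (blk a)) ^ (N₀ * P) := by
      intro b
      rw [det_eC hS h he hC]
      change ((∏ a ∈ Finset.univ.filter (fun a => blk a = b), lam a) ^ c b) ^ s b = _
      have h4 : ∏ a ∈ Finset.univ.filter (fun a => blk a = b), lam a ^ κ (blk a) =
          (∏ a ∈ Finset.univ.filter (fun a => blk a = b), lam a) ^ κ b := by
        rw [← Finset.prod_zpow]
        refine Finset.prod_congr rfl fun a ha => ?_
        rw [(Finset.mem_filter.1 ha).2]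
      rw [h4]
      by_cases h0 : c b = 0
      · have h5 : Finset.univ.filter (fun a => blk a = b) = ∅ := by
          rw [Finset.filter_eq_empty_iff]
          rintro a _ rfl
          exact hcblk a h0
        rw [h5, Finset.prod_empty, one_pow, one_zpow, one_zpow, one_pow]
      · have h6 : ((c b : ℕ) : ℤ) * ((P / c b : ℕ) : ℤ) = (P : ℤ) := by
          exact_mod_cast hcP b h0
        rw [← zpow_natCast _ (c b), ← zpow_mul, ← zpow_natCast _ (N₀ * P), ← zpow_mul]
        congr 1
        simp only [hs]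
        push_cast
        push_cast at h6
        linear_combination (N₀ * κ b : ℤ) * h6
    rw [Finset.prod_congr rfl fun b _ => h3 b, Finset.prod_pow,
      Finset.prod_fiberwise Finset.univ blk (fun a => lam a ^ κ (blk a)), pow_mul, hrel, one_pow]
  have hzero := hfree N (fun b => eC ε r b) s hcen hdet
  intro a
  have h1 := LinearMap.congr_fun hzero (e ⟨(blk a, a), he.rep a⟩)
  rw [LinearMap.sum_apply, LinearMap.zero_apply, Finset.sum_eq_single (blk a)] at h1
  · rw [LinearMap.smul_apply, eC_apply hS h he, if_pos rfl] at h1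
    have h2 : (s (blk a) : K) = 0 := (smul_eq_zero.1 h1).resolve_right (e.ne_zero _)
    have h3 : s (blk a) = 0 := by exact_mod_cast h2
    simp only [hs] at h3
    have h4 : ((P / c (blk a) : ℕ) : ℤ) ≠ 0 := by
      intro h5
      have h6 : P / c (blk a) = 0 := by exact_mod_cast h5
      apply hP0
      rw [← hcP (blk a) (hcblk a), h6, mul_zero]
    have h5 := (mul_eq_zero.1 h3).resolve_right h4
    exact (mul_eq_zero.1 h5).resolve_left (by exact_mod_cast hN₀.ne')
  · intro b _ hb
    rw [LinearMap.smul_apply, eC_apply hS h he, if_neg (Ne.symm hb), smul_zero]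
  · intro h2
    exact absurd (Finset.mem_univ _) h2

theorem kills_center {Γ : Type} [Group Γ] [TopologicalSpace Γ] [IsTopologicalGroup Γ]
    [CompactSpace Γ] (T : Γ →* Module.End K V) (χ : Γ →* Kˣ)
    (halt : ∀ x, form x x = 0) (hnd : ∀ x, (∀ y, form x y = 0) → x = 0)
    (heq : ∀ γ x y, form (T γ x) (T γ y) = ((χ γ)⁻¹ : Kˣ).val * form x y)
    (hS : Sys form C N st ε) (h : UV form C N st ε r u v) (φ : Γ) (hC : ∀ c ∈ C, c * T φ = T φ * c)
    (hφ : (T φ).IsSemisimple) (hfree : DetFreeC form C (T φ))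
    (n i : ℕ) (x : ExteriorAlgebra K (Fin n → V))
    (hx : TateClass (fun γ => (T γ).compLeft (Fin n)) χ i x)
    (hder : ∀ X Y : Module.End K V, Skew form X → Skew form Y → (∀ c ∈ C, X * c = c * X) →
      (∀ c ∈ C, Y * c = c * Y) → Dv n (X * Y - Y * X) x = 0)
    (z : Module.End K V) (hz : z ∈ C) (hzc : ∀ c ∈ C, c * z = z * c) (hzs : Skew form z) :
    Dv n z x = 0 := by
  classical
  set Q : Kˣ := (χ φ)⁻¹ with hQ
  obtain ⟨m, w, om, blk, lam, e, he⟩ := exists_eb halt hnd hS h (T φ) hφ Q.val (Units.ne_zero Q)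
    (fun x y => heq φ x y) hC
  have hlam : ∀ a, lam a ≠ 0 := by
    intro a h0
    have h1 := he.dual a
    rw [h0, zero_mul] at h1
    exact Units.ne_zero Q h1.symm
  have heig : ∀ q, T φ (e q) = lam q.1.2 • e q := by
    intro q
    have h1 := LinearMap.congr_fun (hC _ (h.uC q.1.1)) (w q.1.2)
    rw [Module.End.mul_apply, Module.End.mul_apply, he.eig, map_smul] at h1
    rw [he.basis, ← h1]
  -- the additive function
  let l : Fin m ⊕ Fin m → Kˣ := fun a => Units.mk0 (lam a) (hlam a)
  have hll : ∀ a, l a * l a.swap = Q := fun a => Units.ext (he.dual a)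
  obtain ⟨θ, hθ⟩ := exists_additive_strong Kˣ K l
  let Θ : Kˣ → K := fun g => θ (Additive.ofMul g)
  have hmul : ∀ g h, Θ (g * h) = Θ g + Θ h := fun g h => by
    simp only [Θ, ofMul_mul, map_add]
  have hpow : ∀ g (k : ℕ), Θ (g ^ k) = k * Θ g := fun g k => by
    simp only [Θ, ofMul_pow, map_nsmul, nsmul_eq_mul]
  have hΘQ : ∀ a, Θ (l a) + Θ (l a.swap) = Θ Q := fun a => by rw [← hmul, hll]
  have h2K : (2 : K) ≠ 0 := two_ne_zero
  let t : {q : Fin N × (Fin m ⊕ Fin m) // r q.1 = blk q.2} → K := fun q =>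
    Θ (l q.1.2) - Θ Q / 2
  let tt : Module.End K V := e.constr K (fun q => t q • e q)
  have htt : ∀ q, tt (e q) = t q • e q := fun q => e.constr_basis K _ q
  have hkill : Dv n tt x = 0 := by
    refine kills_generic T χ φ e (fun q => lam q.1.2) t heig tt htt ?_ n i x hx
    intro k j M hM hk hrel
    have h1 : (∏ q, l q.1.2 ^ k q) ^ M = (Q ^ j) ^ M := by
      apply Units.ext
      push_cast
      exact hrel
    have hprod : Θ (∏ q, l q.1.2 ^ k q) = ∑ q, (k q : K) * Θ (l q.1.2) := by
      have h1 : Θ (∏ q, l q.1.2 ^ k q) = ∑ q, Θ (l q.1.2 ^ k q) := by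
        simp only [Θ, ofMul_prod, map_sum]
      rw [h1]
      exact Finset.sum_congr rfl fun q _ => hpow _ _
    have h3 : Θ ((∏ q, l q.1.2 ^ k q) ^ M) = Θ ((Q ^ j) ^ M) := by rw [h1]
    rw [hpow, hpow, hprod, hpow] at h3
    have hN' : (M : K) ≠ 0 := Nat.cast_ne_zero.mpr hM.ne'
    have h4 := mul_left_cancel₀ hN' h3
    simp only [t, mul_sub]
    rw [Finset.sum_sub_distrib, h4, ← Finset.sum_mul]
    have h5 : ∑ q, (k q : K) = 2 * j := by exact_mod_cast hk
    rw [h5]
    ring
  obtain ⟨tz, htz, hz'⟩ := cen_coef halt hnd hS h he hz hzc hzs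
  -- the family of derivations
  let κt : Type := {ab : (Fin m ⊕ Fin m) × (Fin m ⊕ Fin m) // blk ab.1 = blk ab.2}
  let dl : Fin m ⊕ Fin m → Fin m ⊕ Fin m → K := fun a c =>
    (if c = a then 1 else 0) - (if c = a.swap then 1 else 0)
  let X : Option κt → Module.End K V := fun o => o.elim tt fun ab =>
    ext u v (Hd form w om ab.1.1) - ext u v (Hd form w om ab.1.2)
  let f : Option κt → {q : Fin N × (Fin m ⊕ Fin m) // r q.1 = blk q.2} → K := fun o =>
    o.elim t fun ab q => dl ab.1.1 q.1.2 - dl ab.1.2 q.1.2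
  refine Dv_kills e X f ?_ z (fun q => tz (blk q.1.2)) hz' n (2 * i) ?_ x hx.1 ?_
  · rintro (_ | ab) q
    · exact htt q
    · change (ext u v (Hd form w om ab.1.1) - ext u v (Hd form w om ab.1.2)) (e q) =
        (dl ab.1.1 q.1.2 - dl ab.1.2 q.1.2) • e q
      rw [LinearMap.sub_apply, ext_Hd halt hS h he, ext_Hd halt hS h he, ← sub_smul]
  · intro mq hmq hf
    set M : Fin m ⊕ Fin m → ℕ := fun a =>
      ∑ q ∈ Finset.univ.filter (fun q : {q : Fin N × (Fin m ⊕ Fin m) // r q.1 = blk q.2} =>
        q.1.2 = a), mq q with hM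
    have hsum : ∀ F : Fin m ⊕ Fin m → K,
        ∑ q, (mq q : K) * F q.1.2 = ∑ a, (M a : K) * F a := by
      intro F
      rw [← Finset.sum_fiberwise Finset.univ
        (fun q : {q : Fin N × (Fin m ⊕ Fin m) // r q.1 = blk q.2} => q.1.2)
        (fun q => (mq q : K) * F q.1.2)]
      refine Finset.sum_congr rfl fun a _ => ?_
      simp only [hM]
      rw [Nat.cast_sum, Finset.sum_mul]
      refine Finset.sum_congr rfl fun q hq => ?_
      rw [(Finset.mem_filter.1 hq).2]
    have hdl : ∀ a, ∑ c, (M c : K) * dl a c = (M a : K) - M a.swap := by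
      intro a
      simp only [dl, mul_sub, mul_ite, mul_one, mul_zero, Finset.sum_sub_distrib,
        Finset.sum_ite_eq', Finset.mem_univ, if_true]
    have hMab : ∀ a b, blk a = blk b →
        (M a : ℤ) - M a.swap = (M b : ℤ) - M b.swap := by
      intro a b hab
      have h1 := hf (some ⟨(a, b), hab⟩)
      have h2 : ∑ q, (mq q : K) * (dl a q.1.2 - dl b q.1.2) = 0 := h1
      rw [hsum (fun c => dl a c - dl b c)] at h2
      simp only [mul_sub, Finset.sum_sub_distrib] at h2
      rw [hdl, hdl, sub_eq_zero] at h2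
      exact_mod_cast h2
    obtain ⟨κ, hκ1, hκ2⟩ := core_kappa hS.inv he.blks (fun a => (M a : ℤ)) hMab
    have hswap : ∀ F : Fin m ⊕ Fin m → K, ∑ a : Fin m ⊕ Fin m, F a.swap = ∑ a, F a := fun F =>
      Equiv.sum_comp (Equiv.sumComm (Fin m) (Fin m)) F
    have htsum : ∑ a, (M a : K) * (Θ (l a) - Θ Q / 2) = 0 := by
      have h1 : ∑ q, (mq q : K) * (Θ (l q.1.2) - Θ Q / 2) = 0 := hf none
      rw [hsum (fun a => Θ (l a) - Θ Q / 2)] at h1
      exact h1
    have hκsum : ∑ a, ((κ (blk a) : ℤ) : K) * θ (Additive.ofMul (l a)) = 0 := by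
      have h1 : ∀ a, ((κ (blk a) : ℤ) : K) * θ (Additive.ofMul (l a)) =
          (M a : K) * Θ (l a) - (M a.swap : K) * Θ (l a) := by
        intro a
        rw [hκ1]
        push_cast
        ring
      rw [Finset.sum_congr rfl fun a _ => h1 a, Finset.sum_sub_distrib]
      have h2 : ∑ a, (M a.swap : K) * Θ (l a) = ∑ a, (M a : K) * Θ (l a.swap) := by
        rw [← hswap (fun a => (M a : K) * Θ (l a.swap))]
        refine Finset.sum_congr rfl fun a _ => ?_
        rw [Sum.swap_swap]
      rw [h2, ← Finset.sum_sub_distrib]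
      have h3 : ∀ a, (M a : K) * Θ (l a) - (M a : K) * Θ (l a.swap) =
          2 * ((M a : K) * (Θ (l a) - Θ Q / 2)) := by
        intro a
        rw [← hΘQ a]
        field_simp
        ring
      rw [Finset.sum_congr rfl fun a _ => h3 a, ← Finset.mul_sum, htsum, mul_zero]
    obtain ⟨N₀, hN₀, hrel⟩ := hθ (fun a => κ (blk a)) hκsum
    have hrel' : (∏ a, lam a ^ κ (blk a)) ^ N₀ = 1 := by
      have h1 := congrArg Units.val hrel
      push_cast at h1
      exact h1
    have hκ0 := core_rel hS h he hC hfree κ hκ2 N₀ hN₀ hrel'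
    have hMM : ∀ a, M a.swap = M a := by
      intro a
      have h1 := hκ1 a
      rw [hκ0, eq_comm, sub_eq_zero] at h1
      exact_mod_cast h1.symm
    rw [hsum (fun a => tz (blk a))]
    have h1 : ∑ a, (M a : K) * tz (blk a) = -∑ a, (M a : K) * tz (blk a) := by
      conv_lhs => rw [← hswap (fun a => (M a : K) * tz (blk a))]
      rw [← Finset.sum_neg_distrib]
      refine Finset.sum_congr rfl fun a _ => ?_
      rw [hMM, he.blks, htz]
      ring
    have h2 : (2 : K) * ∑ a, (M a : K) * tz (blk a) = 0 := by linear_combination h1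
    exact (mul_eq_zero.1 h2).resolve_left h2K
  · rintro (_ | ab)
    · exact hkill
    · obtain ⟨Y, Z, hY, hZ, hYC, hZC, hYZ⟩ := der_Hd halt hS h he ab.1.1 ab.1.2 ab.2
      change Dv n (ext u v (Hd form w om ab.1.1) - ext u v (Hd form w om ab.1.2)) x = 0
      rw [hYZ]
      exact hder Y Z hY hZ hYC hZC

end Pool.Agent.Lib.MP_640417_ag.Dfr
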