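import Pool.Agent.Lib.MP_640417_ag.Lef.Defs
import Pool.Agent.Lib.MP_640417_ag.Ctl.Defs

/-!
# MP_640417_ag, Dfr (determinants of the components): definitions
-/

set_option autoImplicit false

namespace Pool.Agent.Lib.MP_640417_ag.Dfr

open Module TensorProduct Pool.Agent.Lib.MP_640417_ag Pool.Agent.Lib.MP_640417_ag.Frob
  Pool.Agent.Lib.MP_640417_ag.Four Pool.Agent.Lib.MP_640417_ag.Ty
  Pool.Agent.Lib.MP_640417_ag.Lef

section alg

variable {K V : Type} [Field K] [AddCommGroup V] [Module K V]

/-- `p` is a family of orthogonal central idempotents of `C`, and `∑ s j • p j` is skew. -/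
structure CenRel (form : LinearMap.BilinForm K V) (C : Subalgebra K (Module.End K V)) {k : ℕ}
    (p : Fin k → Module.End K V) (s : Fin k → ℤ) : Prop where
  mem : ∀ j, p j ∈ C
  cen : ∀ j, ∀ c ∈ C, c * p j = p j * c
  idem : ∀ j, p j * p j = p j
  orth : ∀ i j, i ≠ j → p i * p j = 0
  skew : Skew form (∑ j, (s j : K) • p j)

/-- the product of the powers of the determinants of `g` on the ranges of the `p j` -/
noncomputable def detProd {k : ℕ} (p : Fin k → Module.End K V) (s : Fin k → ℤ)
    (g : Module.End K V) : K := ∏ j, LinearMap.det (p j * g + (1 - p j)) ^ s j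

/-- The determinants of `g` on the components satisfy only trivial relations. -/
def DetFreeC (form : LinearMap.BilinForm K V) (C : Subalgebra K (Module.End K V))
    (g : Module.End K V) : Prop :=
  ∀ (k : ℕ) (p : Fin k → Module.End K V) (s : Fin k → ℤ), CenRel form C p s →
    detProd p s g = 1 → ∑ j, (s j : K) • p j = 0

/-- An eigenbasis `e` of `g` which consists of the images under the `u j` of a symplectic basis `w` of the
sum of the ranges of the `ε (r j)`. -/
structure EB (form : LinearMap.BilinForm K V) {N : ℕ} (st : Fin N → Fin N)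
    (ε : Fin N → Module.End K V) (r : Fin N → Fin N) (u : Fin N → Module.End K V)
    (g : Module.End K V) (μ : K) {m : ℕ} (w : Fin m ⊕ Fin m → V) (om : Fin m ⊕ Fin m → K)
    (blk : Fin m ⊕ Fin m → Fin N) (lam : Fin m ⊕ Fin m → K)
    (e : Basis {q : Fin N × (Fin m ⊕ Fin m) // r q.1 = blk q.2} K V) : Prop where
  omne : ∀ a, om a ≠ 0
  oms : ∀ a, om a.swap = - om a
  form_pair : ∀ a, form (w a) (w a.swap) = om a
  form_zero : ∀ a b, b ≠ a.swap → form (w a) (w b) = 0
  rep : ∀ a, r (blk a) = blk a
  pe : ∀ a, ε (blk a) (w a) = w a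
  blks : ∀ a, blk a.swap = st (blk a)
  eig : ∀ a, g (w a) = lam a • w a
  dual : ∀ a, lam a * lam a.swap = μ
  basis : ∀ q, e q = u q.1.1 (w q.1.2)

/-- the difference of the projections to the lines of `w a` and of its dual -/
noncomputable def Hd (form : LinearMap.BilinForm K V) {m : ℕ} (w : Fin m ⊕ Fin m → V)
    (om : Fin m ⊕ Fin m → K) (a : Fin m ⊕ Fin m) : Module.End K V :=
  (om a)⁻¹ • ss form (w a) (w a.swap)

end alg

section rep

variable {Γ : Type} [Group Γ] [TopologicalSpace Γ] {F : Type} [Field F]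
  [TopologicalSpace F] {V : Type} [AddCommGroup V] [Module F V]

/-- the commutant over `K` as a subalgebra -/
noncomputable def comK (ρ : H1Rep Γ F V) :
    Subalgebra (AlgebraicClosure F) (Module.End (AlgebraicClosure F) (AlgebraicClosure F ⊗[F] V)) where
  carrier := {c | CommK ρ c}
  mul_mem' := by
    rintro a b ⟨U, hU⟩ ⟨W, hW⟩
    refine ⟨U ⊓ W, fun γ hγ => ?_⟩
    rw [mul_assoc, hW γ hγ.2, ← mul_assoc, hU γ hγ.1, mul_assoc]
  add_mem' := by
    rintro a b ⟨U, hU⟩ ⟨W, hW⟩
    refine ⟨U ⊓ W, fun γ hγ => ?_⟩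
    rw [add_mul, mul_add, hU γ hγ.1, hW γ hγ.2]
  algebraMap_mem' := by
    intro c
    exact ⟨⊤, fun γ _ => Algebra.commutes c _⟩

/-- **No relations between determinants.** For orthogonal idempotents `p j` in the center of the commutant (over an
algebraic closure) and integers `s j` such that `∑ s j • p j` is skew, the product of the
`det (γ | p j V) ^ s j` is `1` only if `∑ s j • p j = 0`. -/
def DetFree (ρ : H1Rep Γ F V) (γ : Γ) : Prop :=
  DetFreeC (ρ.form.baseChange (AlgebraicClosure F)) (comK ρ)
    ((ρ.T γ).baseChange (AlgebraicClosure F))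

/-- **A Weil relation**: orthogonal idempotents `p j` in the center of the commutant (over an algebraic closure)
and integers `s j` such that `∑ s j • p j` is skew and nonzero, and the product of the
`det (γ | p j V) ^ s j` is `1` for all `γ` in an open subgroup. -/
def WeilRel (ρ : H1Rep Γ F V) : Prop :=
  ∃ (k : ℕ) (p : Fin k → Module.End (AlgebraicClosure F) (AlgebraicClosure F ⊗[F] V))
    (s : Fin k → ℤ), CenRel (ρ.form.baseChange (AlgebraicClosure F)) (comK ρ) p s ∧
    ∑ j, (s j : AlgebraicClosure F) • p j ≠ 0 ∧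
    ∃ U : OpenSubgroup Γ, ∀ γ ∈ U, detProd p s ((ρ.T γ).baseChange (AlgebraicClosure F)) = 1

end rep

end Pool.Agent.Lib.MP_640417_ag.Dfr
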