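import Pool.Agent.Lib.MP_640417_ag.Dfr.FullK
import Pool.Agent.Lib.MP_640417_ag.Lef.SkewL
import Pool.Agent.Lib.MP_640417_ag.Ctl.Main
import Pool.Agent.Lib.MP_640417_ag.Glob.Div
import Pool.Agent.Lib.MP_640417_ag.Four.Expand
import Pool.Agent.Lib.MP_640417_ag.Four.Main

/-!
# MP_640417_ag, Dfr, module Der (200 lines): the derived algebra kills all Tate classes

* `der_F`: in the basis `e` let `A + Z`, `A' + Z'` be the matrices of `X`, `Y` with `A, A' ∈ R.Hh l`, `Z, Z' ∈ Zm R`. `Zm` commutes with `Hh`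
  and with itself, so `X Y - Y X` has the matrix `A A' - A' A ∈ Hh`. `coord_dv` (`Ctl/CoordD.lean`) and `hh_tate` (`Ctl/Tang.lean`).
* `der_K`: by `sum_cp` (`Four/Span.lean`) `X = ∑ b t • (X_t).baseChange K`, `Y = ∑ b t • (Y_t).baseChange K`, `X_t = cp (b.coord t) X` etc. are
  Lefschetz. So `X Y - Y X = ∑ b t b t' • (X_t Y_t' - Y_t' X_t).baseChange K`; `Dv_be` (`Lef/SkewL.lean`), `Dv_sum`, `Dv_smul`.
* `div_kills`: `Dv n X` is a derivation, so it is enough to treat the generators (Tate classes of codimension 1); in coordinates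
  (`coord_dv`) the Cayley transforms of the matrix of `X` fix the class (`div_inv`), then `pExpand` (`Four/Expand.lean`).
-/

set_option autoImplicit false

namespace Pool.Agent.Lib.MP_640417_ag.Dfr

open Module TensorProduct Pool.Agent.Lib.MP_640417_ag Pool.Agent.Lib.MP_640417_ag.Frob
  Pool.Agent.Lib.MP_640417_ag.Four Pool.Agent.Lib.MP_640417_ag.Ty
  Pool.Agent.Lib.MP_640417_ag.Lef Pool.Agent.Lib.MP_640417_ag.Ctl
  Pool.Agent.Lib.MP_640417_ag.Glob

theorem der_F (l : ℕ) [Fact l.Prime] {Γ : Type} [Group Γ]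
    [TopologicalSpace Γ] [IsTopologicalGroup Γ] [CompactSpace Γ] {V : Type} [AddCommGroup V]
    [Module ℚ_[l] V] [FiniteDimensional ℚ_[l] V] (ρ : H1Rep Γ ℚ_[l] V) {I : Type} [Fintype I]
    [DecidableEq I] (e : Basis I ℚ_[l] V) (R : MRep Γ ℚ_[l] I)
    (h1 : ∀ γ, R.M γ = LinearMap.toMatrix e e (ρ.T γ)) (h2 : R.μ = ρ.χ⁻¹)
    (h3 : ∀ i j, R.J i j = ρ.form (e i) (e j)) (X Y : Module.End ℚ_[l] V)
    (hX : LinearMap.toMatrix e e X ∈ Hp R l) (hY : LinearMap.toMatrix e e Y ∈ Hp R l)
    (n i : ℕ) (x : ExteriorAlgebra ℚ_[l] (Fin n → V))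
    (hx : TateClass (fun γ => (ρ.T γ).compLeft (Fin n)) ρ.χ i x) :
    Dv n (X * Y - Y * X) x = 0 := by
  have hl : ‖(l : ℚ_[l])‖ < 1 := by
    rw [Padic.norm_p]
    exact inv_lt_one_of_one_lt₀ (by exact_mod_cast (Fact.out : l.Prime).one_lt)
  have hl0 : (l : ℚ_[l]) ≠ 0 := by exact_mod_cast (Fact.out : l.Prime).ne_zero
  obtain ⟨y, hy, hy'⟩ := coord_dv ρ e R h1 h2 n i x hx
  rw [← hy']
  obtain ⟨A, hA, Z, hZ, hAZ⟩ := Submodule.mem_sup.mp hX
  obtain ⟨A', hA', Z', hZ', hAZ'⟩ := Submodule.mem_sup.mp hY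
  have e1 : A * Z' = Z' * A := Hh_comm_C R l hl hl0 hA hZ'.1
  have e2 : A' * Z = Z * A' := Hh_comm_C R l hl hl0 hA' hZ.1
  have e3 : Z * Z' = Z' * Z := hZ.2.1 Z' hZ'.1
  have h4 : LinearMap.toMatrix e e (X * Y - Y * X) = A * A' - A' * A := by
    rw [map_sub, LinearMap.toMatrix_mul, LinearMap.toMatrix_mul, ← hAZ, ← hAZ']
    simp only [add_mul, mul_add]
    rw [e1, e2, e3]
    abel
  rw [h4]
  exact hh_tate R l hl hl0 _ (Hh_lie R l hl hl0 hA hA') n i y hy

private theorem der_sub {K V : Type} [Field K] [AddCommGroup V] [Module K V] {α β : Type}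
    (τ : Finset α) (τ' : Finset β) (c : α → β → K) (f g : α → β → Module.End K V) :
    ∑ t ∈ τ, ∑ t' ∈ τ', c t t' • f t t' - ∑ t ∈ τ, ∑ t' ∈ τ', c t t' • g t t' =
      ∑ t ∈ τ, ∑ t' ∈ τ', c t t' • (f t t' - g t t') := by
  rw [← Finset.sum_sub_distrib]
  refine Finset.sum_congr rfl fun t _ => ?_
  rw [← Finset.sum_sub_distrib]
  refine Finset.sum_congr rfl fun t' _ => ?_
  rw [smul_sub]

theorem der_K {F : Type} [Field F] [CharZero F] [TopologicalSpace F] {V : Type} [AddCommGroup V]
    [Module F V] [FiniteDimensional F V] {Γ : Type} [Group Γ] [TopologicalSpace Γ]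
    (ρ : H1Rep Γ F V) (n : ℕ) (x : ExteriorAlgebra F (Fin n → V))
    (hx : ∀ X Y, Lefschetz ρ X → Lefschetz ρ Y → Dv n (X * Y - Y * X) x = 0)
    (X Y : Module.End (AlgebraicClosure F) (AlgebraicClosure F ⊗[F] V))
    (hX : Skew (ρ.form.baseChange (AlgebraicClosure F)) X)
    (hXc : ∀ c ∈ comK ρ, X * c = c * X)
    (hY : Skew (ρ.form.baseChange (AlgebraicClosure F)) Y)
    (hYc : ∀ c ∈ comK ρ, Y * c = c * Y) :
    Dv n (X * Y - Y * X) (be (AlgebraicClosure F) n x) = 0 := by
  classical
  have hanti : ∀ u v, ρ.form u v = - ρ.form v u := anti ρ.form_alt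
  have hanti' : ∀ u v, ρ.form.baseChange (AlgebraicClosure F) u v =
      - ρ.form.baseChange (AlgebraicClosure F) v u :=
    anti (alt_baseChange (AlgebraicClosure F) ρ.form ρ.form_alt)
  let b := Module.Free.chooseBasis F (AlgebraicClosure F)
  have hlef : ∀ Z : Module.End (AlgebraicClosure F) (AlgebraicClosure F ⊗[F] V),
      Skew (ρ.form.baseChange (AlgebraicClosure F)) Z → (∀ c ∈ comK ρ, Z * c = c * Z) →
      ∀ t, Lefschetz ρ (cp (b.coord t) Z) := by
    intro Z hZ hZc t
    refine ⟨fun c hc => ?_, fun u v => ?_⟩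
    · rw [← cp_mul_baseChange, ← cp_baseChange_mul, hZc _ (base_mem ρ hc)]
    · rw [hanti u, form_cp, form_cp, ← map_neg, ← hanti', ← map_add, hZ, map_zero]
  obtain ⟨τ, hτ⟩ := sum_cp b X
  obtain ⟨τ', hτ'⟩ := sum_cp b Y
  have h1 : X * Y - Y * X = ∑ t ∈ τ, ∑ t' ∈ τ', (b t * b t') •
      (cp (b.coord t) X * cp (b.coord t') Y - cp (b.coord t') Y *
        cp (b.coord t) X).baseChange (AlgebraicClosure F) := by
    have h2 : X * Y = ∑ t ∈ τ, ∑ t' ∈ τ', (b t * b t') •
        (cp (b.coord t) X * cp (b.coord t') Y).baseChange (AlgebraicClosure F) := by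
      conv_lhs => rw [hτ, hτ', Finset.sum_mul_sum]
      refine Finset.sum_congr rfl fun t _ => Finset.sum_congr rfl fun t' _ => ?_
      rw [smul_mul_assoc, mul_smul_comm, smul_smul, LinearMap.baseChange_mul]
    have h3 : Y * X = ∑ t ∈ τ, ∑ t' ∈ τ', (b t * b t') •
        (cp (b.coord t') Y * cp (b.coord t) X).baseChange (AlgebraicClosure F) := by
      conv_lhs => rw [hτ, hτ', Finset.sum_mul_sum, Finset.sum_comm]
      refine Finset.sum_congr rfl fun t _ => Finset.sum_congr rfl fun t' _ => ?_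
      rw [smul_mul_assoc, mul_smul_comm, smul_smul, LinearMap.baseChange_mul, mul_comm (b t')]
    rw [h2, h3]
    refine (der_sub τ τ' (fun t t' => b t * b t') _ _).trans ?_
    refine Finset.sum_congr rfl fun t _ => Finset.sum_congr rfl fun t' _ => ?_
    rw [LinearMap.baseChange_sub]
  rw [h1, Dv_sum, LinearMap.sum_apply]
  refine Finset.sum_eq_zero fun t _ => ?_
  rw [Dv_sum, LinearMap.sum_apply]
  refine Finset.sum_eq_zero fun t' _ => ?_
  rw [Dv_smul, LinearMap.smul_apply, Dv_be,
    hx _ _ (hlef X hX hXc t) (hlef Y hY hYc t'), map_zero, smul_zero]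

/-- The Leibniz rule. -/
private theorem der_leib {F W : Type} [Field F] [AddCommGroup W] [Module F W]
    {D : Module.End F (ExteriorAlgebra F W)} {s : Module.End F W} (h : IsDer D s)
    (x y : ExteriorAlgebra F W) : D (x * y) = D x * y + x * D y := by
  induction x using CliffordAlgebra.left_induction with
  | algebraMap r =>
    change D (algebraMap F (ExteriorAlgebra F W) r * y) =
      D (algebraMap F (ExteriorAlgebra F W) r) * y + algebraMap F (ExteriorAlgebra F W) r * D y
    rw [h.1, zero_mul, zero_add, ← Algebra.smul_def, ← Algebra.smul_def, map_smul]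
  | add x x' hx hx' => rw [add_mul, map_add, map_add, add_mul, add_mul, hx, hx']; abel
  | ι_mul x m hx =>
    change D (ExteriorAlgebra.ι F m * x * y) = D (ExteriorAlgebra.ι F m * x) * y +
      ExteriorAlgebra.ι F m * x * D y
    rw [mul_assoc, h.2, h.2, hx, mul_add, add_mul, mul_assoc, mul_assoc, mul_assoc, add_assoc]

/-- the Cayley transform of a matrix in the symplectic Lie algebra -/
private theorem der_cayley {F : Type} [Field F] {I : Type} [Fintype I] [DecidableEq I]
    (J A : Matrix I I F) (hA : A.transpose * J + J * A = 0) (r : F)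
    (hr : IsUnit (1 - r • A)) :
    ∃ S : Matrix I I F, S.transpose * J * S = J ∧
      (∀ c : Matrix I I F, A * c = c * A → S * c = c * S) ∧
      (1 - r • A) * S = 1 + r • A := by
  obtain ⟨w, hw⟩ := hr
  have hcomm : (1 - r • A) * (1 + r • A) = (1 + r • A) * (1 - r • A) := by
    generalize r • A = a
    noncomm_ring
  have hinv : ∀ c : Matrix I I F, A * c = c * A → (w⁻¹).val * c = c * (w⁻¹).val := by
    intro c hc
    have h2 : w.val * c = c * w.val := by
      rw [hw, sub_mul, mul_sub, one_mul, mul_one, smul_mul_assoc, mul_smul_comm, hc]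
    calc (w⁻¹).val * c = (w⁻¹).val * (c * (w.val * (w⁻¹).val)) := by rw [Units.mul_inv, mul_one]
      _ = (w⁻¹).val * (c * w.val) * (w⁻¹).val := by simp only [mul_assoc]
      _ = (w⁻¹).val * (w.val * c) * (w⁻¹).val := by rw [h2]
      _ = c * (w⁻¹).val := by rw [← mul_assoc (w⁻¹).val, Units.inv_mul, one_mul]
  refine ⟨(1 + r • A) * (w⁻¹).val, ?_, ?_, ?_⟩
  · have h1 : (1 + r • A).transpose * J * (1 + r • A) =
        (1 - r • A).transpose * J * (1 - r • A) := by
      have hB : (r • A).transpose * J + J * (r • A) = 0 := by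
        rw [Matrix.transpose_smul, smul_mul_assoc, mul_smul_comm, ← smul_add, hA, smul_zero]
      generalize r • A = B at hB
      have e1 : (1 + B).transpose * J * (1 + B) = J + (B.transpose * J + J * B) +
          B.transpose * J * B := by
        rw [Matrix.transpose_add, Matrix.transpose_one]
        simp only [add_mul, mul_add, one_mul, mul_one]
        abel
      have e2 : (1 - B).transpose * J * (1 - B) = J - (B.transpose * J + J * B) +
          B.transpose * J * B := by
        rw [Matrix.transpose_sub, Matrix.transpose_one]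
        simp only [sub_mul, mul_sub, one_mul, mul_one]
        abel
      rw [e1, e2, hB, add_zero, sub_zero]
    have h3 : (w⁻¹).val.transpose * w.val.transpose = 1 := by
      rw [← Matrix.transpose_mul, Units.mul_inv, Matrix.transpose_one]
    calc ((1 + r • A) * (w⁻¹).val).transpose * J * ((1 + r • A) * (w⁻¹).val) =
        (w⁻¹).val.transpose * ((1 + r • A).transpose * J * (1 + r • A)) * (w⁻¹).val := by
          rw [Matrix.transpose_mul]
          simp only [mul_assoc]
      _ = (w⁻¹).val.transpose * (w.val.transpose * J * w.val) * (w⁻¹).val := by rw [h1, hw]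
      _ = ((w⁻¹).val.transpose * w.val.transpose) * J * (w.val * (w⁻¹).val) := by
          simp only [mul_assoc]
      _ = J := by rw [h3, Units.mul_inv, one_mul, mul_one]
  · intro c hc
    have h1 : (1 + r • A) * c = c * (1 + r • A) := by
      rw [add_mul, mul_add, one_mul, mul_one, smul_mul_assoc, mul_smul_comm, hc]
    rw [mul_assoc, hinv c hc, ← mul_assoc, h1, mul_assoc]
  · rw [← mul_assoc, hcomm, mul_assoc, ← hw, Units.mul_inv, mul_one]

theorem div_kills {F : Type} [NontriviallyNormedField F] [CharZero F] {V : Type} [AddCommGroup V]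
    [Module F V] [FiniteDimensional F V] {Γ : Type} [Group Γ] [TopologicalSpace Γ]
    (ρ : H1Rep Γ F V) (n : ℕ) (x : ExteriorAlgebra F (Fin n → V))
    (hx : x ∈ divisorAlg (fun γ => (ρ.T γ).compLeft (Fin n)) ρ.χ) (X : Module.End F V)
    (hX : Lefschetz ρ X) : Dv n X x = 0 := by
  obtain ⟨R, h1, h2, h3⟩ := exists_coord ρ (Module.finBasis F V)
  obtain ⟨A, hA⟩ : ∃ A, A = LinearMap.toMatrix (Module.finBasis F V) (Module.finBasis F V) X :=
    ⟨_, rfl⟩
  have hAJ : A.transpose * R.J + R.J * A = 0 := by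
    rw [hA]
    exact (coord_skew ρ _ R h3 X).mpr hX.2
  have hAC : ∀ c, R.InC c → A * c = c * A := by
    intro c hc
    obtain ⟨c', rfl⟩ := (LinearMap.toMatrix (Module.finBasis F V)
      (Module.finBasis F V)).surjective c
    have h4 := congrArg (LinearMap.toMatrixAlgEquiv (Module.finBasis F V))
      (hX.1 c' ((coord_inC ρ _ R h1 c').mp hc))
    rw [map_mul, map_mul] at h4
    rw [hA]
    exact h4
  have key : ∀ y : ExteriorAlgebra F (Fin n → V),
      TateClass (fun γ => (ρ.T γ).compLeft (Fin n)) ρ.χ 1 y → Dv n X y = 0 := by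
    intro y hy
    obtain ⟨z, hz, hz'⟩ := coord_dv ρ _ R h1 h2 n 1 y hy
    rw [← hz', ← hA]
    have hzd : z ∈ divisorAlg (R.act n) R.μ⁻¹ := Algebra.subset_adjoin hz
    rw [Dv_eq_zero_iff (Pi.basisFun F (Fin (finrank F V)))]
    have hAm : LinearMap.toMatrix (Pi.basisFun F (Fin (finrank F V)))
        (Pi.basisFun F (Fin (finrank F V))) (Matrix.toLin' A) = A := by
      rw [← Matrix.toLin_eq_toLin', LinearMap.toMatrix_toLin]
    rw [hAm]
    apply pExpand (Fin (finrank F V)) F n A _ {r : F | IsUnit (1 - r • Matrix.toLin' A)}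
      (infinite_units (Matrix.toLin' A))
    intro r hr
    have hr' : IsUnit (1 - r • A) := by
      have hr0 : IsUnit (1 - r • Matrix.toLin' A) := hr
      have h4 := hr0.map
        (LinearMap.toMatrixAlgEquiv' : Module.End F (Fin (finrank F V) → F) ≃ₐ[F] _)
      have h5 : (LinearMap.toMatrixAlgEquiv' : Module.End F (Fin (finrank F V) → F) ≃ₐ[F] _)
          (1 - r • Matrix.toLin' A) = 1 - r • A := by
        rw [map_sub, map_one, map_smul]
        have h8 : (LinearMap.toMatrixAlgEquiv' : Module.End F (Fin (finrank F V) → F) ≃ₐ[F] _)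
            (Matrix.toLin' A) = A := LinearMap.toMatrix'_toLin' A
        rw [h8]
      rw [h5] at h4
      exact h4
    obtain ⟨S, hS1, hS2, hS3⟩ := der_cayley R.J A hAJ r hr'
    have hfix := div_inv R n S hS1 (fun c hc => hS2 c (hAC c hc)) z hzd
    have h4 : ExteriorAlgebra.map ((Matrix.toLin' (1 + r • A)).compLeft (Fin n)) z =
        ExteriorAlgebra.map ((Matrix.toLin' (1 - r • A)).compLeft (Fin n)) z := by
      conv_rhs => rw [← hfix]
      rw [← hS3]
      have h5 : (Matrix.toLin' ((1 - r • A) * S)).compLeft (Fin n) =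
          (Matrix.toLin' (1 - r • A)).compLeft (Fin n) ∘ₗ (Matrix.toLin' S).compLeft (Fin n) := by
        rw [Matrix.toLin'_mul]
        rfl
      rw [h5, ← ExteriorAlgebra.map_comp_map]
      rfl
    have h6 : ∀ B : Matrix (Fin (finrank F V)) (Fin (finrank F V)) F,
        LinearMap.toMatrix (Pi.basisFun F (Fin (finrank F V)))
          (Pi.basisFun F (Fin (finrank F V))) (Matrix.toLin' B) = B := by
      intro B
      rw [← Matrix.toLin_eq_toLin', LinearMap.toMatrix_toLin]
    have h7 := congrArg (ExteriorAlgebra.map (co (Pi.basisFun F (Fin (finrank F V))) n)) h4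
    rw [map_co_compLeft, map_co_compLeft, h6, h6] at h7
    exact h7
  induction hx using Algebra.adjoin_induction with
  | mem y hy => exact key y hy
  | algebraMap r => exact (isDer_Dv n X).1 r
  | add y z _ _ hy hz => rw [map_add, hy, hz, add_zero]
  | mul y z _ _ hy hz => rw [der_leib (isDer_Dv n X), hy, hz, zero_mul, mul_zero, add_zero]

end Pool.Agent.Lib.MP_640417_ag.Dfr
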