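import Pool.Agent.Lib.MP_640417_ag.Four.Joint
import Pool.Agent.Lib.MP_640417_ag.Four.Der

/-!
# MP_640417_ag, Dfr, module Diag (120 lines): several diagonal derivations

* `diag_kills`: copy the proof of `diag_kill` (`Four/Joint.lean`): every coefficient `B.repr z s` of `x` satisfies
  `B.repr z s * (∑ q ∈ s.1, f k q.2) = 0` for all `k`. The multiplicities `m v = #{q ∈ s.1 | q.2 = v}` have the sum `#s.1 = i`.
* `Dv_kills`: in coordinates (`Dv_eq_zero_iff`, `toMatrix_diag`, `ExteriorAlgebra.map (co e n) x` is of degree `i`, see the proof of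
  `SymBasis.mem_divisorAlg` in `Four/SymBasis.lean`).
-/

set_option autoImplicit false

namespace Pool.Agent.Lib.MP_640417_ag.Dfr

open Module Pool.Agent.Lib.MP_640417_ag Pool.Agent.Lib.MP_640417_ag.Frob
  Pool.Agent.Lib.MP_640417_ag.Four

theorem diag_kills {I : Type} [Fintype I] [DecidableEq I] {F : Type} [Field F] {n : ℕ}
    {κ : Type} (f : κ → I → F) (g : I → F) (i : ℕ)
    (h : ∀ m : I → ℕ, ∑ v, m v = i → (∀ k, ∑ v, (m v : F) * f k v = 0) →
      ∑ v, (m v : F) * g v = 0)
    (x : Lam I F n) (hx : x ∈ ⋀[F]^i (Fin n × I → F))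
    (hf : ∀ k, DD n (Matrix.diagonal (f k)) x = 0) : DD n (Matrix.diagonal g) x = 0 := by
  classical
  let lo : LinearOrder (Fin n × I) := linearOrderOfSTO WellOrderingRel
  let b : Basis (Fin n × I) F (Fin n × I → F) := Pi.basisFun F (Fin n × I)
  let B := b.exteriorPower i
  let z : ⋀[F]^i (Fin n × I → F) := ⟨x, hx⟩
  have hTn : ∀ (d : I → F) (q : Fin n × I),
      Tn n (Matrix.diagonal d) (Pi.single q (1 : F)) = d q.2 • Pi.single q (1 : F) := by
    intro d q
    obtain ⟨a, v⟩ := q
    rw [Tn_single, Finset.sum_eq_single v]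
    · rw [Matrix.diagonal_apply_eq]
    · intro u _ hu
      rw [Matrix.diagonal_apply_ne _ hu, zero_smul]
    · intro h; exact absurd (Finset.mem_univ _) h
  have hlist : ∀ (d : I → F) (l : List (Fin n × I)),
      DD n (Matrix.diagonal d) (l.map (ev F)).prod
        = (l.map (fun q => d q.2)).sum • (l.map (ev F)).prod := by
    intro d l
    induction l with
    | nil =>
      have := DD_algebraMap (n := n) (Matrix.diagonal d) (1 : F)
      simpa using this
    | cons q l ih =>
      simp only [List.map_cons, List.prod_cons, List.sum_cons]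
      rw [show ev F q = ExteriorAlgebra.ι F (Pi.single q (1 : F)) from rfl, DD_ι_mul, ih, hTn,
        map_smul, smul_mul_assoc, mul_smul_comm, ← add_smul]
  have hDD : ∀ (d : I → F) (s : Set.powersetCard (Fin n × I) i),
      DD n (Matrix.diagonal d) ((B s : ⋀[F]^i (Fin n × I → F)) :
        ExteriorAlgebra F (Fin n × I → F)) = (∑ q ∈ s.1, d q.2) •
        ((B s : ⋀[F]^i (Fin n × I → F)) : ExteriorAlgebra F (Fin n × I → F)) := by
    intro d s
    let l : List (Fin n × I) :=
      List.ofFn (fun k : Fin i => Set.powersetCard.ofFinEmbEquiv.symm s k)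
    have hBs : ((B s : ⋀[F]^i (Fin n × I → F)) : ExteriorAlgebra F (Fin n × I → F))
        = (l.map (ev F)).prod := by
      simp only [B, exteriorPower.basis_apply]
      rw [exteriorPower.ιMulti_family_apply_coe]
      simp only [ExteriorAlgebra.ιMulti_family, ExteriorAlgebra.ιMulti_apply, l,
        List.map_ofFn]
      congr 2
      funext k
      simp only [Function.comp_apply, ev, b, Pi.basisFun_apply]
    have h3 : s.1 = Finset.univ.map (Set.powersetCard.ofFinEmbEquiv.symm s).toEmbedding := by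
      ext p
      simp only [Finset.mem_map, Finset.mem_univ, true_and]
      exact (Set.powersetCard.mem_range_ofFinEmbEquiv_symm_iff_mem s p).symm
    have h4 : (l.map (fun q => d q.2)).sum = ∑ q ∈ s.1, d q.2 := by
      rw [h3, Finset.sum_map]
      simp only [l, List.map_ofFn, List.sum_ofFn]
      rfl
    rw [hBs, hlist, h4]
  have hcount : ∀ (d : I → F) (s : Set.powersetCard (Fin n × I) i),
      ∑ q ∈ s.1, d q.2 = ∑ v, (((s.1.filter (fun q => q.2 = v)).card : ℕ) : F) * d v := by
    intro d s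
    rw [← Finset.sum_fiberwise_of_maps_to (s := s.1) (t := Finset.univ) (g := fun q => q.2)
      (fun _ _ => Finset.mem_univ _)]
    refine Finset.sum_congr rfl fun v _ => ?_
    rw [Finset.sum_congr rfl fun q hq => by
      rw [(Finset.mem_filter.mp hq).2], Finset.sum_const, nsmul_eq_mul]
  have hcard : ∀ s : Set.powersetCard (Fin n × I) i,
      ∑ v, (s.1.filter (fun q => q.2 = v)).card = i := by
    intro s
    rw [← Finset.card_eq_sum_card_fiberwise (s := s.1) (t := Finset.univ) (f := fun q => q.2)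
      (fun _ _ => Finset.mem_coe.mpr (Finset.mem_univ _))]
    exact s.2
  have hxsum : x = ∑ s, B.repr z s •
      ((B s : ⋀[F]^i (Fin n × I → F)) : ExteriorAlgebra F (Fin n × I → F)) := by
    change (z : ExteriorAlgebra F (Fin n × I → F)) = _
    conv_lhs => rw [← B.sum_repr z]
    rw [Submodule.coe_sum]
    rfl
  have hcoef : ∀ k s, B.repr z s * (∑ q ∈ s.1, f k q.2) = 0 := by
    intro k s
    have h1 : ((∑ s, (B.repr z s * (∑ q ∈ s.1, f k q.2)) • B s : ⋀[F]^i (Fin n × I → F)) :
        ExteriorAlgebra F (Fin n × I → F)) = 0 := by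
      rw [← hf k]
      conv_rhs => rw [hxsum, map_sum]
      rw [Submodule.coe_sum]
      refine Finset.sum_congr rfl fun s _ => ?_
      rw [map_smul, hDD, smul_smul]
      rfl
    have h2 : (∑ s, (B.repr z s * (∑ q ∈ s.1, f k q.2)) • B s : ⋀[F]^i (Fin n × I → F)) = 0 :=
      Subtype.ext h1
    exact Fintype.linearIndependent_iff.mp B.linearIndependent _ h2 s
  rw [hxsum, map_sum]
  refine Finset.sum_eq_zero fun s _ => ?_
  rw [map_smul, hDD]
  by_cases hs : B.repr z s = 0
  · rw [hs, zero_smul]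
  · rw [hcount, h _ (hcard s) fun k => ?_, zero_smul, smul_zero]
    have h1 := (mul_eq_zero.mp (hcoef k s)).resolve_left hs
    rw [hcount] at h1
    exact h1

theorem Dv_kills {I : Type} [Fintype I] [DecidableEq I] {K V : Type} [Field K] [AddCommGroup V]
    [Module K V] [FiniteDimensional K V] (e : Basis I K V) {κ : Type}
    (X : κ → Module.End K V) (f : κ → I → K) (hX : ∀ k v, X k (e v) = f k v • e v)
    (G : Module.End K V) (g : I → K) (hG : ∀ v, G (e v) = g v • e v) (n i : ℕ)
    (h : ∀ m : I → ℕ, ∑ v, m v = i → (∀ k, ∑ v, (m v : K) * f k v = 0) →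
      ∑ v, (m v : K) * g v = 0)
    (x : ExteriorAlgebra K (Fin n → V)) (hx : x ∈ ⋀[K]^i (Fin n → V))
    (hf : ∀ k, Dv n (X k) x = 0) : Dv n G x = 0 := by
  have hmem : ExteriorAlgebra.map (co e n) x ∈ ⋀[K]^i (Fin n × I → K) := by
    have h1 : Submodule.map (ExteriorAlgebra.map (co e n)).toLinearMap
        (⋀[K]^i (Fin n → V)) ≤ ⋀[K]^i (Fin n × I → K) := by
      rw [Submodule.map_pow]
      have h1 : Submodule.map (ExteriorAlgebra.map (co e n)).toLinearMap
          (LinearMap.range (ExteriorAlgebra.ι K : (Fin n → V) →ₗ[K] _)) ≤ LinearMap.range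
          (ExteriorAlgebra.ι K : (Fin n × I → K) →ₗ[K] _) := by
        rintro _ ⟨_, ⟨v, rfl⟩, rfl⟩
        refine ⟨co e n v, ?_⟩
        rw [AlgHom.toLinearMap_apply, ExteriorAlgebra.map_apply_ι]
      exact pow_le_pow_left' h1 _
    exact h1 ⟨x, hx, rfl⟩
  rw [Dv_eq_zero_iff e, toMatrix_diag e G g hG]
  refine diag_kills f g i h _ hmem fun k => ?_
  rw [← toMatrix_diag e (X k) (f k) (hX k)]
  exact (Dv_eq_zero_iff e (X k) x).mp (hf k)

end Pool.Agent.Lib.MP_640417_ag.Dfr
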