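import Pool.Agent.Lib.MP_640417_ag.Dfr.Defs
import Pool.Agent.Lib.MP_640417_ag.Four.Span

/-!
# MP_640417_ag, Dfr, module FullK: the commutant over `K` commutes with `Γ` if the commutant over `F` does
-/

set_option autoImplicit false

namespace Pool.Agent.Lib.MP_640417_ag.Dfr

open Module TensorProduct Pool.Agent.Lib.MP_640417_ag Pool.Agent.Lib.MP_640417_ag.Frob
  Pool.Agent.Lib.MP_640417_ag.Four Pool.Agent.Lib.MP_640417_ag.Ty
  Pool.Agent.Lib.MP_640417_ag.Lef

variable {Γ : Type} [Group Γ] [TopologicalSpace Γ] {F : Type} [Field F]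
  [TopologicalSpace F] {V : Type} [AddCommGroup V] [Module F V]

theorem mem_comK (ρ : H1Rep Γ F V)
    {c : Module.End (AlgebraicClosure F) (AlgebraicClosure F ⊗[F] V)} :
    c ∈ comK ρ ↔ CommK ρ c := Iff.rfl

theorem base_mem (ρ : H1Rep Γ F V) {c : Module.End F V} (hc : CommF ρ c) :
    c.baseChange (AlgebraicClosure F) ∈ comK ρ := by
  obtain ⟨U, hU⟩ := hc
  refine ⟨U, fun γ hγ => ?_⟩
  rw [← LinearMap.baseChange_mul, hU γ hγ, LinearMap.baseChange_mul]

theorem cp_comm (ρ : H1Rep Γ F V)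
    {c : Module.End (AlgebraicClosure F) (AlgebraicClosure F ⊗[F] V)} (hc : c ∈ comK ρ)
    (φ : AlgebraicClosure F →ₗ[F] F) : CommF ρ (cp φ c) := by
  obtain ⟨U, hU⟩ := hc
  refine ⟨U, fun γ hγ => ?_⟩
  rw [← cp_mul_baseChange, ← cp_baseChange_mul, hU γ hγ]

theorem comK_full [FiniteDimensional F V] (ρ : H1Rep Γ F V)
    (hfull : ∀ c, CommF ρ c → ∀ γ, c * ρ.T γ = ρ.T γ * c)
    {c : Module.End (AlgebraicClosure F) (AlgebraicClosure F ⊗[F] V)} (hc : c ∈ comK ρ) (γ : Γ) :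
    c * (ρ.T γ).baseChange (AlgebraicClosure F) =
      (ρ.T γ).baseChange (AlgebraicClosure F) * c := by
  classical
  let b := Module.Free.chooseBasis F (AlgebraicClosure F)
  obtain ⟨τ, hτ⟩ := sum_cp b c
  rw [hτ, Finset.sum_mul, Finset.mul_sum]
  refine Finset.sum_congr rfl fun t _ => ?_
  rw [smul_mul_assoc, mul_smul_comm, ← LinearMap.baseChange_mul,
    hfull _ (cp_comm ρ hc (b.coord t)), LinearMap.baseChange_mul]

theorem comK_eq [FiniteDimensional F V] (ρ : H1Rep Γ F V)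
    (hfull : ∀ c, CommF ρ c → ∀ γ, c * ρ.T γ = ρ.T γ * c) :
    comK ρ = cenK (AlgebraicClosure F) ρ.T := by
  ext c
  constructor
  · intro hc
    rw [cenK, Subalgebra.mem_centralizer_iff]
    rintro _ ⟨γ, rfl⟩
    exact (comK_full ρ hfull hc γ).symm
  · intro hc
    rw [cenK, Subalgebra.mem_centralizer_iff] at hc
    exact ⟨⊤, fun γ _ => (hc _ ⟨γ, rfl⟩).symm⟩

end Pool.Agent.Lib.MP_640417_ag.Dfr
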