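import Pool.Agent.Lib.MP_640417_ag.Dfr.FullK
import Pool.Agent.Lib.MP_640417_ag.Lef.Units
import Pool.Agent.Lib.MP_640417_ag.Lef.Eps
import Pool.Agent.Lib.MP_640417_ag.Lef.RegL
import Pool.Agent.Lib.MP_640417_ag.Gn.ResG
import Pool.Agent.Lib.MP_640417_ag.T3.Defs

/-!
# MP_640417_ag: systems of minimal idempotents in the commutant over an algebraic closure
-/

set_option autoImplicit false

namespace Pool.Agent.Lib.MP_640417_ag.Dfr

open Module TensorProduct Pool.Agent.Lib.MP_640417_ag Pool.Agent.Lib.MP_640417_ag.Frob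
  Pool.Agent.Lib.MP_640417_ag.Four Pool.Agent.Lib.MP_640417_ag.Ty
  Pool.Agent.Lib.MP_640417_ag.Lef Pool.Agent.Lib.MP_640417_ag.Gn
  Pool.Agent.Lib.MP_640417_ag.T3 Pool.Agent.Lib.MP_640417_ag.Dfr.RelM

/-- The commutant over `K` has a system of minimal idempotents compatible with the adjunction. -/
def HasSys {Γ : Type} [Group Γ] [TopologicalSpace Γ] {F : Type} [Field F] [TopologicalSpace F]
    {V : Type} [AddCommGroup V] [Module F V] (ρ : H1Rep Γ F V) : Prop :=
  ∃ (N : ℕ) (st : Fin N → Fin N)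
    (ε : Fin N → Module.End (AlgebraicClosure F) (AlgebraicClosure F ⊗[F] V)),
    Sys (ρ.form.baseChange (AlgebraicClosure F)) (comK ρ) N st ε

section

variable {Γ : Type} [Group Γ] [TopologicalSpace Γ] {F : Type} [Field F] [TopologicalSpace F]
  [CharZero F] {V : Type} [AddCommGroup V] [Module F V] [FiniteDimensional F V]

theorem hasSys_full (ρ : H1Rep Γ F V) (h3 : NoTypeIII ρ)
    (hfull : ∀ c, CommF ρ c → ∀ γ, c * ρ.T γ = ρ.T γ * c) : HasSys ρ := by
  have hchar : CharZero (AlgebraicClosure F) :=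
    charZero_of_injective_algebraMap (algebraMap F (AlgebraicClosure F)).injective
  have hcomm : ∀ c : Module.End F V, CommF ρ c ↔ ∀ γ, c * ρ.T γ = ρ.T γ * c := fun c =>
    ⟨hfull c, fun h => ⟨⊤, fun γ _ => h γ⟩⟩
  obtain ⟨s, s', hs, hadj, hs', hsq, hs2, hs3⟩ := h3
  obtain ⟨N, st, ε, hS⟩ := exists_sys (AlgebraicClosure F) ρ.T ρ.form ρ.form_alt ρ.form_nondeg
    s s' (hfull s hs) hadj hs' hsq (fun c hc => hs2 c ((hcomm c).mpr hc))
    (fun c hc => hs3 c ((hcomm c).mpr hc))
  refine ⟨N, st, ε, ?_⟩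
  rw [comK_eq ρ hfull]
  exact hS

theorem reg_comK (ρ : H1Rep Γ F V) (hss : Semisimple ρ)
    (hfull : ∀ c, CommF ρ c → ∀ γ, c * ρ.T γ = ρ.T γ * c) : Reg (comK ρ) := by
  have hchar : CharZero (AlgebraicClosure F) :=
    charZero_of_injective_algebraMap (algebraMap F (AlgebraicClosure F)).injective
  rw [comK_eq ρ hfull]
  exact reg_L _ ρ.T hss

theorem adj_comK (ρ : H1Rep Γ F V)
    (hfull : ∀ c, CommF ρ c → ∀ γ, c * ρ.T γ = ρ.T γ * c) :
    AdjC (ρ.form.baseChange (AlgebraicClosure F)) (comK ρ) := by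
  rw [comK_eq ρ hfull]
  exact adjC_L _ ρ.T ρ.form ρ.form_alt ρ.form_nondeg (fun γ => (ρ.χ γ)⁻¹) ρ.form_equivariant

/-- idempotents and matrix units in the commutant -/
theorem exists_data_of (ρ : H1Rep Γ F V) (hss : Semisimple ρ) (h3 : HasSys ρ)
    (hfull : ∀ c, CommF ρ c → ∀ γ, c * ρ.T γ = ρ.T γ * c) :
    ∃ (N : ℕ) (st r : Fin N → Fin N)
      (ε u v : Fin N → Module.End (AlgebraicClosure F) (AlgebraicClosure F ⊗[F] V)),
      Sys (ρ.form.baseChange (AlgebraicClosure F)) (comK ρ) N st ε ∧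
      UV (ρ.form.baseChange (AlgebraicClosure F)) (comK ρ) N st ε r u v := by
  have hchar : CharZero (AlgebraicClosure F) :=
    charZero_of_injective_algebraMap (algebraMap F (AlgebraicClosure F)).injective
  obtain ⟨N, st, ε, hS⟩ := h3
  obtain ⟨r, u, v, h⟩ := exists_uv (alt_baseChange _ ρ.form ρ.form_alt)
    (nondeg_baseChange _ ρ.form ρ.form_alt ρ.form_nondeg) hS (reg_comK ρ hss hfull)
    (adj_comK ρ hfull)
  exact ⟨N, st, r, ε, u, v, hS, h⟩

end

section alg

variable {K V : Type} [Field K] [CharZero K] [AddCommGroup V] [Module K V]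
  {form : LinearMap.BilinForm K V} {C : Subalgebra K (Module.End K V)} {N : ℕ}
  {st : Fin N → Fin N} {ε : Fin N → Module.End K V}

/-- An algebra with a system has no skew elements of rank one. -/
theorem no_skewOne (halt : ∀ x, form x x = 0) (hnd : ∀ x, (∀ y, form x y = 0) → x = 0)
    (hreg : Reg C) (hS : Sys form C N st ε) (c : Module.End K V) : ¬ SkewOne form C c := by
  intro hc
  -- rank one
  have h1 : ∀ a b : Module.End K V, b ∈ C → a * c ≠ 0 → c * b ≠ 0 → a * c * b ≠ 0 := by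
    intro a b hb ha hcb h
    obtain ⟨y, hy, hyc⟩ := hreg (c * b) (C.mul_mem hc.mem hb)
    obtain ⟨t, ht⟩ := hc.one (b * y) (C.mul_mem hb hy)
    have h2 : t • (c * b) = c * b := by
      calc t • (c * b) = (t • c) * b := (smul_mul_assoc _ _ _).symm
        _ = c * (b * y) * c * b := by rw [ht]
        _ = c * b * y * (c * b) := by simp only [mul_assoc]
        _ = c * b := hyc
    have h3 : t = 1 := by
      have h4 : (t - 1) • (c * b) = 0 := by rw [sub_smul, h2, one_smul, sub_self]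
      exact sub_eq_zero.mp ((smul_eq_zero.mp h4).resolve_right hcb)
    apply ha
    calc a * c = a * (t • c) := by rw [h3, one_smul]
      _ = a * (c * (b * y) * c) := by rw [ht]
      _ = a * c * b * (y * c) := by simp only [mul_assoc]
      _ = 0 := by rw [h, zero_mul]
  have hca : Adj form c (-c) := by
    intro x y
    rw [LinearMap.neg_apply, map_neg]
    exact eq_neg_of_add_eq_zero_left (hc.skew x y)
  obtain ⟨i, hi⟩ : ∃ i, ε i * c ≠ 0 := by
    by_contra hcon
    push Not at hcon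
    apply hc.ne
    calc c = (∑ i, ε i) * c := by rw [hS.sum, one_mul]
      _ = 0 := by
        rw [Finset.sum_mul]
        exact Finset.sum_eq_zero fun i _ => hcon i
  have hadj : ∀ j, Adj form (ε j) (ε (st j)) := fun j x y => hS.adj j x y
  have h2 : c * ε (st i) ≠ 0 := by
    intro h
    apply hi
    have h3 : Adj form (ε i * c) (-c * ε (st i)) := (hadj i).mul hca
    rw [neg_mul, h, neg_zero] at h3
    refine LinearMap.ext fun x => hnd _ fun y => ?_
    rw [h3 x y, LinearMap.zero_apply, map_zero]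
  have h3 := h1 (ε i) (ε (st i)) (hS.mem _) hi h2
  have h4 : st i = i := by
    by_contra h5
    refine h3 ?_
    have h6 := hS.far (st i) (fun h7 => h5 (by rw [hS.inv] at h7; exact h7.symm)) c hc.mem
    rw [hS.inv] at h6
    exact h6
  rw [h4] at h3
  obtain ⟨t, ht⟩ := hS.one i c hc.mem
  rw [ht] at h3
  have hai := hadj i
  rw [h4] at hai
  have h5 : Adj form (ε i * c * ε i) (ε i * (-c * ε i)) := (hai.mul hca).mul hai
  have h6 : ε i * (-c * ε i) = -(t • ε i) := by
    rw [neg_mul, mul_neg, ← mul_assoc, ht]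
  rw [h6, ht] at h5
  have h7 : t • ε i = -(t • ε i) := by
    have h8 : Adj form (t • ε i) (t • ε i) := hai.smul t
    exact Adj.unique halt hnd h8 h5
  have h8 : (2 : K) • (t • ε i) = 0 := by
    rw [two_smul]
    nth_rewrite 1 [h7]
    exact neg_add_cancel _
  exact h3 ((smul_eq_zero.mp h8).resolve_left two_ne_zero)

end alg

section general

variable {F : Type} [NontriviallyNormedField F] [CharZero F]
  {Γ : Type} [Group Γ] [TopologicalSpace Γ] [IsTopologicalGroup Γ] [CompactSpace Γ] {V : Type}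
  [AddCommGroup V] [Module F V] [FiniteDimensional F V] (ρ : H1Rep Γ F V) (U : OpenSubgroup Γ)

theorem comK_resU : comK (res ρ U) = comK ρ := by
  ext c
  rw [mem_comK, mem_comK, commK_res]

theorem hasSys_res : HasSys (res ρ U) ↔ HasSys ρ := by
  unfold HasSys
  rw [comK_resU]
  exact Iff.rfl

theorem noIII_resU : NoIII (res ρ U) ↔ NoIII ρ := by
  unfold NoIII
  rw [comK_resU]
  exact Iff.rfl

theorem hasSys_of_noTypeIII (h3 : NoTypeIII ρ) : HasSys ρ := by
  obtain ⟨U, hU⟩ := exists_U0 ρ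
  rw [← hasSys_res ρ U]
  refine hasSys_full (res ρ U) ?_
    (fun c hc γ => (hU γ.1).mp γ.2 c ((commF_res ρ U c).mp hc))
  unfold NoTypeIII at *
  simp only [commF_res]
  exact h3

end general

end Pool.Agent.Lib.MP_640417_ag.Dfr
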