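import Pool.Agent.Lib.MP_640417_ag.Dfr.Basis
import Pool.Agent.Lib.MP_640417_ag.Dfr.FullK
import Pool.Agent.Lib.MP_640417_ag.Dfr.Comm
import Pool.Agent.Lib.MP_640417_ag.Four.Span
import Pool.Agent.Lib.MP_640417_ag.Frob.BaseRep

/-!
# MP_640417_ag, Dfr, module Inv (200 lines): an invertible element of the Lefschetz Lie algebra

1. Over `K = AlgebraicClosure F`: `exists_eb` with `g = 1`, `μ = 1` gives `w`, `om`, `e`. `Y = ∑ i : Fin m, Hd (Sum.inl i)`, `X = ext u v Y` is
   `1` on the `e q` with `q.1.2 = inl _` and `-1` on the others (`ext_Hd`, additivity of `ext`), so it is invertible (`X * X = 1`). It is skew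
   (`ss_skew`, `ext_skew`) and commutes with `comK ρ` (`ss_eps`, `ext_comm`).
2. Descent: the `F`-space `L` of the Lefschetz `X` has a finite basis `X_1, …, X_d`. `X = ∑ b t • (cp (b.coord t) X).baseChange K` (`sum_cp`) with
   Lefschetz `cp ..` (as in `skew_kills`, `Four/General.lean`), so `X = ∑ c_k • (X_k).baseChange K` with `c_k ∈ K`. The polynomial
   `P = det (∑ T_k X_k) ∈ F[T_1, …, T_d]` (matrices in a basis of `V`) does not vanish at `c ∈ K^d`, so it is not zero, so it does not
   vanish at some `c' ∈ F^d` (`F` is infinite: `MvPolynomial.funext`). `∑ c'_k X_k` is Lefschetz and invertible.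
-/

set_option autoImplicit false

namespace Pool.Agent.Lib.MP_640417_ag.Dfr

open Module TensorProduct Pool.Agent.Lib.MP_640417_ag Pool.Agent.Lib.MP_640417_ag.Frob
  Pool.Agent.Lib.MP_640417_ag.Four Pool.Agent.Lib.MP_640417_ag.Ty
  Pool.Agent.Lib.MP_640417_ag.Lef Pool.Agent.Lib.MP_640417_ag.Ctl

private theorem exists_unit_K {K V : Type} [Field K] [CharZero K] [IsAlgClosed K]
    [AddCommGroup V] [Module K V] [FiniteDimensional K V] {form : LinearMap.BilinForm K V}
    {C : Subalgebra K (Module.End K V)} {N : ℕ} {st r : Fin N → Fin N}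
    {ε u v : Fin N → Module.End K V} (halt : ∀ x, form x x = 0)
    (hnd : ∀ x, (∀ y, form x y = 0) → x = 0) (hS : Sys form C N st ε)
    (h : UV form C N st ε r u v) :
    ∃ X : Module.End K V, Skew form X ∧ (∀ c ∈ C, X * c = c * X) ∧ IsUnit X := by
  obtain ⟨m, w, om, blk, lam, e, he⟩ := exists_eb halt hnd hS h 1 Module.End.isSemisimple_id 1
    one_ne_zero (fun x y => by rw [one_mul]; rfl) (fun c _ => by rw [mul_one, one_mul])
  have hHε : ∀ (i : Fin m) j, Hd form w om (Sum.inl i) * ε j = ε j * Hd form w om (Sum.inl i) := by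
    intro i j
    unfold Hd
    rw [smul_mul_assoc, mul_smul_comm, ss_eps halt hS he (Sum.inl i) (Sum.inl i) rfl j]
  have hHs : ∀ i : Fin m, Skew form (Hd form w om (Sum.inl i)) := by
    intro i x y
    have h1 := ss_skew halt (w (Sum.inl i)) (w (Sum.inl i).swap) x y
    unfold Hd
    rw [LinearMap.smul_apply, LinearMap.smul_apply, map_smul, map_smul, LinearMap.smul_apply,
      ← smul_add, h1, smul_zero]
  have hYc : ∀ j, (∑ i : Fin m, Hd form w om (Sum.inl i)) * ε (r j) =
      ε (r j) * ∑ i : Fin m, Hd form w om (Sum.inl i) := by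
    intro j
    rw [Finset.sum_mul, Finset.mul_sum]
    exact Finset.sum_congr rfl fun i _ => hHε i _
  have hYs : Skew form (∑ i : Fin m, Hd form w om (Sum.inl i)) := by
    intro x y
    rw [LinearMap.sum_apply, LinearMap.sum_apply, map_sum, map_sum, LinearMap.sum_apply,
      ← Finset.sum_add_distrib]
    exact Finset.sum_eq_zero fun i _ => hHs i x y
  refine ⟨ext u v (∑ i : Fin m, Hd form w om (Sum.inl i)), ext_skew hS h hYs,
    fun c hc => ext_comm hS h hYc hc, ?_⟩
  have hsum : ext u v (∑ i : Fin m, Hd form w om (Sum.inl i)) =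
      ∑ i : Fin m, ext u v (Hd form w om (Sum.inl i)) := by
    unfold Lef.ext
    rw [Finset.sum_comm]
    refine Finset.sum_congr rfl fun j _ => ?_
    rw [Finset.mul_sum, Finset.sum_mul]
  have hX : ∀ q, ext u v (∑ i : Fin m, Hd form w om (Sum.inl i)) (e q) =
      (if q.1.2.isLeft then 1 else -1 : K) • e q := by
    intro q
    rw [hsum, LinearMap.sum_apply, Finset.sum_congr rfl fun i _ => ext_Hd halt hS h he (Sum.inl i) q,
      ← Finset.sum_smul]
    congr 1
    rcases q.1.2 with i₀ | i₀
    · simp [Sum.swap_inl]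
    · simp [Sum.swap_inl]
  have hXX : ext u v (∑ i : Fin m, Hd form w om (Sum.inl i)) *
      ext u v (∑ i : Fin m, Hd form w om (Sum.inl i)) = 1 := by
    refine e.ext fun q => ?_
    rw [Module.End.mul_apply, hX, map_smul, hX, smul_smul, Module.End.one_apply]
    split_ifs <;> simp
  exact ⟨⟨_, _, hXX, hXX⟩, rfl⟩

theorem exists_unit {F : Type} [Field F] [CharZero F] [TopologicalSpace F] {V : Type}
    [AddCommGroup V] [Module F V] [FiniteDimensional F V] {Γ : Type} [Group Γ]
    [TopologicalSpace Γ] (ρ : H1Rep Γ F V) {N : ℕ} {st r : Fin N → Fin N}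
    {ε u v : Fin N → Module.End (AlgebraicClosure F) (AlgebraicClosure F ⊗[F] V)}
    (hS : Sys (ρ.form.baseChange (AlgebraicClosure F)) (comK ρ) N st ε)
    (h : UV (ρ.form.baseChange (AlgebraicClosure F)) (comK ρ) N st ε r u v) :
    ∃ X, Lefschetz ρ X ∧ IsUnit X := by
  classical
  obtain ⟨X, hXs, hXc, hXu⟩ := exists_unit_K (alt_baseChange (AlgebraicClosure F) ρ.form ρ.form_alt)
    (nondeg_baseChange (AlgebraicClosure F) ρ.form ρ.form_alt ρ.form_nondeg) hS h
  have hanti : ∀ u v, ρ.form u v = - ρ.form v u := anti ρ.form_alt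
  have hanti' : ∀ u v, ρ.form.baseChange (AlgebraicClosure F) u v =
      - ρ.form.baseChange (AlgebraicClosure F) v u :=
    anti (alt_baseChange (AlgebraicClosure F) ρ.form ρ.form_alt)
  -- the coordinates are in the Lie algebra
  have hL : ∀ φ : AlgebraicClosure F →ₗ[F] F, Lefschetz ρ (cp φ X) := by
    intro φ
    refine ⟨fun c hc => ?_, fun x y => ?_⟩
    · rw [← cp_mul_baseChange, ← cp_baseChange_mul, hXc _ (base_mem ρ hc)]
    · rw [hanti x (cp φ X y), form_cp, form_cp, ← map_neg, ← hanti', ← map_add, hXs, map_zero]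
  let b := Module.Free.chooseBasis F (AlgebraicClosure F)
  obtain ⟨τ, hτ⟩ := sum_cp b X
  let e₀ := Module.finBasis F V
  let A : τ → Module.End F V := fun t => cp (b.coord t) X
  let P : MvPolynomial τ F := Matrix.det (Matrix.of fun i j =>
    ∑ t : τ, MvPolynomial.C (LinearMap.toMatrix e₀ e₀ (A t) i j) * MvPolynomial.X t)
  have hev : ∀ c : τ → F, MvPolynomial.eval c P = LinearMap.det (∑ t, c t • A t) := by
    intro c
    rw [RingHom.map_det, ← LinearMap.det_toMatrix e₀]
    congr 1
    ext i j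
    rw [RingHom.mapMatrix_apply, Matrix.map_apply, Matrix.of_apply, map_sum, map_sum,
      Matrix.sum_apply]
    refine Finset.sum_congr rfl fun t _ => ?_
    rw [map_mul, MvPolynomial.eval_C, MvPolynomial.eval_X, map_smul, Matrix.smul_apply,
      smul_eq_mul, mul_comm]
  have hevK : MvPolynomial.aeval (fun t : τ => b t) P = LinearMap.det X := by
    rw [AlgHom.map_det, ← LinearMap.det_toMatrix (Algebra.TensorProduct.basis (AlgebraicClosure F) e₀)]
    congr 1
    conv_rhs => rw [hτ, ← Finset.sum_coe_sort τ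
      (fun t => b t • (cp (b.coord t) X).baseChange (AlgebraicClosure F))]
    ext i j
    rw [AlgHom.mapMatrix_apply, Matrix.map_apply, Matrix.of_apply, map_sum, map_sum,
      Matrix.sum_apply]
    refine Finset.sum_congr rfl fun t _ => ?_
    rw [map_mul, MvPolynomial.aeval_C, MvPolynomial.aeval_X, map_smul, Matrix.smul_apply,
      LinearMap.toMatrix_baseChange, Matrix.map_apply, smul_eq_mul, mul_comm]
  obtain ⟨c, hc⟩ : ∃ c : τ → F, MvPolynomial.eval c P ≠ 0 := by
    by_contra hne
    push Not at hne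
    have hP : P = 0 := MvPolynomial.funext fun c => by rw [hne, map_zero]
    rw [hP, map_zero] at hevK
    have h1 := (LinearMap.isUnit_iff_isUnit_det X).mp hXu
    rw [← hevK] at h1
    exact not_isUnit_zero h1
  refine ⟨∑ t, c t • A t, ⟨fun d hd => ?_, fun x y => ?_⟩, ?_⟩
  · rw [Finset.sum_mul, Finset.mul_sum]
    refine Finset.sum_congr rfl fun t _ => ?_
    rw [smul_mul_assoc, mul_smul_comm, (hL _).1 d hd]
  · rw [LinearMap.sum_apply, LinearMap.sum_apply, map_sum, map_sum, LinearMap.sum_apply,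
      ← Finset.sum_add_distrib]
    refine Finset.sum_eq_zero fun t _ => ?_
    rw [LinearMap.smul_apply, LinearMap.smul_apply, map_smul, map_smul, LinearMap.smul_apply,
      ← smul_add, (hL _).2 x y, smul_zero]
  · rw [LinearMap.isUnit_iff_isUnit_det, ← hev]
    exact IsUnit.mk0 _ hc

end Pool.Agent.Lib.MP_640417_ag.Dfr
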