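import Pool.Agent.Lib.MP_640417_ag.Four.Joint
import Pool.Agent.Lib.MP_640417_ag.Four.Der

/-!
# MP_640417_ag, Dfr, module Top (250 lines): determinant classes

For each `t` let `b t 1, …, b t d_t` be a basis of the range of the idempotent `q t` (`d_t` = its dimension), and
`ι_t : V → (Fin n → V)` the inclusion of the `t`-th copy (`LinearMap.single`). `x = ∏_t ∏_k ι (ι_t (b t k))` (ordered product of a list;
an `ιMulti` of the family of all the vectors `ι_t (b t k)`).
* `x ≠ 0` because the vectors `ι_t (b t k)` are linearly independent (`ιMulti` of a linearly independent family is nonzero: extend to a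
  basis and use the basis `Basis.exteriorPower`, or an alternating form which does not vanish on the family).
* `map (g.compLeft) x = ∏ det • x`: `g` preserves the range of `q t` (`q t * g = g * q t`), and its determinant there is
  `det (q t * g + (1 - q t))` (block matrix for `V = range (q t) ⊕ ker (q t)`, the operator is `g` on the first and `1` on the second
  summand). The top power of an endomorphism of the range is its determinant: for the fixed other factors the product is an
  alternating map of the `d_t` vectors of the range (`AlternatingMap.map_basis..`, `LinearMap.det`, e.g. `AlternatingMap.eq_smul_basis_det` and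
  `LinearMap.det_comp..`/`Basis.det_comp`).
* `Dv n z x = (∑ trace) • x`: derivation (`isDer_Dv`), or from the previous statement for `1 + s z` (`s ∈ K`), comparing the
  coefficients of `s` (`det (1 + s z) = 1 + s tr z + …`), or directly: the derivation of an alternating map of `d_t` vectors in a space
  of dimension `d_t` is the trace (`Basis.det` expansions). If `z` is diagonalizable choose the basis by eigenvectors; the general case
  by expanding in the basis `b t`: `z (b t k) = ∑_l Z l k • b t l`, and only the term `l = k` contributes (equal factors give `0`).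
It is fine to prove it first for one idempotent and `n = 1` (`x ∈ ExteriorAlgebra K V`), and then to multiply the images under
`ExteriorAlgebra.map (LinearMap.single ..)`; nonvanishing of the product: use the maps `V^n → V^n` which kill copies, or induction on the
number of factors with a left inverse by contractions.
-/

set_option autoImplicit false

namespace Pool.Agent.Lib.MP_640417_ag.Dfr

open Module Pool.Agent.Lib.MP_640417_ag Pool.Agent.Lib.MP_640417_ag.Frob
  Pool.Agent.Lib.MP_640417_ag.Four

section top

variable {K : Type} [Field K]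

private lemma top_eq {R E : Type} [AddCommGroup R] [Module K R] [AddCommGroup E] [Module K E]
    {d : ℕ} (b : Basis (Fin d) K R) (f : R [⋀^Fin d]→ₗ[K] E) (v : Fin d → R) :
    f v = b.det v • f b := by
  have h1 : f = (LinearMap.toSpanSingleton K E (f b)).compAlternatingMap b.det := by
    refine Basis.ext_alternating b fun w hw => ?_
    let σ : Equiv.Perm (Fin d) := Equiv.ofBijective w (Finite.injective_iff_bijective.mp hw)
    have h2 : (fun i => b (w i)) = b ∘ σ := rfl
    rw [h2, f.map_perm b σ, AlternatingMap.map_perm]
    congr 1
    show f b = b.det b • f b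
    rw [b.det_self, one_smul]
  conv_lhs => rw [h1]
  rfl

variable {W : Type} [AddCommGroup W] [Module K W]

private lemma der_multi {D : Module.End K (ExteriorAlgebra K W)} {s : Module.End K W}
    (h : IsDer D s) : ∀ (d : ℕ) (v : Fin d → W), D (ExteriorAlgebra.ιMulti K d v) =
      ∑ i, ExteriorAlgebra.ιMulti K d (Function.update v i (s (v i))) := by
  intro d
  induction d with
  | zero =>
    intro v
    rw [ExteriorAlgebra.ιMulti_zero_apply, Finset.univ_eq_empty, Finset.sum_empty]
    have h1 := h.1 1
    rwa [map_one] at h1
  | succ d ih =>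
    intro v
    rw [ExteriorAlgebra.ιMulti_succ_apply, h.2, ih, Fin.sum_univ_succ, Finset.mul_sum]
    congr 1
    · rw [ExteriorAlgebra.ιMulti_succ_apply, Function.update_self]
      congr 2
    · refine Finset.sum_congr rfl fun i _ => ?_
      rw [ExteriorAlgebra.ιMulti_succ_apply, Function.update_of_ne (Fin.succ_ne_zero i).symm]
      congr 2
      funext j
      show Function.update (Matrix.vecTail v) i (s (v i.succ)) j =
        Function.update v i.succ (s (v i.succ)) j.succ
      by_cases hj : j = i
      · subst hj
        rw [Function.update_self, Function.update_self]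
      · rw [Function.update_of_ne hj, Function.update_of_ne (fun h => hj (Fin.succ_inj.mp h))]
        rfl

variable {R : Submodule K W} {d : ℕ}

private lemma map_top (b : Basis (Fin d) K R) (G : Module.End K W) (hG : ∀ x ∈ R, G x ∈ R) :
    ExteriorAlgebra.map G (ExteriorAlgebra.ιMulti K d fun i => (b i : W)) =
      LinearMap.det (G.restrict hG) • ExteriorAlgebra.ιMulti K d fun i => (b i : W) := by
  have h1 := top_eq b ((ExteriorAlgebra.ιMulti K d).compLinearMap R.subtype) (G.restrict hG ∘ b)
  rw [b.det_comp, b.det_self, mul_one] at h1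
  rw [ExteriorAlgebra.map_apply_ιMulti]
  exact h1

private lemma der_top (b : Basis (Fin d) K R) {D : Module.End K (ExteriorAlgebra K W)}
    {s : Module.End K W} (h : IsDer D s) (hs : ∀ x ∈ R, s x ∈ R) :
    D (ExteriorAlgebra.ιMulti K d fun i => (b i : W)) =
      LinearMap.trace K R (s.restrict hs) • ExteriorAlgebra.ιMulti K d fun i => (b i : W) := by
  rw [der_multi h, LinearMap.trace_eq_matrix_trace K b, Matrix.trace, Finset.sum_smul]
  refine Finset.sum_congr rfl fun i _ => ?_
  have h1 : s (b i : W) = ∑ j, b.repr (s.restrict hs (b i)) j • (b j : W) := by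
    have h2 := b.sum_repr (s.restrict hs (b i))
    have h3 := congrArg R.subtype h2
    rw [map_sum] at h3
    simp only [map_smul] at h3
    exact h3.symm
  rw [h1, AlternatingMap.map_update_sum]
  rw [Finset.sum_eq_single i]
  · rw [AlternatingMap.map_update_smul, Function.update_eq_self, Matrix.diag_apply,
      LinearMap.toMatrix_apply]
  · intro j _ hj
    rw [AlternatingMap.map_update_smul]
    have h2 := (ExteriorAlgebra.ιMulti K d).map_update_self (fun i => (b i : W)) (i := i) (j := j)
      hj.symm
    rw [h2, smul_zero]
  · intro hi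
    exact absurd (Finset.mem_univ _) hi

private lemma top_ne (b : Basis (Fin d) K R) (Q : W →ₗ[K] R) (hQ : ∀ x : R, Q x = x) :
    ExteriorAlgebra.ιMulti K d (fun i => (b i : W)) ≠ 0 := by
  intro h0
  have h1 := congrArg (ExteriorAlgebra.liftAlternating (R := K) (M := W) (N := K)
    (Pi.single d (b.det.compLinearMap Q))) h0
  rw [ExteriorAlgebra.liftAlternating_apply_ιMulti, map_zero, Pi.single_eq_same,
    AlternatingMap.compLinearMap_apply] at h1
  have h2 : (fun i => Q (b i : W)) = b := funext fun i => hQ (b i)
  rw [h2, b.det_self] at h1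
  exact one_ne_zero h1

variable [FiniteDimensional K W]

private lemma det_top {Q : Module.End K W} (hQ : Q * Q = Q) {G : Module.End K W}
    (hG : Q * G = G * Q) (hR : ∀ x ∈ LinearMap.range Q, G x ∈ LinearMap.range Q) :
    LinearMap.det (G.restrict hR) = LinearMap.det (Q * G + (1 - Q)) := by
  have hQx : ∀ x ∈ LinearMap.range Q, Q x = x := by
    rintro _ ⟨y, rfl⟩
    rw [← Module.End.mul_apply, hQ]
  have he : ∀ x ∈ LinearMap.range Q, (Q * G + (1 - Q)) x = G x := by
    intro x hx
    rw [LinearMap.add_apply, LinearMap.sub_apply, Module.End.one_apply, hQx x hx, sub_self,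
      add_zero, hG, Module.End.mul_apply, hQx x hx]
  have hle : LinearMap.range Q ≤ (LinearMap.range Q).comap (Q * G + (1 - Q)) := by
    intro x hx
    rw [Submodule.mem_comap, he x hx]
    exact hR x hx
  rw [LinearMap.det_eq_det_mul_det (LinearMap.range Q) (Q * G + (1 - Q)) hle]
  have h1 : (LinearMap.range Q).mapQ (LinearMap.range Q) (Q * G + (1 - Q)) hle =
      LinearMap.id := by
    apply Submodule.linearMap_qext
    ext x
    rw [LinearMap.comp_apply, LinearMap.comp_apply, Submodule.mkQ_apply, Submodule.mapQ_apply,
      LinearMap.id_apply, Submodule.Quotient.eq]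
    refine ⟨G x - x, ?_⟩
    rw [LinearMap.add_apply, LinearMap.sub_apply, Module.End.one_apply, map_sub,
      Module.End.mul_apply]
    abel
  rw [h1, LinearMap.det_id, mul_one]
  congr 1
  ext x
  exact (he x x.2).symm

private lemma trace_top {Q : Module.End K W} (hQ : Q * Q = Q) {G : Module.End K W}
    (hG : Q * G = G * Q) (hR : ∀ x ∈ LinearMap.range Q, G x ∈ LinearMap.range Q) :
    LinearMap.trace K _ (G.restrict hR) = LinearMap.trace K W (Q * G) := by
  have hQx : ∀ x ∈ LinearMap.range Q, Q x = x := by
    rintro _ ⟨y, rfl⟩
    rw [← Module.End.mul_apply, hQ]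
  rw [← LinearMap.trace_restrict_eq_of_forall_mem (LinearMap.range Q) (Q * G)
    (fun x => ⟨G x, rfl⟩)]
  congr 1
  ext x
  show G x = Q (G x)
  rw [← Module.End.mul_apply, hG, Module.End.mul_apply, hQx x x.2]

end top

private lemma trace_pi {K V : Type} [Field K] [AddCommGroup V] [Module K V]
    [FiniteDimensional K V] {n : ℕ} (f : Fin n → Module.End K V) :
    LinearMap.trace K (Fin n → V) (LinearMap.pi fun t => f t ∘ₗ LinearMap.proj t) =
      ∑ t, LinearMap.trace K V (f t) := by
  have h1 : (LinearMap.pi fun t => f t ∘ₗ LinearMap.proj t : Module.End K (Fin n → V)) =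
      ∑ t, (LinearMap.single K (fun _ : Fin n => V) t) ∘ₗ (f t ∘ₗ LinearMap.proj t) := by
    ext t x i
    simp [Finset.sum_apply, Pi.single_apply]
  rw [h1, map_sum]
  refine Finset.sum_congr rfl fun t _ => ?_
  rw [LinearMap.trace_comp_comm']
  congr 1
  ext x
  simp

theorem exists_top {K V : Type} [Field K] [CharZero K] [AddCommGroup V] [Module K V]
    [FiniteDimensional K V] {n : ℕ} (q : Fin n → Module.End K V) (hq : ∀ t, q t * q t = q t) :
    ∃ x : ExteriorAlgebra K (Fin n → V), x ≠ 0 ∧
      x ∈ ⋀[K]^(∑ t, finrank K (LinearMap.range (q t))) (Fin n → V) ∧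
      (∀ g : Module.End K V, (∀ t, q t * g = g * q t) →
        ExteriorAlgebra.map (g.compLeft (Fin n)) x =
          (∏ t, LinearMap.det (q t * g + (1 - q t))) • x) ∧
      ∀ z : Module.End K V, (∀ t, q t * z = z * q t) →
        Dv n z x = (∑ t, LinearMap.trace K V (q t * z)) • x := by
  classical
  let Q : Module.End K (Fin n → V) := LinearMap.pi fun t => q t ∘ₗ LinearMap.proj t
  have hQQ : Q * Q = Q := by
    refine LinearMap.ext fun x => funext fun t => ?_
    show q t (q t (x t)) = q t (x t)
    rw [← Module.End.mul_apply, hq]
  have hQx : ∀ x ∈ LinearMap.range Q, Q x = x := by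
    rintro _ ⟨y, rfl⟩
    rw [← Module.End.mul_apply, hQQ]
  have hQg : ∀ g : Module.End K V, (∀ t, q t * g = g * q t) →
      Q * g.compLeft (Fin n) = g.compLeft (Fin n) * Q := by
    intro g hg
    refine LinearMap.ext fun x => funext fun t => ?_
    show q t (g (x t)) = g (q t (x t))
    rw [← Module.End.mul_apply, hg, Module.End.mul_apply]
  have hR : ∀ g : Module.End K V, (∀ t, q t * g = g * q t) →
      ∀ x ∈ LinearMap.range Q, g.compLeft (Fin n) x ∈ LinearMap.range Q := by
    rintro g hg _ ⟨y, rfl⟩
    exact ⟨g.compLeft (Fin n) y, by rw [← Module.End.mul_apply, hQg g hg, Module.End.mul_apply]⟩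
  have htr : ∀ g : Module.End K V,
      LinearMap.trace K _ (Q * g.compLeft (Fin n)) = ∑ t, LinearMap.trace K V (q t * g) := by
    intro g
    exact trace_pi fun t => q t * g
  have hfin : finrank K (LinearMap.range Q) = ∑ t, finrank K (LinearMap.range (q t)) := by
    have h1 := trace_top hQQ (G := 1) (by rw [mul_one, one_mul]) (fun x hx => hx)
    have h2 : ((1 : Module.End K (Fin n → V)).restrict (fun x hx => hx) :
        Module.End K (LinearMap.range Q)) = 1 := by
      ext x
      rfl
    rw [h2, LinearMap.trace_one] at h1
    have h3 := htr 1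
    have h4 : ((1 : Module.End K V).compLeft (Fin n)) = 1 := rfl
    rw [h4] at h3
    rw [h3] at h1
    have h5 : ∀ t, LinearMap.trace K V (q t * 1) = (finrank K (LinearMap.range (q t)) : K) := by
      intro t
      have h6 := trace_top (hq t) (G := 1) (by rw [mul_one, one_mul]) (fun x hx => hx)
      have h7 : ((1 : Module.End K V).restrict (fun x hx => hx) :
        Module.End K (LinearMap.range (q t))) = 1 := by
        ext x
        rfl
      rw [h7, LinearMap.trace_one] at h6
      exact h6.symm
    rw [Finset.sum_congr rfl fun t _ => h5 t] at h1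
    exact_mod_cast h1
  let b : Basis (Fin (∑ t, finrank K (LinearMap.range (q t)))) K (LinearMap.range Q) :=
    Module.finBasisOfFinrankEq K _ hfin
  refine ⟨ExteriorAlgebra.ιMulti K _ fun i => (b i : Fin n → V), ?_, ?_, ?_, ?_⟩
  · exact top_ne b Q.rangeRestrict fun x => Subtype.ext (hQx x x.2)
  · exact ExteriorAlgebra.ιMulti_range K _ ⟨_, rfl⟩
  · intro g hg
    rw [map_top b _ (hR g hg), det_top hQQ (hQg g hg)]
    congr 1
    exact LinearMap.det_pi fun t => q t * g + (1 - q t)
  · intro z hz
    rw [der_top b (isDer_Dv n z) (hR z hz), trace_top hQQ (hQg z hz), htr]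

end Pool.Agent.Lib.MP_640417_ag.Dfr
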