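import Pool.Agent.Lib.MP_640417_ag.Dfr.Defs
import Pool.Agent.Lib.MP_640417_ag.Dfr.Top

/-!
# MP_640417_ag, Dfr, module Rel (300 lines): a relation gives a Tate class

Let `z = ∑ s j • p j`, `μ γ = (χ γ)⁻¹`. The form is nondegenerate, so every endomorphism `A` has an adjoint `A'` (`form (A x) y = form x (A' y)`;
`form` is alternating, so also `form (A' x) y = form x (A y)`), unique, `(A B)' = B' A'`, `det A' = det A`, `tr A' = tr A`.
* `p' j` = the adjoint of `p j`, an idempotent. `z' = - z`. `p j z = z p j = s j • p j` (`orth`, `idem`), so `p' j z = z p' j = - s j • p' j`.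
  For `γ : Γ`: `(T γ)' = μ γ • T γ⁻¹`; `p' j` commutes with `T γ` (adjoint of `p j T γ⁻¹ = T γ⁻¹ p j`).
* `det (p' j T γ + (1 - p' j)) * det (p j T γ + (1 - p j)) = μ γ ^ (rk p j)`: `det (p j T γ + (1 - p j))` is the determinant of the adjoint
  `μ γ • T γ⁻¹ p' j + (1 - p' j)`, and `(p' j T γ + (1 - p' j)) (μ γ • T γ⁻¹ p' j + (1 - p' j)) = μ γ • p' j + (1 - p' j)`, whose determinant is
  `μ γ ^ rk (p' j)`; `rk (p' j) = tr (p' j) = tr (p j) = rk (p j)` (the trace of an idempotent is its rank, characteristic zero).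
* `tr z = tr z' = - tr z`, so `tr z = 0`: `∑ s j rk (p j) = 0`. So `∑ |s j| rk (p j) = 2 i` with `i = ∑ (- s j).toNat rk (p j)`.
* `n = ∑ j, |s j|` (`Int.natAbs`), `Fin n ≃ Σ j, Fin |s j|` (`finSigmaFinEquiv`), `q t = p j` if `s j > 0` and `p' j` if `s j ≤ 0` for `t ↦ (j, _)`.
  Take `x` from `exists_top`.
* `Dv n z x = (∑ j, |s j| * (|s j| rk (p j))) • x`.
-/

set_option autoImplicit false

namespace Pool.Agent.Lib.MP_640417_ag.Dfr

open Module Pool.Agent.Lib.MP_640417_ag Pool.Agent.Lib.MP_640417_ag.Frob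
  Pool.Agent.Lib.MP_640417_ag.Four

namespace RelM

variable {K V : Type} [Field K] [AddCommGroup V] [Module K V]

/-- `A'` is the adjoint of `A`. -/
def Adj (form : LinearMap.BilinForm K V) (A A' : Module.End K V) : Prop :=
  ∀ x y, form (A x) y = form x (A' y)

variable {form : LinearMap.BilinForm K V}

theorem Adj.one : Adj form 1 1 := fun _ _ => rfl

theorem Adj.mul {A A' B B' : Module.End K V} (hA : Adj form A A') (hB : Adj form B B') :
    Adj form (A * B) (B' * A') := fun x y => by
  rw [Module.End.mul_apply, Module.End.mul_apply, hA, hB]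

theorem Adj.add {A A' B B' : Module.End K V} (hA : Adj form A A') (hB : Adj form B B') :
    Adj form (A + B) (A' + B') := fun x y => by
  rw [LinearMap.add_apply, LinearMap.add_apply, map_add, LinearMap.add_apply, map_add, hA, hB]

theorem Adj.sub {A A' B B' : Module.End K V} (hA : Adj form A A') (hB : Adj form B B') :
    Adj form (A - B) (A' - B') := fun x y => by
  rw [LinearMap.sub_apply, LinearMap.sub_apply, map_sub, LinearMap.sub_apply, map_sub, hA, hB]

theorem Adj.smul {A A' : Module.End K V} (c : K) (hA : Adj form A A') :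
    Adj form (c • A) (c • A') := fun x y => by
  rw [LinearMap.smul_apply, LinearMap.smul_apply, map_smul, LinearMap.smul_apply, map_smul, hA]

theorem anti' (halt : ∀ x, form x x = 0) (x y : V) : form x y = - form y x := by
  have h := halt (x + y)
  simp only [map_add, LinearMap.add_apply, halt, zero_add, add_zero] at h
  linear_combination h

theorem Adj.unique (halt : ∀ x, form x x = 0) (hnd : ∀ x, (∀ y, form x y = 0) → x = 0)
    {A A' A'' : Module.End K V} (h1 : Adj form A A') (h2 : Adj form A A'') : A' = A'' := by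
  refine LinearMap.ext fun y => ?_
  rw [← sub_eq_zero]
  apply hnd
  intro x
  rw [anti' halt, map_sub, ← h1, ← h2, sub_self, neg_zero]

theorem exists_adj [FiniteDimensional K V] (halt : ∀ x, form x x = 0)
    (hnd : ∀ x, (∀ y, form x y = 0) → x = 0) (A : Module.End K V) :
    ∃ A', Adj form A A' := by
  have hN : form.Nondegenerate :=
    LinearMap.BilinForm.Nondegenerate.ofSeparatingLeft fun x hx => hnd x hx
  refine ⟨form.leftAdjointOfNondegenerate hN A, fun x y => ?_⟩
  have h := form.isAdjointPairLeftAdjointOfNondegenerate hN A y x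
  rw [anti' halt, ← h, anti' halt, neg_neg]

theorem Adj.toMat [FiniteDimensional K V] {A A' : Module.End K V} (h : Adj form A A') :
    (LinearMap.toMatrix (finBasis K V) (finBasis K V) A).transpose *
      LinearMap.BilinForm.toMatrix (finBasis K V) form =
      LinearMap.BilinForm.toMatrix (finBasis K V) form *
        LinearMap.toMatrix (finBasis K V) (finBasis K V) A' := by
  rw [← LinearMap.BilinForm.toMatrix_compLeft, ← LinearMap.BilinForm.toMatrix_compRight]
  congr 1
  exact LinearMap.ext fun x => LinearMap.ext fun y => h x y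

theorem det_ne (hnd : ∀ x, (∀ y, form x y = 0) → x = 0) [FiniteDimensional K V] :
    (LinearMap.BilinForm.toMatrix (finBasis K V) form).det ≠ 0 := by
  have hN : form.Nondegenerate :=
    LinearMap.BilinForm.Nondegenerate.ofSeparatingLeft fun x hx => hnd x hx
  exact (LinearMap.BilinForm.nondegenerate_iff_det_ne_zero _).mp hN

theorem Adj.det [FiniteDimensional K V] (hnd : ∀ x, (∀ y, form x y = 0) → x = 0)
    {A A' : Module.End K V} (h : Adj form A A') : LinearMap.det A' = LinearMap.det A := by
  have h1 := congrArg Matrix.det h.toMat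
  rw [Matrix.det_mul, Matrix.det_mul, Matrix.det_transpose, LinearMap.det_toMatrix,
    LinearMap.det_toMatrix, mul_comm] at h1
  exact (mul_left_cancel₀ (det_ne hnd) h1).symm

theorem Adj.trace [FiniteDimensional K V] (hnd : ∀ x, (∀ y, form x y = 0) → x = 0)
    {A A' : Module.End K V} (h : Adj form A A') :
    LinearMap.trace K V A' = LinearMap.trace K V A := by
  have h1 := h.toMat
  have hu : IsUnit (LinearMap.BilinForm.toMatrix (finBasis K V) form).det :=
    isUnit_iff_ne_zero.mpr (det_ne hnd)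
  rw [LinearMap.trace_eq_matrix_trace K (finBasis K V),
    LinearMap.trace_eq_matrix_trace K (finBasis K V),
    ← Matrix.trace_transpose (LinearMap.toMatrix (finBasis K V) (finBasis K V) A)]
  have h2 : (LinearMap.toMatrix (finBasis K V) (finBasis K V) A).transpose =
      LinearMap.BilinForm.toMatrix (finBasis K V) form *
        (LinearMap.toMatrix (finBasis K V) (finBasis K V) A' *
          (LinearMap.BilinForm.toMatrix (finBasis K V) form)⁻¹) := by
    rw [← mul_assoc, ← h1, mul_assoc, Matrix.mul_nonsing_inv _ hu, mul_one]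
  rw [h2, Matrix.trace_mul_comm, mul_assoc, Matrix.nonsing_inv_mul _ hu, mul_one]

theorem trace_idem [FiniteDimensional K V] {p : Module.End K V} (hp : p * p = p) :
    LinearMap.trace K V p = (finrank K (LinearMap.range p) : K) :=
  LinearMap.IsProj.trace (LinearMap.IsIdempotentElem.isProj_range p hp)

/-- multiplicativity of the determinant on the range of `p` -/
theorem det_mul' {p g h : Module.End K V} (hp : p * p = p) (hg : p * g = g * p) :
    LinearMap.det (p * (g * h) + (1 - p)) =
      LinearMap.det (p * g + (1 - p)) * LinearMap.det (p * h + (1 - p)) := by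
  rw [← map_mul]
  congr 1
  have h1 : p * g * (p * h) = p * (g * h) := by
    calc p * g * (p * h) = (g * p) * (p * h) := by rw [hg]
      _ = g * (p * p) * h := by simp only [mul_assoc]
      _ = p * (g * h) := by rw [hp, ← hg, mul_assoc]
  have h2 : p * g * (1 - p) = 0 := by
    rw [hg, mul_assoc, mul_sub, mul_one, hp, sub_self, mul_zero]
  have h3 : (1 - p) * (p * h) = 0 := by
    rw [← mul_assoc, sub_mul, one_mul, hp, sub_self, zero_mul]
  have h4 : (1 - p) * (1 - p) = 1 - p := by
    rw [mul_sub, mul_one, sub_mul, one_mul, hp, sub_self, sub_zero]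
  rw [add_mul, mul_add, mul_add, h1, h2, h3, h4, add_zero, zero_add]

/-- the determinant of a scalar on the range of `p` -/
theorem det_smul' [FiniteDimensional K V] {p : Module.End K V} (hp : p * p = p) (c : K) :
    LinearMap.det (p * (c • 1) + (1 - p)) = c ^ finrank K (LinearMap.range p) := by
  have hid : IsIdempotentElem p := hp
  have hc := LinearMap.IsIdempotentElem.isCompl hid
  let e := Submodule.prodEquivOfIsCompl _ _ hc
  have hpx : ∀ x ∈ LinearMap.range p, p x = x := by
    rintro _ ⟨y, rfl⟩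
    exact congrArg (fun f : Module.End K V => f y) hp
  have h1 : p * (c • 1) + (1 - p) = (e : _ →ₗ[K] V) ∘ₗ
      (LinearMap.prodMap (c • (1 : Module.End K (LinearMap.range p)))
        (1 : Module.End K (LinearMap.ker p))) ∘ₗ (e.symm : V →ₗ[K] _) := by
    refine LinearMap.ext fun x => ?_
    obtain ⟨⟨a, b⟩, rfl⟩ := e.surjective x
    have h2 : e (a, b) = (a : V) + (b : V) := rfl
    have h3 : ((e : _ →ₗ[K] V) ∘ₗ
      (LinearMap.prodMap (c • (1 : Module.End K (LinearMap.range p)))
        (1 : Module.End K (LinearMap.ker p))) ∘ₗ (e.symm : V →ₗ[K] _)) (e (a, b)) =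
        c • (a : V) + (b : V) := by
      change e ((LinearMap.prodMap (c • (1 : Module.End K (LinearMap.range p)))
        (1 : Module.End K (LinearMap.ker p))) (e.symm (e (a, b)))) = _
      rw [LinearEquiv.symm_apply_apply]
      rfl
    rw [h3, h2]
    have h4 : p (a : V) = a := hpx _ a.2
    have h5 : p (b : V) = 0 := b.2
    rw [LinearMap.add_apply, LinearMap.sub_apply, Module.End.mul_apply, LinearMap.smul_apply,
      Module.End.one_apply, map_smul, map_add, h4, h5, add_zero]
    abel
  rw [h1, LinearMap.det_conj, LinearMap.det_prodMap, LinearMap.det_smul, map_one, map_one,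
    mul_one, mul_one]

theorem sum_fin {k : ℕ} (σ : Fin k → ℕ) {M : Type} [AddCommMonoid M] (f : Fin k → M) :
    ∑ t : Fin (∑ j, σ j), f (finSigmaFinEquiv.symm t).1 = ∑ j, σ j • f j := by
  rw [← Equiv.sum_comp (finSigmaFinEquiv (m := k) (n := σ))
    (fun t => f (finSigmaFinEquiv.symm t).1)]
  simp only [Equiv.symm_apply_apply]
  rw [Fintype.sum_sigma]
  refine Finset.sum_congr rfl fun j _ => ?_
  change ∑ _y : Fin (σ j), f j = σ j • f j
  rw [Finset.sum_const, Finset.card_univ, Fintype.card_fin]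

theorem prod_fin {k : ℕ} (σ : Fin k → ℕ) {M : Type} [CommMonoid M] (f : Fin k → M) :
    ∏ t : Fin (∑ j, σ j), f (finSigmaFinEquiv.symm t).1 = ∏ j, f j ^ σ j := by
  rw [← Equiv.prod_comp (finSigmaFinEquiv (m := k) (n := σ))
    (fun t => f (finSigmaFinEquiv.symm t).1)]
  simp only [Equiv.symm_apply_apply]
  rw [Fintype.prod_sigma]
  refine Finset.prod_congr rfl fun j _ => ?_
  change ∏ _y : Fin (σ j), f j = f j ^ σ j
  rw [Finset.prod_const, Finset.card_univ, Fintype.card_fin]

end RelM

open RelM in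
theorem exists_weil {K V : Type} [Field K] [CharZero K] [AddCommGroup V] [Module K V]
    [FiniteDimensional K V] {form : LinearMap.BilinForm K V} {C : Subalgebra K (Module.End K V)}
    {Γ : Type} [Group Γ] [TopologicalSpace Γ] (T : Γ →* Module.End K V) (χ : Γ →* Kˣ)
    (halt : ∀ x, form x x = 0) (hnd : ∀ x, (∀ y, form x y = 0) → x = 0)
    (heq : ∀ γ x y, form (T γ x) (T γ y) = ((χ γ)⁻¹ : Kˣ).val * form x y)
    {k : ℕ} {p : Fin k → Module.End K V} {s : Fin k → ℤ} (hp : CenRel form C p s)
    (hne : ∑ j, (s j : K) • p j ≠ 0) (U : OpenSubgroup Γ)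
    (hC : ∀ j, ∀ γ ∈ U, p j * T γ = T γ * p j) (hU : ∀ γ ∈ U, detProd p s (T γ) = 1) :
    ∃ (n i : ℕ) (x : ExteriorAlgebra K (Fin n → V)),
      TateClass (fun γ => (T γ).compLeft (Fin n)) χ i x ∧ Dv n (∑ j, (s j : K) • p j) x ≠ 0 := by
  obtain ⟨z, hz⟩ : ∃ z, z = ∑ j, (s j : K) • p j := ⟨_, rfl⟩
  rw [← hz] at hne ⊢
  choose p' hp' using fun j => exists_adj halt hnd (p j)
  have hzs : Adj form z (-z) := by
    intro x y
    have h := hp.skew x y
    rw [← hz] at h
    rw [LinearMap.neg_apply, map_neg]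
    exact eq_neg_of_add_eq_zero_left h
  -- the idempotents
  have hp'i : ∀ j, p' j * p' j = p' j := fun j =>
    Adj.unique halt hnd ((hp' j).mul (hp' j)) (by rw [hp.idem]; exact hp' j)
  have hpz : ∀ j, p j * z = (s j : K) • p j := by
    intro j
    rw [hz, Finset.mul_sum, Finset.sum_eq_single j]
    · rw [mul_smul_comm, hp.idem]
    · intro i _ hi
      rw [mul_smul_comm, hp.orth j i (Ne.symm hi), smul_zero]
    · intro h
      exact absurd (Finset.mem_univ j) h
  have hzp : ∀ j, z * p j = (s j : K) • p j := by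
    intro j
    rw [hz, Finset.sum_mul, Finset.sum_eq_single j]
    · rw [smul_mul_assoc, hp.idem]
    · intro i _ hi
      rw [smul_mul_assoc, hp.orth i j hi, smul_zero]
    · intro h
      exact absurd (Finset.mem_univ j) h
  have hp'z : ∀ j, p' j * z = -((s j : K) • p' j) := by
    intro j
    have h1 : Adj form (z * p j) (p' j * -z) := hzs.mul (hp' j)
    rw [hzp] at h1
    have h2 := Adj.unique halt hnd h1 ((hp' j).smul (s j : K))
    rw [← h2, mul_neg, neg_neg]
  have hzp' : ∀ j, z * p' j = -((s j : K) • p' j) := by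
    intro j
    have h1 : Adj form (p j * z) (-z * p' j) := (hp' j).mul hzs
    rw [hpz] at h1
    have h2 := Adj.unique halt hnd h1 ((hp' j).smul (s j : K))
    rw [← h2, neg_mul, neg_neg]
  -- ranks
  have hrk : ∀ j, finrank K (LinearMap.range (p' j)) = finrank K (LinearMap.range (p j)) := by
    intro j
    have h1 := (hp' j).trace hnd
    rw [trace_idem (hp'i j), trace_idem (hp.idem j)] at h1
    exact_mod_cast h1
  have htr : ∑ j, s j * (finrank K (LinearMap.range (p j)) : ℤ) = 0 := by
    have h1 := hzs.trace hnd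
    rw [map_neg] at h1
    have h2 : LinearMap.trace K V z = 0 := by
      have h3 : (2 : K) * LinearMap.trace K V z = 0 := by linear_combination -h1
      exact (mul_eq_zero.mp h3).resolve_left two_ne_zero
    rw [hz, map_sum] at h2
    have h3 : ((∑ j, s j * (finrank K (LinearMap.range (p j)) : ℤ) : ℤ) : K) = 0 := by
      rw [← h2]
      push_cast
      refine Finset.sum_congr rfl fun j _ => ?_
      rw [map_smul, trace_idem (hp.idem j), smul_eq_mul]
    exact_mod_cast h3
  -- the group
  have hTT : ∀ γ, T γ * T γ⁻¹ = 1 := fun γ => by rw [← map_mul, mul_inv_cancel, map_one]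
  have hTT' : ∀ γ, T γ⁻¹ * T γ = 1 := fun γ => by rw [← map_mul, inv_mul_cancel, map_one]
  have hTa : ∀ γ, Adj form (T γ) (((χ γ)⁻¹ : Kˣ).val • T γ⁻¹) := by
    intro γ x y
    rw [LinearMap.smul_apply, map_smul, smul_eq_mul, ← heq, ← Module.End.mul_apply, hTT,
      Module.End.one_apply]
  have hp'T : ∀ j, ∀ γ ∈ U, p' j * T γ = T γ * p' j := by
    intro j γ hγ
    have h1 : Adj form (p j * T γ) ((((χ γ)⁻¹ : Kˣ).val • T γ⁻¹) * p' j) := (hp' j).mul (hTa γ)
    have h2 : Adj form (T γ * p j) (p' j * (((χ γ)⁻¹ : Kˣ).val • T γ⁻¹)) := (hTa γ).mul (hp' j)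
    rw [← hC j γ hγ] at h2
    have h3 := Adj.unique halt hnd h1 h2
    rw [smul_mul_assoc, mul_smul_comm] at h3
    have h4 : T γ⁻¹ * p' j = p' j * T γ⁻¹ := smul_right_injective _ ((χ γ)⁻¹).ne_zero h3
    calc p' j * T γ = T γ * (T γ⁻¹ * p' j) * T γ := by rw [← mul_assoc, hTT, one_mul]
      _ = T γ * (p' j * T γ⁻¹) * T γ := by rw [h4]
      _ = T γ * p' j * (T γ⁻¹ * T γ) := by simp only [mul_assoc]
      _ = T γ * p' j := by rw [hTT', mul_one]
  have hdd : ∀ j, ∀ γ ∈ U, LinearMap.det (p j * T γ + (1 - p j)) *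
      LinearMap.det (p' j * T γ + (1 - p' j)) =
        ((χ γ)⁻¹ : Kˣ).val ^ finrank K (LinearMap.range (p j)) := by
    intro j γ hγ
    have h1 : Adj form (p j * T γ + (1 - p j))
        ((((χ γ)⁻¹ : Kˣ).val • T γ⁻¹) * p' j + (1 - p' j)) :=
      ((hp' j).mul (hTa γ)).add (Adj.one.sub (hp' j))
    have h2 := hp'T j γ⁻¹ (U.inv_mem hγ)
    have h3 : (((χ γ)⁻¹ : Kˣ).val • T γ⁻¹) * p' j + (1 - p' j) =
        p' j * (((χ γ)⁻¹ : Kˣ).val • T γ⁻¹) + (1 - p' j) := by
      rw [smul_mul_assoc, mul_smul_comm, h2]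
    have h4 : T γ * (((χ γ)⁻¹ : Kˣ).val • T γ⁻¹) = ((χ γ)⁻¹ : Kˣ).val • 1 := by
      rw [mul_smul_comm, hTT]
    rw [← h1.det hnd, h3, mul_comm, ← det_mul' (hp'i j) (hp'T j γ hγ), h4,
      det_smul' (hp'i j), hrk]
  -- the family of idempotents
  let σ : Fin k → ℕ := fun j => (s j).natAbs
  let q : Fin k → Module.End K V := fun j => if 0 < s j then p j else p' j
  have hq1 : ∀ j, 0 < s j → q j = p j := fun j h => if_pos h
  have hq2 : ∀ j, ¬ 0 < s j → q j = p' j := fun j h => if_neg h
  have hqi : ∀ j, q j * q j = q j := by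
    intro j
    by_cases h : 0 < s j
    · rw [hq1 j h]
      exact hp.idem j
    · rw [hq2 j h]
      exact hp'i j
  have hqrk : ∀ j, finrank K (LinearMap.range (q j)) = finrank K (LinearMap.range (p j)) := by
    intro j
    by_cases h : 0 < s j
    · rw [hq1 j h]
    · rw [hq2 j h]
      exact hrk j
  have hqz : ∀ j, q j * z = (σ j : K) • q j ∧ z * q j = (σ j : K) • q j := by
    intro j
    by_cases h : 0 < s j
    · have h1 : ((σ j : ℕ) : K) = (s j : K) := by
        have h2 : ((σ j : ℕ) : ℤ) = s j := Int.natAbs_of_nonneg h.le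
        rw [← Int.cast_natCast, h2]
      rw [hq1 j h, h1]
      exact ⟨hpz j, hzp j⟩
    · have h1 : ((σ j : ℕ) : K) = -(s j : K) := by
        have h2 : ((σ j : ℕ) : ℤ) = -s j := by
          change ((s j).natAbs : ℤ) = -s j
          omega
        rw [← Int.cast_natCast, h2, Int.cast_neg]
      rw [hq2 j h, h1, neg_smul]
      exact ⟨hp'z j, hzp' j⟩
  have hqT : ∀ j, ∀ γ ∈ U, q j * T γ = T γ * q j := by
    intro j γ hγ
    by_cases h : 0 < s j
    · rw [hq1 j h]
      exact hC j γ hγ
    · rw [hq2 j h]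
      exact hp'T j γ hγ
  obtain ⟨x, hx0, hxm, hxT, hxz⟩ := exists_top
    (fun t : Fin (∑ j, σ j) => q (finSigmaFinEquiv.symm t).1) (fun t => hqi _)
  obtain ⟨i, hi⟩ : ∃ i : ℕ, i = ∑ j, (-s j).toNat * finrank K (LinearMap.range (p j)) :=
    ⟨_, rfl⟩
  have hdeg : ∑ t : Fin (∑ j, σ j),
      finrank K (LinearMap.range (q (finSigmaFinEquiv.symm t).1)) = 2 * i := by
    rw [sum_fin σ (fun j => finrank K (LinearMap.range (q j)))]
    have h1 : ((∑ j, σ j • finrank K (LinearMap.range (q j)) : ℕ) : ℤ) = ((2 * i : ℕ) : ℤ) := by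
      have h2 : ((∑ j, σ j • finrank K (LinearMap.range (q j)) : ℕ) : ℤ) =
          ∑ j, (s j * (finrank K (LinearMap.range (p j)) : ℤ) +
            2 * (((-s j).toNat : ℤ) * (finrank K (LinearMap.range (p j)) : ℤ))) := by
        push_cast
        refine Finset.sum_congr rfl fun j _ => ?_
        rw [hqrk, smul_eq_mul]
        have h3 : (σ j : ℤ) = s j + 2 * ((-s j).toNat : ℤ) := by
          change ((s j).natAbs : ℤ) = s j + 2 * ((-s j).toNat : ℤ)
          omega
        push_cast
        rw [h3]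
        ring
      rw [h2, Finset.sum_add_distrib, htr, zero_add, ← Finset.mul_sum, hi]
      push_cast
      rfl
    exact_mod_cast h1
  refine ⟨∑ j, σ j, i, x, ⟨?_, U, fun γ hγ => ?_⟩, ?_⟩
  · rw [← hdeg]
    exact hxm
  · have h1 := hxT (T γ) (fun t => hqT _ γ hγ)
    rw [prod_fin σ (fun j => LinearMap.det (q j * T γ + (1 - q j)))] at h1
    have hd0 : ∀ j, LinearMap.det (p j * T γ + (1 - p j)) ≠ 0 := by
      intro j h
      have h2 := hdd j γ hγ
      rw [h, zero_mul] at h2
      exact (pow_ne_zero _ ((χ γ)⁻¹).ne_zero) h2.symm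
    have h2 : ∀ j, LinearMap.det (q j * T γ + (1 - q j)) ^ σ j =
        LinearMap.det (p j * T γ + (1 - p j)) ^ s j *
          ((χ γ)⁻¹ : Kˣ).val ^ ((-s j).toNat * finrank K (LinearMap.range (p j))) := by
      intro j
      by_cases h : 0 < s j
      · have h3 : s j = (σ j : ℤ) := (Int.natAbs_of_nonneg h.le).symm
        have h4 : (-s j).toNat = 0 := by omega
        rw [hq1 j h, h4, zero_mul, pow_zero, mul_one, ← zpow_natCast, ← h3]
      · have h3 : s j = -(σ j : ℤ) := by
          change s j = -((s j).natAbs : ℤ)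
          omega
        have h4 : (-s j).toNat = σ j := by
          change (-s j).toNat = (s j).natAbs
          omega
        rw [hq2 j h, h4, mul_comm (σ j), pow_mul, ← hdd j γ hγ, mul_pow]
        rw [h3, zpow_neg, zpow_natCast, ← mul_assoc, inv_mul_cancel₀ (pow_ne_zero _ (hd0 j)),
          one_mul]
    have h3 : ∏ j, LinearMap.det (q j * T γ + (1 - q j)) ^ σ j = ((χ γ)⁻¹ : Kˣ).val ^ i := by
      have h4 := hU γ hγ
      rw [detProd] at h4
      rw [Finset.prod_congr rfl fun j _ => h2 j, Finset.prod_mul_distrib, h4, one_mul,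
        Finset.prod_pow_eq_pow_sum, hi]
    rw [h3] at h1
    change (χ γ : K) ^ i • ExteriorAlgebra.map ((T γ).compLeft (Fin (∑ j, σ j))) x = x
    rw [h1, smul_smul, ← mul_pow, ← Units.val_mul, mul_inv_cancel, Units.val_one, one_pow,
      one_smul]
  · rw [hxz z (fun t => by rw [(hqz _).1, (hqz _).2])]
    refine smul_ne_zero ?_ hx0
    have h1 : ∀ j, LinearMap.trace K V (q j * z) =
        ((σ j * finrank K (LinearMap.range (p j)) : ℕ) : K) := by
      intro j
      rw [(hqz j).1, map_smul, trace_idem (hqi j), hqrk, smul_eq_mul]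
      push_cast
      rfl
    rw [Finset.sum_congr rfl fun t _ => h1 (finSigmaFinEquiv.symm t).1,
      sum_fin σ (fun j => ((σ j * finrank K (LinearMap.range (p j)) : ℕ) : K))]
    intro h2
    have h3 : ((∑ j, σ j * (σ j * finrank K (LinearMap.range (p j))) : ℕ) : K) = 0 := by
      rw [← h2]
      push_cast
      refine Finset.sum_congr rfl fun j _ => ?_
      rw [nsmul_eq_mul]
    have h4 : ∑ j, σ j * (σ j * finrank K (LinearMap.range (p j))) = 0 := by exact_mod_cast h3
    apply hne
    rw [hz]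
    refine Finset.sum_eq_zero fun j _ => ?_
    have h5 := (Finset.sum_eq_zero_iff.mp h4) j (Finset.mem_univ j)
    rcases Nat.mul_eq_zero.mp h5 with h6 | h6
    · have h7 : s j = 0 := Int.natAbs_eq_zero.mp h6
      rw [h7, Int.cast_zero, zero_smul]
    · rcases Nat.mul_eq_zero.mp h6 with h7 | h7
      · have h8 : s j = 0 := Int.natAbs_eq_zero.mp h7
        rw [h8, Int.cast_zero, zero_smul]
      · have h8 : LinearMap.range (p j) = ⊥ := Submodule.finrank_eq_zero.mp h7
        rw [LinearMap.range_eq_bot.mp h8, smul_zero]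

end Pool.Agent.Lib.MP_640417_ag.Dfr
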