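import Pool.Agent.Lib.MP_640417_ag.Dfr.Core
import Pool.Agent.Lib.MP_640417_ag.Dfr.Rel
import Pool.Agent.Lib.MP_640417_ag.Dfr.Base
import Pool.Agent.Lib.MP_640417_ag.Dfr.Baire
import Pool.Agent.Lib.MP_640417_ag.Dfr.Der
import Pool.Agent.Lib.MP_640417_ag.Dfr.BeInj
import Pool.Agent.Lib.MP_640417_ag.Gen4.Cor

/-!
# MP_640417_ag: the local-global principle for abelian varieties without factors of type III
-/

set_option autoImplicit false

namespace Pool.Agent.Lib.MP_640417_ag.Dfr

open Module TensorProduct Pool.Agent.Lib.MP_640417_ag Pool.Agent.Lib.MP_640417_ag.Frob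
  Pool.Agent.Lib.MP_640417_ag.Four Pool.Agent.Lib.MP_640417_ag.Ty
  Pool.Agent.Lib.MP_640417_ag.Lef Pool.Agent.Lib.MP_640417_ag.Ctl
  Pool.Agent.Lib.MP_640417_ag.Glob Pool.Agent.Lib.MP_640417_ag.Gn
  Pool.Agent.Lib.MP_640417_ag.Gen4

section res

variable {F : Type} [NontriviallyNormedField F] [CharZero F]
  {Γ : Type} [Group Γ] [TopologicalSpace Γ] [IsTopologicalGroup Γ] [CompactSpace Γ] {V : Type}
  [AddCommGroup V] [Module F V] [FiniteDimensional F V] (ρ : H1Rep Γ F V) (U : OpenSubgroup Γ)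

theorem comK_res : comK (res ρ U) = comK ρ := by
  ext c
  rw [mem_comK, mem_comK, commK_res]

theorem detFree_res (γ : U) : DetFree (res ρ U) γ ↔ DetFree ρ γ := by
  unfold DetFree
  rw [comK_res]
  exact Iff.rfl

theorem weilRel_res : WeilRel (res ρ U) ↔ WeilRel ρ := by
  unfold WeilRel
  rw [comK_res]
  refine exists_congr fun k => exists_congr fun p => exists_congr fun s => ?_
  refine and_congr Iff.rfl (and_congr Iff.rfl ?_)
  constructor
  · rintro ⟨W, hW⟩
    have ho : IsOpen ((W.toSubgroup.map U.toSubgroup.subtype : Subgroup Γ) : Set Γ) := by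
      rw [Subgroup.coe_map]
      exact U.isOpen.isOpenMap_subtype_val _ W.isOpen
    refine ⟨⟨W.toSubgroup.map U.toSubgroup.subtype, ho⟩, ?_⟩
    intro γ hγ
    obtain ⟨u, hu, rfl⟩ : γ ∈ W.toSubgroup.map U.toSubgroup.subtype := hγ
    exact hW u hu
  · rintro ⟨W, hW⟩
    refine ⟨W.comap U.toSubgroup.subtype continuous_subtype_val, ?_⟩
    intro γ hγ
    exact hW _ hγ

end res

section center

variable {F : Type} [Field F] [CharZero F] [TopologicalSpace F] {V : Type} [AddCommGroup V]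
  [Module F V] [FiniteDimensional F V] {Γ : Type} [Group Γ] [TopologicalSpace Γ]
  [IsTopologicalGroup Γ] [CompactSpace Γ] (ρ : H1Rep Γ F V)

omit [IsTopologicalGroup Γ] [CompactSpace Γ] [CharZero F] in
/-- everything in the commutant over `K` commutes with central elements -/
theorem cen_K {z : Module.End F V} (hz : CentralSkew ρ z)
    {c : Module.End (AlgebraicClosure F) (AlgebraicClosure F ⊗[F] V)} (hc : c ∈ comK ρ) :
    c * z.baseChange (AlgebraicClosure F) = z.baseChange (AlgebraicClosure F) * c := by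
  classical
  let b := Module.Free.chooseBasis F (AlgebraicClosure F)
  obtain ⟨τ, hτ⟩ := sum_cp b c
  rw [hτ, Finset.sum_mul, Finset.mul_sum]
  refine Finset.sum_congr rfl fun t _ => ?_
  rw [smul_mul_assoc, mul_smul_comm, ← LinearMap.baseChange_mul,
    ← hz.2.1 _ (cp_comm ρ hc (b.coord t)), LinearMap.baseChange_mul]

omit [IsTopologicalGroup Γ] [CompactSpace Γ] [CharZero F] in
theorem skew_base {z : Module.End F V} (hz : ∀ x y, ρ.form (z x) y + ρ.form x (z y) = 0) :
    Skew (ρ.form.baseChange (AlgebraicClosure F)) (z.baseChange (AlgebraicClosure F)) := by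
  intro x y
  induction x using TensorProduct.induction_on with
  | zero => simp
  | add x x' hx hx' =>
    rw [map_add, map_add, LinearMap.add_apply, map_add, LinearMap.add_apply]
    linear_combination hx + hx'
  | tmul a v =>
    induction y using TensorProduct.induction_on with
    | zero => simp
    | add y y' hy hy' =>
      rw [map_add, map_add, map_add]
      linear_combination hy + hy'
    | tmul b w =>
      rw [LinearMap.baseChange_tmul, LinearMap.baseChange_tmul,
        LinearMap.BilinForm.baseChange_tmul, LinearMap.BilinForm.baseChange_tmul, ← add_smul,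
        hz, zero_smul]

/-- **The center kills all Tate classes** if the derived algebra does and one semisimple element satisfies no
relations between determinants. -/
theorem center_kills_of (hss : Semisimple ρ) (h3 : HasSys ρ)
    (hfull : ∀ c, CommF ρ c → ∀ γ, c * ρ.T γ = ρ.T γ * c) {γ : Γ}
    (hγ : (ρ.T γ).IsSemisimple) (hfree : DetFree ρ γ) (n i : ℕ)
    (x : ExteriorAlgebra F (Fin n → V))
    (hx : TateClass (fun γ => (ρ.T γ).compLeft (Fin n)) ρ.χ i x)
    (hder : ∀ X Y, Lefschetz ρ X → Lefschetz ρ Y → Dv n (X * Y - Y * X) x = 0)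
    {z : Module.End F V} (hz : CentralSkew ρ z) : Dv n z x = 0 := by
  have hchar : CharZero (AlgebraicClosure F) :=
    charZero_of_injective_algebraMap (algebraMap F (AlgebraicClosure F)).injective
  obtain ⟨N, st, r, ε, u, v, hS, h⟩ := exists_data_of ρ hss h3 hfull
  apply be_inj (F' := AlgebraicClosure F) n
  rw [← Dv_be]
  refine kills_center (form := ρ.form.baseChange (AlgebraicClosure F)) (C := comK ρ) (TK ρ)
    (chK ρ) (alt_baseChange _ ρ.form ρ.form_alt)
    (nondeg_baseChange _ ρ.form ρ.form_alt ρ.form_nondeg) (formK_eq ρ) hS h γ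
    (fun c hc => comK_full ρ hfull hc γ) (isSemisimple_baseChange _ _ hγ) hfree n i _
    (tate_be (fun γ => ρ.T γ) ρ.χ n i hx) ?_ _ (base_mem ρ hz.1) (fun c hc => cen_K ρ hz hc)
    (skew_base ρ hz.2.2)
  intro X Y hX hY hXc hYc
  exact der_K ρ n x hder X Y hX hXc hY hYc

end center

section converse

variable {F : Type} [NontriviallyNormedField F] [CharZero F]
  {Γ : Type} [Group Γ] [TopologicalSpace Γ] {V : Type}
  [AddCommGroup V] [Module F V] [FiniteDimensional F V] (ρ : H1Rep Γ F V)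

/-- **A Weil relation gives an exotic class.** -/
theorem not_weilRel_full (hfull : ∀ c, CommF ρ c → ∀ γ, c * ρ.T γ = ρ.T γ * c)
    (h : NoExotic ρ) : ¬ WeilRel ρ := by
  rintro ⟨k, p, s, hp, hne, U, hU⟩
  have hchar : CharZero (AlgebraicClosure F) :=
    charZero_of_injective_algebraMap (algebraMap F (AlgebraicClosure F)).injective
  obtain ⟨n, i, y, hy, hy'⟩ := exists_weil (form := ρ.form.baseChange (AlgebraicClosure F))
    (TK ρ) (chK ρ) (alt_baseChange _ ρ.form ρ.form_alt)
    (nondeg_baseChange _ ρ.form ρ.form_alt ρ.form_nondeg) (formK_eq ρ) hp hne U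
    (fun j γ _ => comK_full ρ hfull (hp.mem j) γ) hU
  apply hy'
  have h1 := tate_span (F' := AlgebraicClosure F) (fun γ => ρ.T γ) ρ.χ n i y hy
  clear hy hy'
  induction h1 using Submodule.span_induction with
  | mem y hy =>
    obtain ⟨x, hx, rfl⟩ := hy
    refine skew_K (AlgebraicClosure F) ρ.T ρ.form ρ.form_alt n x (fun X hX hXc => ?_) _ hp.skew ?_
    · have h2 : x ∈ divisorAlg (fun γ => (ρ.T γ).compLeft (Fin n)) ρ.χ := by
        by_contra h3
        exact h n i x ⟨hx, h3⟩
      exact div_killed ρ n X ⟨fun c hc => hXc c (hfull c hc), hX⟩ x h2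
    · intro c hc
      rw [← comK_eq ρ hfull] at hc
      rw [Finset.sum_mul, Finset.mul_sum]
      refine Finset.sum_congr rfl fun j _ => ?_
      rw [smul_mul_assoc, mul_smul_comm, hp.cen j c hc]
  | zero => rw [map_zero]
  | add x y _ _ hx hy => rw [map_add, hx, hy, add_zero]
  | smul a x _ hx => rw [map_smul, hx, smul_zero]

theorem not_weilRel [IsTopologicalGroup Γ] [CompactSpace Γ] (h : NoExotic ρ) :
    ¬ WeilRel ρ := by
  obtain ⟨U, hU⟩ := exists_U0 ρ
  have := topGroup_U U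
  have := compact_U U
  rw [← weilRel_res ρ U]
  exact not_weilRel_full (res ρ U) (fun c hc γ => (hU γ.1).mp γ.2 c ((commF_res ρ U c).mp hc))
    ((noExotic_res ρ U).mpr h)

end converse

section main

variable (l : ℕ) [Fact l.Prime] {Γ : Type} [Group Γ]
    [TopologicalSpace Γ] [IsTopologicalGroup Γ] [CompactSpace Γ] {V : Type} [AddCommGroup V]
    [Module ℚ_[l] V] [FiniteDimensional ℚ_[l] V] (ρ : H1Rep Γ ℚ_[l] V)

/-- Commutators of Lefschetz elements kill all Tate classes, if the Tate classes of codimension two on the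
fourth power which are killed by the center are killed by the Lefschetz elements. -/
theorem der_kills (hsemi : Semisimple ρ) (h : LefCond ρ 4 2) (X Y : Module.End ℚ_[l] V)
    (hX : Lefschetz ρ X) (hY : Lefschetz ρ Y) (n i : ℕ) (x : ExteriorAlgebra ℚ_[l] (Fin n → V))
    (hx : TateClass (fun γ => (ρ.T γ).compLeft (Fin n)) ρ.χ i x) :
    Dv n (X * Y - Y * X) x = 0 := by
  obtain ⟨R, h1, h2, h3⟩ := exists_coord ρ (Module.finBasis ℚ_[l] V)
  have hs := coord_semi ρ _ R h1 hsemi
  exact der_F l ρ _ R h1 h2 h3 X Y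
    (mem_of_four l ρ _ R h1 h2 h3 hs X hX.2 fun x hx hz => h x hx hz X hX)
    (mem_of_four l ρ _ R h1 h2 h3 hs Y hY.2 fun x hx hz => h x hx hz Y hY) n i x hx

/-- one detecting element without relations -/
theorem noExotic_of_detects_of (hsemi : Semisimple ρ) (h3 : HasSys ρ) {γ : Γ}
    (hγ : Detects ρ γ) (hfree : DetFree ρ γ) : NoExotic ρ := by
  have h4 : DivCond ρ 4 2 := ((tfae_of l ρ hsemi h3).out 3 1 rfl rfl).mp ⟨γ, hγ⟩
  refine (noExotic_iff_of l ρ hsemi h3).mpr ⟨h4, fun n i x hx z hz => ?_⟩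
  obtain ⟨U, hU⟩ := exists_U0 ρ
  have := topGroup_U U
  have := compact_U U
  have hγU : γ ∈ U := (hU γ).mpr hγ.1
  refine center_kills_of (res ρ U) (semi_res ρ U hsemi) ((hasSys_res ρ U).mpr h3)
    (fun c hc γ' => (hU γ'.1).mp γ'.2 c ((commF_res ρ U c).mp hc)) (γ := ⟨γ, hγU⟩) hγ.2.1
    ((detFree_res ρ U ⟨γ, hγU⟩).mpr hfree) n i x ((tate_resG ρ U n i x).mpr hx)
    (fun X Y hX hY => ?_) ((central_res ρ U z).mpr hz)
  exact der_kills l ρ hsemi (lef_of_div l ρ h4) X Y ((lefschetz_res ρ U X).mp hX)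
    ((lefschetz_res ρ U Y).mp hY) n i x hx

/-- an element which is good and has no relations -/
theorem exists_good_free_of (hsemi : Semisimple ρ) (h3 : HasSys ρ) (h4 : DivCond ρ 4 2)
    (hW : ¬ WeilRel ρ) : ∃ γ, Good ρ γ ∧ DetFree ρ γ := by
  obtain ⟨U, hU⟩ := exists_U0 ρ
  have := topGroup_U U
  have := compact_U U
  have hfull : ∀ c, CommF (res ρ U) c → ∀ γ, c * (res ρ U).T γ = (res ρ U).T γ * c :=
    fun c hc γ' => (hU γ'.1).mp γ'.2 c ((commF_res ρ U c).mp hc)
  obtain ⟨O, hO, hne, hOg⟩ := good_of_lef l (res ρ U) (semi_res ρ U hsemi) hfull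
    (by
      obtain ⟨X, hX, hXu⟩ := exists_inv_of ρ hsemi h3
      exact ⟨X, (lefschetz_res ρ U X).mpr hX, hXu⟩)
    ((lef_res l ρ U 4 2).mpr (lef_of_div l ρ h4))
  obtain ⟨N, st, r, ε, u, v, hS, h⟩ := exists_data_of (res ρ U) (semi_res ρ U hsemi)
    ((hasSys_res ρ U).mpr h3) hfull
  obtain ⟨γ, hγ, hfree⟩ := exists_detFree (res ρ U) hfull hS
    (fun h => hW ((weilRel_res ρ U).mp h)) O hO hne
  exact ⟨γ, (goodG_res ρ U γ).mp (hOg γ hγ), (detFree_res ρ U γ).mp hfree⟩

/-- one detecting element without relations -/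
theorem noExotic_of_detects (hsemi : Semisimple ρ) (h3 : NoTypeIII ρ) {γ : Γ}
    (hγ : Detects ρ γ) (hfree : DetFree ρ γ) : NoExotic ρ :=
  noExotic_of_detects_of l ρ hsemi (hasSys_of_noTypeIII ρ h3) hγ hfree

/-- an element which is good and has no relations -/
theorem exists_good_free (hsemi : Semisimple ρ) (h3 : NoTypeIII ρ) (h4 : DivCond ρ 4 2)
    (hW : ¬ WeilRel ρ) : ∃ γ, Good ρ γ ∧ DetFree ρ γ :=
  exists_good_free_of l ρ hsemi (hasSys_of_noTypeIII ρ h3) h4 hW

theorem detects_of_good (hsemi : Semisimple ρ) {γ : Γ} (hγ : Good ρ γ) : Detects ρ γ := by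
  obtain ⟨R, h1, h2, h3⟩ := exists_coord ρ (Module.finBasis ℚ_[l] V)
  have hs := coord_semi ρ _ R h1 hsemi
  exact (detects_iff ρ _ R h1 h2 h3 γ).mpr
    (detects_of_goodM R _ hs ((good_iff ρ _ R h1 h2 h3 γ).mp hγ))

/-- **The local-global principle** for abelian varieties without factors of type III. -/
theorem local_global (hsemi : Semisimple ρ) (h3 : NoTypeIII ρ) :
    List.TFAE [NoExotic ρ, DivCond ρ 4 2 ∧ ¬ WeilRel ρ,
      (∀ D : Set Γ, Dense D → ∃ γ ∈ D, Good ρ γ) ∧ ¬ WeilRel ρ,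
      ∃ γ, Good ρ γ ∧ DetFree ρ γ, ∃ γ, Detects ρ γ ∧ DetFree ρ γ] := by
  tfae_have 1 → 2 := fun h =>
    ⟨((noExotic_iff l ρ hsemi h3).mp h).1, not_weilRel ρ h⟩
  tfae_have 2 → 3 := fun h =>
    ⟨((tfae_noTypeIII l ρ hsemi h3).out 1 2 rfl rfl).mp h.1, h.2⟩
  tfae_have 3 → 4 := fun h => exists_good_free l ρ hsemi h3
    (((tfae_noTypeIII l ρ hsemi h3).out 2 1 rfl rfl).mp h.1) h.2
  tfae_have 4 → 5 := fun ⟨γ, h1, h2⟩ => ⟨γ, detects_of_good l ρ hsemi h1, h2⟩
  tfae_have 5 → 1 := fun ⟨γ, h1, h2⟩ => noExotic_of_detects l ρ hsemi h3 h1 h2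
  tfae_finish

end main

end Pool.Agent.Lib.MP_640417_ag.Dfr
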