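import Pool.Agent.Lib.MP_640417_ag.Dfr.Main
import Pool.Agent.Lib.MP_640417_ag.Gen4.Ae

/-!
# MP_640417_ag: the local-global principle, in terms of derivations
-/

set_option autoImplicit false

namespace Pool.Agent.Lib.MP_640417_ag.Dfr

open Module MeasureTheory Pool.Agent.Lib.MP_640417_ag Pool.Agent.Lib.MP_640417_ag.Frob
  Pool.Agent.Lib.MP_640417_ag.Four Pool.Agent.Lib.MP_640417_ag.Lef
  Pool.Agent.Lib.MP_640417_ag.Ctl Pool.Agent.Lib.MP_640417_ag.Gen4

/-- `D` is the derivation of the exterior algebra which extends `s`. -/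
def Derives {F W : Type} [Field F] [AddCommGroup W] [Module F W]
    (D : Module.End F (ExteriorAlgebra F W)) (s : Module.End F W) : Prop :=
  (∀ r : F, D (algebraMap F (ExteriorAlgebra F W) r) = 0) ∧
    ∀ (w : W) (x : ExteriorAlgebra F W),
      D (ExteriorAlgebra.ι F w * x) = ExteriorAlgebra.ι F (s w) * x + ExteriorAlgebra.ι F w * D x

/-- The class `x` on the `n`-th power is killed by the derivation which extends the action of `z`. -/
def Kills {F V : Type} [Field F] [AddCommGroup V] [Module F V] (n : ℕ) (z : Module.End F V)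
    (x : ExteriorAlgebra F (Fin n → V)) : Prop :=
  ∃ D : Module.End F (ExteriorAlgebra F (Fin n → V)), Derives D (z.compLeft (Fin n)) ∧ D x = 0

/-- All Tate classes of codimension `i` on the `n`-th power which are killed by the central skew elements
are generated by the Tate classes of codimension one. -/
def DivGen {Γ : Type} [Group Γ] [TopologicalSpace Γ] {F : Type} [Field F]
    [TopologicalSpace F] {V : Type} [AddCommGroup V] [Module F V]
    (ρ : H1Rep Γ F V) (n i : ℕ) : Prop :=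
  ∀ x, TateClass (fun γ => (ρ.T γ).compLeft (Fin n)) ρ.χ i x →
    (∀ z, CentralSkew ρ z → Kills n z x) →
    x ∈ divisorAlg (fun γ => (ρ.T γ).compLeft (Fin n)) ρ.χ

/-- The property `P` holds on an open set of full measure in some open subgroup. (By the density theorem of
Chebotarev it then holds for a set of Frobenius elements of density one, over a finite extension.) -/
def NearOne {Γ : Type} [Group Γ] [TopologicalSpace Γ] [MeasurableSpace Γ] (ν : Measure Γ)
    (P : Γ → Prop) : Prop :=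
  ∃ (U : OpenSubgroup Γ) (O : Set Γ), IsOpen O ∧ O ⊆ U ∧ ν ((U : Set Γ) \ O) = 0 ∧ ∀ γ ∈ O, P γ

theorem kills_iff {F V : Type} [Field F] [AddCommGroup V] [Module F V] [FiniteDimensional F V]
    (n : ℕ) (z : Module.End F V) (x : ExteriorAlgebra F (Fin n → V)) :
    Kills n z x ↔ Dv n z x = 0 := by
  constructor
  · rintro ⟨D, hD, hx⟩
    have hD' : IsDer D (z.compLeft (Fin n)) := hD
    rw [← hx, hD'.unique (isDer_Dv n z)]
  · intro h
    exact ⟨Dv n z, isDer_Dv n z, h⟩

theorem divGen_iff {Γ : Type} [Group Γ] [TopologicalSpace Γ] {F : Type} [Field F]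
    [TopologicalSpace F] {V : Type} [AddCommGroup V] [Module F V] [FiniteDimensional F V]
    (ρ : H1Rep Γ F V) (n i : ℕ) : DivGen ρ n i ↔ DivCond ρ n i := by
  unfold DivGen DivCond
  simp only [kills_iff]

variable (l : ℕ) [Fact l.Prime] {Γ : Type} [Group Γ]
    [TopologicalSpace Γ] [IsTopologicalGroup Γ] [CompactSpace Γ] {V : Type} [AddCommGroup V]
    [Module ℚ_[l] V] [FiniteDimensional ℚ_[l] V] (ρ : H1Rep Γ ℚ_[l] V)

/-- **The local-global principle and the zero-one law.** -/
theorem local_global' (hsemi : Semisimple ρ) (h3 : NoTypeIII ρ) [MeasurableSpace Γ]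
    [BorelSpace Γ] (ν : Measure Γ) [ν.IsHaarMeasure] :
    List.TFAE [NoExotic ρ, DivGen ρ 4 2 ∧ ¬ WeilRel ρ, NearOne ν (Good ρ) ∧ ¬ WeilRel ρ,
      ∃ γ, Good ρ γ ∧ DetFree ρ γ, ∃ γ, Detects ρ γ ∧ DetFree ρ γ] := by
  have h0 := local_global l ρ hsemi h3
  have h1 := tfae_ae l ρ hsemi (exists_inv ρ hsemi h3) ν
  rw [divGen_iff]
  tfae_have 1 ↔ 2 := h0.out 0 1 rfl rfl
  tfae_have 1 ↔ 4 := h0.out 0 3 rfl rfl
  tfae_have 1 ↔ 5 := h0.out 0 4 rfl rfl
  tfae_have 2 ↔ 3 := by
    refine and_congr ?_ Iff.rfl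
    have h2 : LefCond ρ 4 2 ↔ NearOne ν (Good ρ) := h1.out 1 3 rfl rfl
    rw [← h2]
    exact ⟨lef_of_div l ρ, div_of_lef l ρ hsemi h3⟩
  tfae_finish

end Pool.Agent.Lib.MP_640417_ag.Dfr
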